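import Pool.Agent.Lib.MP_b879c5_an.WP.Spec

set_option autoImplicit false

namespace Pool.Agent.Lib.MPb879c5.WP

open Set Filter MeasureTheory Topology
open Pool.Agent.Lib.MP_b879c5_an
open scoped ContDiff

namespace APRM

theorem deriv_eq {T : ℝ} {G : ℝ × ℝ → ℝ} (h : Sm T G) {t : ℝ} (ht : t ∈ Ioo 0 T) :
    deriv (fun x => G (t, x)) = fun x => Dx G (t, x) := by
  funext x
  exact (h.hasDerivAt_x ht x).deriv

theorem iter3 {T : ℝ} {G : ℝ × ℝ → ℝ} (h : Sm T G) {t : ℝ} (ht : t ∈ Ioo 0 T) :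
    iteratedDeriv 3 (fun x => G (t, x)) = fun x => Dx (Dx (Dx G)) (t, x) := by
  rw [iteratedDeriv_succ, iteratedDeriv_succ, iteratedDeriv_succ, iteratedDeriv_zero,
    deriv_eq h ht, deriv_eq h.dx ht, deriv_eq h.dx.dx ht]

end APRM

open APRM in
theorem specAPR (hHTH : SpecHTH) : SpecAPR := by
  intro T U hT hU hB
  unfold Blow at hB
  push Not at hB
  obtain ⟨M, t₀, ht₀, hM⟩ := hB
  have hm : max t₀ 0 < T := max_lt ht₀ hT
  have h0 : 0 ≤ max t₀ 0 := le_max_right _ _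
  have h1 : t₀ ≤ max t₀ 0 := le_max_left _ _
  have ht₁ : (max t₀ 0 + T) / 2 ∈ Ioo 0 T := ⟨by linarith, by linarith⟩
  have hin : ∀ t ∈ Ico ((max t₀ 0 + T) / 2) T, t ∈ Ioo 0 T := fun t ht =>
    ⟨lt_of_lt_of_le ht₁.1 ht.1, ht.2⟩
  have hMt : ∀ t ∈ Ico ((max t₀ 0 + T) / 2) T, ∀ x, |U (t, x)| ≤ M := by
    intro t ht x
    refine hM t (hin t ht) ?_ x
    have := ht.1
    linarith
  obtain ⟨R, hR⟩ := hHTH T U M _ hU ht₁ hMt
  refine ⟨2 * Real.pi * M ^ 2 + R, _, ht₁, fun t ht => ?_⟩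
  have hc : Continuous (fun x => U (t, x)) := hU.sm.continuous_x (hin t ht)
  refine add_le_add ?_ ?_
  · unfold En
    simp only [iteratedDeriv_zero]
    have h2 : ∫ x in (0)..(2 * Real.pi), U (t, x) ^ 2 ≤ ∫ _ in (0)..(2 * Real.pi), M ^ 2 := by
      refine intervalIntegral.integral_mono_on (by positivity)
        ((hc.pow 2).intervalIntegrable _ _) (by simp) ?_
      intro x _
      have h3 := hMt t ht x
      rw [← sq_abs]
      exact pow_le_pow_left₀ (abs_nonneg _) h3 2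
    refine h2.trans (le_of_eq ?_)
    rw [intervalIntegral.integral_const, smul_eq_mul, sub_zero]
  · unfold En
    rw [iter3 hU.sm (hin t ht)]
    exact hR t ht

end Pool.Agent.Lib.MPb879c5.WP
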