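import Pool.Agent.Lib.MP_b879c5_an.WP.Spec

/-!
Conversion between solutions on an interval `(a,b)` and the structure `Sol` (MP_b879c5_an, helper42).
-/

set_option autoImplicit false

namespace Pool.Agent.Lib.MPb879c5.WP

open Set Filter MeasureTheory Topology
open Pool.Agent.Lib.MP_b879c5_an
open scoped ContDiff

/-- Classical `2π`-periodic solutions on `(a,b) × ℝ`. -/
def SolOn (a b : ℝ) (u : ℝ → ℝ → ℝ) : Prop :=
  ContDiffOn ℝ ∞ (fun p : ℝ × ℝ => u p.1 p.2) (Ioo a b ×ˢ univ) ∧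
  (∀ t ∈ Ioo a b, ∀ x, u t (x + 2 * Real.pi) = u t x) ∧
  (∀ t ∈ Ioo a b, ∀ x,
    deriv (fun s => u s x) t = iteratedDeriv 3 (u t) x + (deriv (u t) x) ^ 2 + (u t x) ^ 2)

namespace AsmM

lemma toSol0 {T : ℝ} {u : ℝ → ℝ → ℝ} (h : SolOn 0 T u) :
    Sol T (fun p : ℝ × ℝ => u p.1 p.2) := by
  obtain ⟨hsm, hper, hpde⟩ := h
  have hS : Sm T (fun p : ℝ × ℝ => u p.1 p.2) := hsm
  refine ⟨hS, hper, ?_⟩
  intro t ht x
  have h1 : deriv (u t) = fun y => Dx (fun p : ℝ × ℝ => u p.1 p.2) (t, y) := by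
    funext y; exact (hS.hasDerivAt_x ht y).deriv
  have h2 : deriv (deriv (u t)) = fun y => Dx (Dx (fun p : ℝ × ℝ => u p.1 p.2)) (t, y) := by
    rw [h1]; funext y; exact (hS.dx.hasDerivAt_x ht y).deriv
  have h3 : deriv (deriv (deriv (u t)))
      = fun y => Dx (Dx (Dx (fun p : ℝ × ℝ => u p.1 p.2))) (t, y) := by
    rw [h2]; funext y; exact (hS.dx.dx.hasDerivAt_x ht y).deriv
  have h4 := hpde t ht x
  have h5 : deriv (fun s => u s x) t = Dt (fun p : ℝ × ℝ => u p.1 p.2) (t, x) :=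
    (hS.hasDerivAt_t ht x).deriv
  have h6 : iteratedDeriv 3 (u t) = deriv (deriv (deriv (u t))) := by
    rw [iteratedDeriv_succ, iteratedDeriv_succ, iteratedDeriv_one]
  rw [h5, h6, h3, h1] at h4
  exact h4

lemma ofSol0 {T : ℝ} {U : ℝ × ℝ → ℝ} (h : Sol T U) : SolOn 0 T (fun t x => U (t, x)) := by
  have hS := h.sm
  refine ⟨?_, h.per, ?_⟩
  · exact hS
  intro t ht x
  have h1 : deriv (fun y => U (t, y)) = fun y => Dx U (t, y) := by
    funext y; exact (hS.hasDerivAt_x ht y).deriv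
  have h2 : deriv (deriv (fun y => U (t, y))) = fun y => Dx (Dx U) (t, y) := by
    rw [h1]; funext y; exact (hS.dx.hasDerivAt_x ht y).deriv
  have h3 : deriv (deriv (deriv (fun y => U (t, y)))) = fun y => Dx (Dx (Dx U)) (t, y) := by
    rw [h2]; funext y; exact (hS.dx.dx.hasDerivAt_x ht y).deriv
  have h5 : deriv (fun s => U (s, x)) t = Dt U (t, x) := (hS.hasDerivAt_t ht x).deriv
  have h6 : iteratedDeriv 3 (fun y => U (t, y)) = deriv (deriv (deriv (fun y => U (t, y)))) := by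
    rw [iteratedDeriv_succ, iteratedDeriv_succ, iteratedDeriv_one]
  show deriv (fun s => U (s, x)) t = iteratedDeriv 3 (fun y => U (t, y)) x
    + (deriv (fun y => U (t, y)) x) ^ 2 + (U (t, x)) ^ 2
  rw [h5, h6, h3, h1]
  exact h.pde t ht x

/-- time shift of a solution on an interval -/
lemma shift {a b h : ℝ} {u : ℝ → ℝ → ℝ} (hu : SolOn a b u) : SolOn (a - h) (b - h) (fun t x => u (t + h) x) := by
  obtain ⟨hsm, hper, hpde⟩ := hu
  have hm : ∀ t ∈ Ioo (a - h) (b - h), t + h ∈ Ioo a b := fun t ht => ⟨by linarith [ht.1], by linarith [ht.2]⟩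
  refine ⟨?_, fun t ht x => hper _ (hm t ht) x, fun t ht x => ?_⟩
  · refine ContDiffOn.comp (g := fun p : ℝ × ℝ => u p.1 p.2) (f := fun p : ℝ × ℝ => (p.1 + h, p.2)) hsm
      (ContDiff.contDiffOn (by fun_prop)) ?_
    rintro ⟨t, x⟩ hp
    exact ⟨hm t hp.1, mem_univ _⟩
  · have h1 : deriv (fun s => u (s + h) x) t = deriv (fun s => u s x) (t + h) :=
      deriv_comp_add_const (f := fun s => u s x) h t
    show deriv (fun s => u (s + h) x) t = iteratedDeriv 3 (u (t + h)) x + (deriv (u (t + h)) x) ^ 2 + (u (t + h) x) ^ 2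
    rw [h1]
    exact hpde _ (hm t ht) x

lemma mono {a b a' b' : ℝ} {u : ℝ → ℝ → ℝ} (hu : SolOn a b u) (ha : a ≤ a') (hb : b' ≤ b) : SolOn a' b' u := by
  obtain ⟨hsm, hper, hpde⟩ := hu
  have hm : ∀ t ∈ Ioo a' b', t ∈ Ioo a b := fun t ht => ⟨lt_of_le_of_lt ha ht.1, lt_of_lt_of_le ht.2 hb⟩
  refine ⟨hsm.mono ?_, fun t ht x => hper _ (hm t ht) x, fun t ht x => hpde _ (hm t ht) x⟩
  rintro ⟨t, x⟩ hp
  exact ⟨hm t hp.1, mem_univ _⟩

end AsmM

/-- The existence statement, with uniqueness. -/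
theorem exists_maximal (hUNQ : SpecUNQ) (hFTI : SpecFTI) (hMXS : SpecMXS) (hLEX : LocEx)
    (u₀ : ℝ → ℝ) (hu : SP u₀) (hm : 0 ≤ ∫ x in (0)..(2 * Real.pi), u₀ x) (hne : ∃ x, u₀ x ≠ 0) :
    ∃ T > 0, ∃ δ > 0, ∃ u : ℝ → ℝ → ℝ, SolOn (-δ) T u ∧ (∀ x, u 0 x = u₀ x) ∧
      (∀ M : ℝ, ∃ᶠ t in 𝓝[<] T, ∃ x, M < |u t x|) ∧
      ∀ (T' δ' : ℝ) (v : ℝ → ℝ → ℝ), 0 < T' → 0 < δ' → SolOn (-δ') T' v → (∀ x, v 0 x = u₀ x) →
        T' ≤ T ∧ ∀ t ∈ Ico 0 T', ∀ x, v t x = u t x := by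
  obtain ⟨δ, hδ, T₀, hT₀, U, hS, hU0, hb⟩ := hMXS hLEX u₀ hu (hFTI u₀ hu hm hne)
  have hSol : SolOn (-δ) (T₀ - δ) (fun t x => U (t + δ, x)) := by
    have h1 := AsmM.shift (h := δ) (AsmM.ofSol0 hS)
    rwa [zero_sub] at h1
  have hTpos : 0 < T₀ - δ := by linarith
  have hunb : ∀ M : ℝ, ∃ᶠ t in 𝓝[<] (T₀ - δ), ∃ x, M < |U (t + δ, x)| := by
    intro M
    rw [frequently_nhdsWithin_iff, (nhds_basis_Ioo (T₀ - δ)).frequently_iff]
    rintro ⟨a, b⟩ ⟨ha, hb'⟩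
    have ha' : a < T₀ - δ := ha
    have hb'' : T₀ - δ < b := hb'
    obtain ⟨t, ht, hat, x, hx⟩ := hb M (a + δ) (by linarith)
    refine ⟨t - δ, ⟨?_, ?_⟩, ⟨x, ?_⟩, ?_⟩
    · show a < t - δ; linarith
    · show t - δ < b; linarith [ht.2]
    · simpa using hx
    · show t - δ < T₀ - δ; linarith [ht.2]
  refine ⟨T₀ - δ, hTpos, δ, hδ, fun t x => U (t + δ, x), hSol, fun x => by simpa using hU0 x, hunb, ?_⟩
  intro T' δ' v hT' hδ' hv hv0
  -- agreement on the common interval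
  have key : ∀ t, 0 ≤ t → t < T' → t < T₀ - δ → ∀ x, v t x = U (t + δ, x) := by
    intro t ht0 htT' htT x
    set ρ := min δ δ' with hρ
    have hρ0 : 0 < ρ := lt_min hδ hδ'
    set m := min (T₀ - δ) T' with hmdef
    have hm1 : m ≤ T₀ - δ := min_le_left _ _
    have hm2 : m ≤ T' := min_le_right _ _
    have htm : t < m := lt_min htT htT'
    have s1 : Sol (m + ρ) (fun p : ℝ × ℝ => U (p.1 + (-ρ) + δ, p.2)) := by
      have h1 := AsmM.shift (h := -ρ) (AsmM.mono hSol (a' := -ρ) (b' := m) (by have := min_le_left δ δ'; linarith) hm1)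
      have e1 : -ρ - -ρ = 0 := by ring
      have e2 : m - -ρ = m + ρ := by ring
      rw [e1, e2] at h1
      exact AsmM.toSol0 h1
    have s2 : Sol (m + ρ) (fun p : ℝ × ℝ => v (p.1 + (-ρ)) p.2) := by
      have h1 := AsmM.shift (h := -ρ) (AsmM.mono hv (a' := -ρ) (b' := m) (by have := min_le_right δ δ'; linarith) hm2)
      have e1 : -ρ - -ρ = 0 := by ring
      have e2 : m - -ρ = m + ρ := by ring
      rw [e1, e2] at h1
      exact AsmM.toSol0 h1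
    have hρm : ρ ∈ Ioo 0 (m + ρ) := ⟨hρ0, by linarith⟩
    have h3 := hUNQ (m + ρ) _ _ ρ s2 s1 hρm (fun y => by
      show v (ρ + -ρ) y = U (ρ + -ρ + δ, y)
      have e1 : ρ + -ρ = 0 := by ring
      rw [e1, hv0 y, zero_add, hU0 y]) (t + ρ) ⟨by linarith, by linarith⟩ x
    have h4 : v (t + ρ + -ρ) x = U (t + ρ + -ρ + δ, x) := h3
    have e1 : t + ρ + -ρ = t := by ring
    rwa [e1] at h4
  have hTT : T' ≤ T₀ - δ := by
    by_contra hlt
    push Not at hlt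
    -- `v` is bounded near `T₀ - δ`
    set T := T₀ - δ with hTdef
    have hK : IsCompact (Icc 0 T ×ˢ Icc 0 (2 * Real.pi)) := isCompact_Icc.prod isCompact_Icc
    have hcont : ContinuousOn (fun p : ℝ × ℝ => v p.1 p.2) (Icc 0 T ×ˢ Icc 0 (2 * Real.pi)) := by
      refine hv.1.continuousOn.mono ?_
      rintro ⟨s, y⟩ ⟨hs, -⟩
      exact ⟨⟨by have := hs.1; show -δ' < s; linarith, lt_of_le_of_lt hs.2 hlt⟩, mem_univ _⟩
    obtain ⟨C, hC⟩ := hK.exists_bound_of_continuousOn hcont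
    have h1 : Ioo 0 T ∈ 𝓝[<] T := Ioo_mem_nhdsLT hTpos
    obtain ⟨t, ⟨x, hx⟩, ht⟩ := ((hunb C).and_eventually h1).exists
    have hper : Function.Periodic (fun y => v t y) (2 * Real.pi) := fun y =>
      hv.2.1 t ⟨by linarith [ht.1], by linarith [ht.2]⟩ y
    obtain ⟨y, hy, hxy⟩ := hper.exists_mem_Ico₀ (by positivity) x
    have h2 := hC (t, y) ⟨⟨ht.1.le, ht.2.le⟩, ⟨hy.1, hy.2.le⟩⟩
    have h3 : v t x = U (t + δ, x) := key t ht.1.le (by linarith [ht.2]) ht.2 x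
    have h4 : v t x = v t y := hxy
    rw [← h3, h4] at hx
    rw [Real.norm_eq_abs] at h2
    linarith
  refine ⟨hTT, fun t ht x => key t ht.1 ht.2 (lt_of_lt_of_le ht.2 hTT) x⟩

end Pool.Agent.Lib.MPb879c5.WP
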