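import Pool.Agent.Lib.MP_b879c5_an.WP.SpecG

/-!
# CPT : Arzelà-Ascoli for functions on the strip, periodic in `x`
-/

set_option autoImplicit false

namespace Pool.Agent.Lib.MPb879c5.WP

open Set Filter MeasureTheory Topology
open Pool.Agent.Lib.MP_b879c5_an
open scoped ContDiff

noncomputable section

namespace CPTM

/-- the compact set -/
def KK (τ : ℝ) : Set (ℝ × ℝ) := Icc (-τ) τ ×ˢ Icc 0 (2 * Real.pi)

lemma compK (τ : ℝ) : IsCompact (KK τ) := isCompact_Icc.prod isCompact_Icc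

lemma lip (τ L : ℝ) (f : ℝ → ℝ → ℝ) (hL : 0 ≤ L)
    (h : ∀ t ∈ Icc (-τ) τ, ∀ t' ∈ Icc (-τ) τ, ∀ x x', |f t x - f t' x'| ≤ L * (|t - t'| + |x - x'|)) :
    LipschitzWith (Real.toNNReal (2 * L)) (fun p : KK τ => f p.1.1 p.1.2) := by
  refine LipschitzWith.of_dist_le_mul fun p q => ?_
  rw [Real.coe_toNNReal _ (by linarith), Real.dist_eq]
  refine (h p.1.1 p.2.1 q.1.1 q.2.1 p.1.2 q.1.2).trans ?_
  have h1 : |p.1.1 - q.1.1| ≤ dist p q := by
    rw [Subtype.dist_eq, Prod.dist_eq, ← Real.dist_eq]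
    exact le_max_left _ _
  have h2 : |p.1.2 - q.1.2| ≤ dist p q := by
    rw [Subtype.dist_eq, Prod.dist_eq, ← Real.dist_eq]
    exact le_max_right _ _
  have h3 : L * (|p.1.1 - q.1.1| + |p.1.2 - q.1.2|) ≤ L * (dist p q + dist p q) :=
    mul_le_mul_of_nonneg_left (add_le_add h1 h2) hL
  linarith

end CPTM

open CPTM in
theorem specCPT : SpecCPT := by
  intro τ L f hτ hb hl hp
  have h0 : (0 : ℝ) ∈ Icc (-τ) τ := ⟨by linarith, hτ.le⟩
  have hL : 0 ≤ L := (abs_nonneg _).trans (hb 0 0 h0 0)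
  have hpi : (0 : ℝ) < 2 * Real.pi := by positivity
  haveI : CompactSpace (KK τ) := isCompact_iff_compactSpace.1 (compK τ)
  have hlip : ∀ n, LipschitzWith (Real.toNNReal (2 * L)) (fun p : KK τ => f n p.1.1 p.1.2) :=
    fun n => lip τ L (f n) hL (hl n)
  let F : ℕ → BoundedContinuousFunction (KK τ) ℝ := fun n =>
    BoundedContinuousFunction.mkOfCompact ⟨fun p => f n p.1.1 p.1.2, (hlip n).continuous⟩
  have hF : ∀ n p, F n p = f n p.1.1 p.1.2 := fun n p => rfl
  have hcomp : IsCompact (closure (range F)) := by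
    refine BoundedContinuousFunction.arzela_ascoli (Icc (-L) L) isCompact_Icc (range F) ?_ ?_
    · rintro g p ⟨n, rfl⟩
      rw [hF]
      exact abs_le.1 (hb n p.1.1 p.2.1 p.1.2)
    · refine UniformEquicontinuous.equicontinuous ?_
      refine LipschitzWith.uniformEquicontinuous _ (Real.toNNReal (2 * L)) ?_
      rintro ⟨g, n, rfl⟩
      exact hlip n
  obtain ⟨g, -, φ, hφ, hlim⟩ := hcomp.tendsto_subseq (fun n => subset_closure (mem_range_self n))
  classical
  refine ⟨φ, hφ, fun t x => if h : (t, toIcoMod hpi 0 x) ∈ KK τ then g ⟨(t, toIcoMod hpi 0 x), h⟩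
    else 0, ?_⟩
  intro η hη
  have h1 := (Metric.tendsto_nhds.1 hlim) η hη
  filter_upwards [h1] with n hn t ht x
  have h2 : (t, toIcoMod hpi 0 x) ∈ KK τ := by
    refine ⟨ht, ?_⟩
    have h3 := toIcoMod_mem_Ico hpi 0 x
    rw [zero_add] at h3
    exact ⟨h3.1, h3.2.le⟩
  rw [dif_pos h2]
  have h4 : f (φ n) t x = f (φ n) t (toIcoMod hpi 0 x) := by
    have h5 : Function.Periodic (f (φ n) t) (2 * Real.pi) := hp (φ n) t ht
    rw [← self_sub_toIcoDiv_zsmul hpi 0 x]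
    exact (h5.sub_zsmul_eq _).symm
  have h6 := BoundedContinuousFunction.dist_coe_le_dist (f := F (φ n)) (g := g)
    ⟨(t, toIcoMod hpi 0 x), h2⟩
  rw [hF, Real.dist_eq] at h6
  rw [h4]
  exact h6.trans hn.le

end

end Pool.Agent.Lib.MPb879c5.WP
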