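import Pool.Agent.Lib.MP_b879c5_an.WP.SpecG

/-!
# EKS (MP_b879c5_an): the energy inequality in `H^k`, `k ≥ 4`, linear in `En k`
-/

set_option autoImplicit false

namespace Pool.Agent.Lib.MPb879c5.WP

open Set Filter MeasureTheory Topology
open scoped ContDiff

noncomputable section

namespace EKSM

lemma cont {f : ℝ → ℝ} (hf : SP f) (j : ℕ) : Continuous (iteratedDeriv j f) :=
  hf.sm.continuous_iteratedDeriv j (by exact_mod_cast le_top)

lemma hder {f : ℝ → ℝ} (hf : SP f) (j : ℕ) (x : ℝ) :
    HasDerivAt (iteratedDeriv j f) (iteratedDeriv (j + 1) f x) x := by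
  have h : Differentiable ℝ (iteratedDeriv j f) :=
    hf.sm.differentiable_iteratedDeriv j (by exact_mod_cast WithTop.coe_lt_top _)
  rw [iteratedDeriv_succ]
  exact (h x).hasDerivAt

lemma per {f : ℝ → ℝ} (hf : SP f) (j : ℕ) :
    iteratedDeriv j f (2 * Real.pi) = iteratedDeriv j f 0 := by
  have h : ∀ x, iteratedDeriv j f (x + 2 * Real.pi) = iteratedDeriv j f x := by
    induction j with
    | zero => intro x; simpa using hf.per x
    | succ j ih =>
      intro x
      rw [iteratedDeriv_succ]
      have h : deriv (fun y => iteratedDeriv j f (y + 2 * Real.pi)) x =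
          deriv (iteratedDeriv j f) (x + 2 * Real.pi) := deriv_comp_add_const _ _ _
      rw [← h]
      congr 1
      funext y
      exact ih y
  have := h 0
  rwa [zero_add] at this

lemma tot {F F' : ℝ → ℝ} (h : ∀ x, HasDerivAt F (F' x) x) (hc : Continuous F')
    (hp : F (2 * Real.pi) = F 0) : ∫ x in (0)..(2 * Real.pi), F' x = 0 := by
  rw [intervalIntegral.integral_eq_sub_of_hasDerivAt (fun x _ => h x) (hc.intervalIntegrable _ _),
    hp, sub_self]

lemma tri {f : ℝ → ℝ} (hf : SP f) (k a b : ℕ) (M E : ℝ) (hM : ∀ x, iteratedDeriv a f x ^ 2 ≤ M)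
    (hE : En b f ≤ E) :
    |∫ x in (0)..(2 * Real.pi), iteratedDeriv k f x * (iteratedDeriv a f x * iteratedDeriv b f x)|
      ≤ (En k f + M * E) / 2 := by
  have hM0 : 0 ≤ M := le_trans (sq_nonneg _) (hM 0)
  have hk := cont hf k
  have ha := cont hf a
  have hb := cont hf b
  have c1 : IntervalIntegrable (fun x => iteratedDeriv k f x ^ 2) volume 0 (2 * Real.pi) :=
    (hk.pow 2).intervalIntegrable _ _
  have c2 : IntervalIntegrable (fun x => M * iteratedDeriv b f x ^ 2) volume 0 (2 * Real.pi) :=
    (continuous_const.mul (hb.pow 2)).intervalIntegrable _ _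
  have h1 : |∫ x in (0)..(2 * Real.pi), iteratedDeriv k f x * (iteratedDeriv a f x * iteratedDeriv b f x)|
      ≤ ∫ x in (0)..(2 * Real.pi), (iteratedDeriv k f x ^ 2 + M * iteratedDeriv b f x ^ 2) / 2 := by
    refine (intervalIntegral.abs_integral_le_integral_abs (by positivity)).trans
      (intervalIntegral.integral_mono_on (by positivity) ?_ ?_ ?_)
    · exact ((hk.mul (ha.mul hb)).abs).intervalIntegrable _ _
    · exact (c1.add c2).div_const 2
    · intro x _
      have h2 := mul_le_mul_of_nonneg_right (hM x) (sq_nonneg (iteratedDeriv b f x))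
      rw [abs_le]
      constructor
      · nlinarith [sq_nonneg (iteratedDeriv k f x + iteratedDeriv a f x * iteratedDeriv b f x)]
      · nlinarith [sq_nonneg (iteratedDeriv k f x - iteratedDeriv a f x * iteratedDeriv b f x)]
  have h3 : ∫ x in (0)..(2 * Real.pi), (iteratedDeriv k f x ^ 2 + M * iteratedDeriv b f x ^ 2) / 2
      = (En k f + M * En b f) / 2 := by
    rw [intervalIntegral.integral_div, intervalIntegral.integral_add c1 c2,
      intervalIntegral.integral_const_mul]
    rfl
  rw [h3] at h1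
  have h4 := mul_le_mul_of_nonneg_left hE hM0
  linarith

lemma lead {f : ℝ → ℝ} (hf : SP f) (k : ℕ) (A : ℝ) (h2 : ∀ x, iteratedDeriv 2 f x ^ 2 ≤ 40 * A) :
    |∫ x in (0)..(2 * Real.pi), iteratedDeriv k f x * (iteratedDeriv 1 f x * iteratedDeriv (k + 1) f x)|
      ≤ (1 + 40 * A) * En k f := by
  have hk := cont hf k
  have hk1 := cont hf (k + 1)
  have h1c := cont hf 1
  have h2c := cont hf 2
  have e0 : ∫ x in (0)..(2 * Real.pi), (iteratedDeriv 2 f x * iteratedDeriv k f x ^ 2 +
      2 * (iteratedDeriv k f x * (iteratedDeriv 1 f x * iteratedDeriv (k + 1) f x))) = 0 := by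
    refine tot (F := fun x => iteratedDeriv 1 f x * iteratedDeriv k f x ^ 2) ?_ ?_ ?_
    · intro x
      have := (hder hf 1 x).mul ((hder hf k x).pow 2)
      refine HasDerivAt.congr_deriv this ?_
      simp only [Pi.pow_apply]
      push_cast
      ring
    · fun_prop
    · simp only [per hf]
  have c1 : IntervalIntegrable (fun x => iteratedDeriv 2 f x * iteratedDeriv k f x ^ 2) volume 0
      (2 * Real.pi) := (h2c.mul (hk.pow 2)).intervalIntegrable _ _
  have c2 : IntervalIntegrable (fun x => 2 * (iteratedDeriv k f x *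
      (iteratedDeriv 1 f x * iteratedDeriv (k + 1) f x))) volume 0 (2 * Real.pi) :=
    (continuous_const.mul (hk.mul (h1c.mul hk1))).intervalIntegrable _ _
  rw [intervalIntegral.integral_add c1 c2, intervalIntegral.integral_const_mul] at e0
  have h3 : |∫ x in (0)..(2 * Real.pi), iteratedDeriv 2 f x * iteratedDeriv k f x ^ 2|
      ≤ ∫ x in (0)..(2 * Real.pi), (1 + 40 * A) * iteratedDeriv k f x ^ 2 := by
    refine (intervalIntegral.abs_integral_le_integral_abs (by positivity)).trans
      (intervalIntegral.integral_mono_on (by positivity) ?_ ?_ ?_)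
    · exact ((h2c.mul (hk.pow 2)).abs).intervalIntegrable _ _
    · exact (continuous_const.mul (hk.pow 2)).intervalIntegrable _ _
    · intro x _
      have h4 : |iteratedDeriv 2 f x| ≤ 1 + 40 * A := by
        have := h2 x
        rw [abs_le]
        constructor
        · nlinarith [sq_nonneg (iteratedDeriv 2 f x + 1)]
        · nlinarith [sq_nonneg (iteratedDeriv 2 f x - 1)]
      rw [abs_mul, abs_of_nonneg (sq_nonneg (iteratedDeriv k f x))]
      exact mul_le_mul_of_nonneg_right h4 (sq_nonneg _)
  rw [intervalIntegral.integral_const_mul] at h3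
  have h5 : (1 + 40 * A) * (∫ x in (0)..(2 * Real.pi), iteratedDeriv k f x ^ 2)
      = (1 + 40 * A) * En k f := rfl
  rw [h5] at h3
  have h6 := abs_le.1 h3
  have h7 := abs_nonneg (∫ x in (0)..(2 * Real.pi), iteratedDeriv 2 f x * iteratedDeriv k f x ^ 2)
  rw [abs_le]
  constructor <;> linarith [h6.1, h6.2]

lemma top {f : ℝ → ℝ} (hf : SP f) (k : ℕ) :
    ∫ x in (0)..(2 * Real.pi), iteratedDeriv k f x * iteratedDeriv (k + 3) f x = 0 := by
  have h0 := cont hf k
  have h3 := cont hf (k + 3)
  refine tot (F := fun x => iteratedDeriv k f x * iteratedDeriv (k + 2) f x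
    - iteratedDeriv (k + 1) f x ^ 2 / 2) ?_ ?_ ?_
  · intro x
    have := ((hder hf k x).mul (hder hf (k + 2) x)).sub (((hder hf (k + 1) x).pow 2).div_const 2)
    refine HasDerivAt.congr_deriv this ?_
    push_cast
    ring
  · fun_prop
  · simp only [per hf]

lemma En_nonneg (k : ℕ) (f : ℝ → ℝ) : 0 ≤ En k f :=
  intervalIntegral.integral_nonneg (by positivity) fun x _ => sq_nonneg _

lemma Fo_deriv {f : ℝ → ℝ} (hf : SP f) (k : ℕ) (x : ℝ) :
    iteratedDeriv k (Fo f) x = iteratedDeriv (k + 3) f x +
      (∑ i ∈ Finset.range (k + 1), (k.choose i : ℝ) * iteratedDeriv (i + 1) f x *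
        iteratedDeriv (k - i + 1) f x) +
      ∑ i ∈ Finset.range (k + 1), (k.choose i : ℝ) * iteratedDeriv i f x *
        iteratedDeriv (k - i) f x := by
  have hsm : ContDiff ℝ ∞ f := hf.sm
  have hd : ContDiff ℝ ∞ (deriv f) := (contDiff_infty_iff_deriv.1 hsm).2
  have hk3 : ContDiff ℝ ∞ (iteratedDeriv 3 f) := by
    rw [iteratedDeriv_eq_iterate]
    exact ContDiff.iterate_deriv 3 hsm
  have e : Fo f = (iteratedDeriv 3 f + deriv f * deriv f) + f * f := by
    funext y
    simp only [Fo, Pi.add_apply, Pi.mul_apply]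
    ring
  have hle : ((k : ℕ∞) : WithTop ℕ∞) ≤ (∞ : WithTop ℕ∞) := by exact_mod_cast le_top
  have a1 : ContDiffAt ℝ k (iteratedDeriv 3 f) x := (hk3.of_le hle).contDiffAt
  have a2 : ContDiffAt ℝ k (deriv f) x := (hd.of_le hle).contDiffAt
  have a3 : ContDiffAt ℝ k f x := (hsm.of_le hle).contDiffAt
  have b2 : ContDiffAt ℝ k (deriv f * deriv f) x := a2.mul a2
  have b3 : ContDiffAt ℝ k (f * f) x := a3.mul a3
  have b1 : ContDiffAt ℝ k (iteratedDeriv 3 f + deriv f * deriv f) x := a1.add b2
  rw [e, iteratedDeriv_add b1 b3, iteratedDeriv_add a1 b2,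
    iteratedDeriv_mul a2 a2, iteratedDeriv_mul a3 a3]
  have e3 : iteratedDeriv k (iteratedDeriv 3 f) = iteratedDeriv (k + 3) f := by
    rw [iteratedDeriv_eq_iterate, iteratedDeriv_eq_iterate, iteratedDeriv_eq_iterate,
      Function.iterate_add_apply]
  rw [e3]
  have e4 : ∀ i : ℕ, iteratedDeriv i (deriv f) = iteratedDeriv (i + 1) f := fun i =>
    iteratedDeriv_succ'.symm
  simp only [e4]

end EKSM

open EKSM in
theorem specEKS (hSOB : SpecSOB) : SpecEKS := by
  intro k A hk
  refine ⟨2 * 2 ^ k * (1 + 40 * A + 40 * A ^ 2), fun f hf hA => ?_⟩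
  have hA0 : 0 ≤ A := le_trans (En_nonneg 0 f) (hA 0 (by omega))
  have hEk := En_nonneg k f
  -- bounds
  have hsup : ∀ a, a + 2 ≤ k → ∀ x, iteratedDeriv a f x ^ 2 ≤ 40 * A := by
    intro a ha x
    have h1 := (hSOB f hf a (a + 1) (by omega)).2 x
    have h2 := hA 0 (by omega)
    have h3 := hA (a + 1) (by omega)
    linarith
  have hsup1 : ∀ a, a + 1 ≤ k → ∀ x, iteratedDeriv a f x ^ 2 ≤ 20 * (A + En k f) := by
    intro a ha x
    have h1 := (hSOB f hf a k (by omega)).2 x
    have h2 := hA 0 (by omega)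
    linarith
  have hEb : ∀ b, b ≤ k → En b f ≤ A + En k f := by
    intro b hb
    rcases Nat.lt_or_ge b k with h | h
    · linarith [hA b h]
    · have : b = k := le_antisymm hb h
      subst this
      linarith
  have hI : ∀ a b, a + 2 ≤ k → b ≤ k →
      |∫ x in (0)..(2 * Real.pi), iteratedDeriv k f x * (iteratedDeriv a f x * iteratedDeriv b f x)|
        ≤ (1 + 40 * A + 40 * A ^ 2) * (1 + En k f) := by
    intro a b ha hb
    have := tri hf k a b _ _ (hsup a ha) (hEb b hb)
    nlinarith [mul_nonneg hA0 hEk, mul_nonneg (sq_nonneg A) hEk, sq_nonneg A]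
  have hII : ∀ a b, a + 1 ≤ k → b + 1 ≤ k →
      |∫ x in (0)..(2 * Real.pi), iteratedDeriv k f x * (iteratedDeriv a f x * iteratedDeriv b f x)|
        ≤ (1 + 40 * A + 40 * A ^ 2) * (1 + En k f) := by
    intro a b ha hb
    have := tri hf k a b _ _ (hsup1 a ha) (hA b (by omega))
    nlinarith [mul_nonneg hA0 hEk, mul_nonneg (sq_nonneg A) hEk, sq_nonneg A]
  have hIII : |∫ x in (0)..(2 * Real.pi), iteratedDeriv k f x *
      (iteratedDeriv 1 f x * iteratedDeriv (k + 1) f x)|
        ≤ (1 + 40 * A + 40 * A ^ 2) * (1 + En k f) := by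
    have := lead hf k A (hsup 2 (by omega))
    nlinarith [mul_nonneg hA0 hEk, mul_nonneg (sq_nonneg A) hEk, sq_nonneg A]
  have hsw : ∀ a b : ℕ, (∫ x in (0)..(2 * Real.pi), iteratedDeriv k f x *
      (iteratedDeriv a f x * iteratedDeriv b f x)) = ∫ x in (0)..(2 * Real.pi), iteratedDeriv k f x *
      (iteratedDeriv b f x * iteratedDeriv a f x) := by
    intro a b
    simp only [mul_comm (iteratedDeriv a f _) (iteratedDeriv b f _)]
  have h1 : ∀ i, i ≤ k → |∫ x in (0)..(2 * Real.pi), iteratedDeriv k f x *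
      (iteratedDeriv (i + 1) f x * iteratedDeriv (k - i + 1) f x)|
        ≤ (1 + 40 * A + 40 * A ^ 2) * (1 + En k f) := by
    intro i hi
    by_cases c0 : i = 0
    · subst c0
      exact hIII
    by_cases c1 : i = 1
    · subst c1
      exact hI _ _ (by omega) (by omega)
    by_cases c2 : i = k
    · subst c2
      rw [hsw]
      simpa using hIII
    by_cases c3 : i + 1 = k
    · rw [hsw]
      exact hI _ _ (by omega) (by omega)
    · exact hII _ _ (by omega) (by omega)
  have h0 : ∀ i, i ≤ k → |∫ x in (0)..(2 * Real.pi), iteratedDeriv k f x *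
      (iteratedDeriv i f x * iteratedDeriv (k - i) f x)|
        ≤ (1 + 40 * A + 40 * A ^ 2) * (1 + En k f) := by
    intro i hi
    by_cases c0 : i + 2 ≤ k
    · exact hI _ _ (by omega) (by omega)
    · rw [hsw]
      exact hI _ _ (by omega) (by omega)
  have hc : ∀ j, Continuous (iteratedDeriv j f) := cont hf
  have eq : (∫ x in (0)..(2 * Real.pi), iteratedDeriv k f x * iteratedDeriv k (Fo f) x) =
      (∑ i ∈ Finset.range (k + 1), (k.choose i : ℝ) * ∫ x in (0)..(2 * Real.pi),
        iteratedDeriv k f x * (iteratedDeriv (i + 1) f x * iteratedDeriv (k - i + 1) f x)) +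
      ∑ i ∈ Finset.range (k + 1), (k.choose i : ℝ) * ∫ x in (0)..(2 * Real.pi),
        iteratedDeriv k f x * (iteratedDeriv i f x * iteratedDeriv (k - i) f x) := by
    have e1 : ∀ x, iteratedDeriv k f x * iteratedDeriv k (Fo f) x =
        iteratedDeriv k f x * iteratedDeriv (k + 3) f x +
        (∑ i ∈ Finset.range (k + 1), (k.choose i : ℝ) *
          (iteratedDeriv k f x * (iteratedDeriv (i + 1) f x * iteratedDeriv (k - i + 1) f x))) +
        ∑ i ∈ Finset.range (k + 1), (k.choose i : ℝ) *
          (iteratedDeriv k f x * (iteratedDeriv i f x * iteratedDeriv (k - i) f x)) := by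
      intro x
      rw [Fo_deriv hf k x, mul_add, mul_add, Finset.mul_sum, Finset.mul_sum]
      congr 1
      · congr 1
        exact Finset.sum_congr rfl fun i _ => by ring
      · exact Finset.sum_congr rfl fun i _ => by ring
    simp only [e1]
    have i1 : IntervalIntegrable (fun x => iteratedDeriv k f x * iteratedDeriv (k + 3) f x) volume 0
        (2 * Real.pi) := ((hc k).mul (hc (k + 3))).intervalIntegrable _ _
    have i2 : ∀ i ∈ Finset.range (k + 1), IntervalIntegrable (fun x => (k.choose i : ℝ) *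
        (iteratedDeriv k f x * (iteratedDeriv (i + 1) f x * iteratedDeriv (k - i + 1) f x))) volume 0
        (2 * Real.pi) := fun i _ =>
      (continuous_const.mul ((hc k).mul ((hc (i + 1)).mul (hc (k - i + 1))))).intervalIntegrable _ _
    have i3 : ∀ i ∈ Finset.range (k + 1), IntervalIntegrable (fun x => (k.choose i : ℝ) *
        (iteratedDeriv k f x * (iteratedDeriv i f x * iteratedDeriv (k - i) f x))) volume 0
        (2 * Real.pi) := fun i _ =>
      (continuous_const.mul ((hc k).mul ((hc i).mul (hc (k - i))))).intervalIntegrable _ _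
    have s2 : IntervalIntegrable (fun x => ∑ i ∈ Finset.range (k + 1), (k.choose i : ℝ) *
        (iteratedDeriv k f x * (iteratedDeriv (i + 1) f x * iteratedDeriv (k - i + 1) f x))) volume 0
        (2 * Real.pi) :=
      (continuous_finsetSum _ fun i _ => continuous_const.mul
        ((hc k).mul ((hc (i + 1)).mul (hc (k - i + 1))))).intervalIntegrable _ _
    have s3 : IntervalIntegrable (fun x => ∑ i ∈ Finset.range (k + 1), (k.choose i : ℝ) *
        (iteratedDeriv k f x * (iteratedDeriv i f x * iteratedDeriv (k - i) f x))) volume 0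
        (2 * Real.pi) :=
      (continuous_finsetSum _ fun i _ => continuous_const.mul
        ((hc k).mul ((hc i).mul (hc (k - i))))).intervalIntegrable _ _
    rw [intervalIntegral.integral_add (i1.add s2) s3, intervalIntegral.integral_add i1 s2, top hf k,
      zero_add, intervalIntegral.integral_finsetSum i2, intervalIntegral.integral_finsetSum i3]
    simp only [intervalIntegral.integral_const_mul]
  have hsum : (∑ i ∈ Finset.range (k + 1), (k.choose i : ℝ)) = 2 ^ k := by
    have := Nat.sum_range_choose k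
    exact_mod_cast this
  have hb : ∀ G : ℕ → ℝ, (∀ i, i ≤ k → |G i| ≤ (1 + 40 * A + 40 * A ^ 2) * (1 + En k f)) →
      |∑ i ∈ Finset.range (k + 1), (k.choose i : ℝ) * G i| ≤
        2 ^ k * ((1 + 40 * A + 40 * A ^ 2) * (1 + En k f)) := by
    intro G hG
    refine (Finset.abs_sum_le_sum_abs _ _).trans ?_
    rw [← hsum, Finset.sum_mul]
    refine Finset.sum_le_sum fun i hi => ?_
    rw [abs_mul, abs_of_nonneg (Nat.cast_nonneg _)]
    exact mul_le_mul_of_nonneg_left (hG i (by have := Finset.mem_range.1 hi; omega))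
      (Nat.cast_nonneg _)
  rw [eq]
  have t1 := hb _ h1
  have t0 := hb _ h0
  refine (abs_add_le _ _).trans ?_
  linarith

end

end Pool.Agent.Lib.MPb879c5.WP
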