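import Pool.Agent.Lib.MP_b879c5_an.WP.Spec

/-!
# MP_b879c5_an, module FTI: finite time
-/

set_option autoImplicit false

namespace Pool.Agent.Lib.MPb879c5.WP

open Set Filter MeasureTheory Topology
open Pool.Agent.Lib.MP_b879c5_an
open scoped ContDiff

noncomputable section

theorem specFTI (hUNQ : SpecUNQ) (hSHF : SpecSHF) : SpecFTI := by
  intro u₀ hu₀ hm0 hne δ hδ hex
  obtain ⟨U₁, hS₁, hU₁⟩ := hex
  have hδm : δ ∈ Ioo 0 (2 * δ) := ⟨hδ, by linarith⟩
  have ht₁m : 3 * δ / 2 ∈ Ioo 0 (2 * δ) := ⟨by linarith, by linarith⟩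
  have hmδ : 0 ≤ mI U₁ δ := by
    have : mI U₁ δ = ∫ x in (0)..(2 * Real.pi), u₀ x := by
      unfold mI; simp only [hU₁]
    rw [this]; exact hm0
  have hJ : 0 < JI U₁ δ := by
    have : JI U₁ δ = ∫ x in (0)..(2 * Real.pi), (u₀ x) ^ 2 := by
      unfold JI; simp only [hU₁]
    rw [this]
    refine intervalIntegral.integral_pos Real.two_pi_pos ((hu₀.sm.continuous.pow 2).continuousOn)
      (fun x _ => sq_nonneg _) ?_
    obtain ⟨x, hx⟩ := hne
    have hp : Function.Periodic u₀ (2 * Real.pi) := hu₀.per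
    obtain ⟨y, hy, hxy⟩ := hp.exists_mem_Ico₀ Real.two_pi_pos x
    refine ⟨y, Ico_subset_Icc_self hy, ?_⟩
    have : u₀ y ≠ 0 := by rw [← hxy]; exact hx
    positivity
  have hI : 0 ≤ II U₁ δ := by
    unfold II
    exact intervalIntegral.integral_nonneg Real.two_pi_pos.le fun x _ => sq_nonneg _
  have hm1 : 0 < mI U₁ (3 * δ / 2) := by
    by_contra hcon
    have hcon' := not_lt.1 hcon
    have hz : ∀ t ∈ Icc δ (3 * δ / 2), mI U₁ t = 0 := by
      intro t ht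
      have htm : t ∈ Ioo 0 (2 * δ) := ⟨by linarith [ht.1], by linarith [ht.2]⟩
      have h1 := hS₁.m_mono hδm htm ht.1
      have h2 := hS₁.m_mono htm ht₁m ht.2
      linarith
    have hlt : δ < 3 * δ / 2 := by linarith
    have hd := (hS₁.hasDerivAt_m hδm).hasDerivWithinAt (s := Icc δ (3 * δ / 2))
    have hd0 : HasDerivWithinAt (mI U₁) 0 (Icc δ (3 * δ / 2)) δ :=
      (hasDerivWithinAt_const δ (Icc δ (3 * δ / 2)) (0 : ℝ)).congr hz (hz δ ⟨le_rfl, hlt.le⟩)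
    have := (uniqueDiffOn_Icc hlt δ ⟨le_rfl, hlt.le⟩).eq_deriv _ hd hd0
    linarith
  refine ⟨3 * δ / 2 + 2 * Real.pi / mI U₁ (3 * δ / 2), ?_⟩
  intro T U hT hS hU
  rcases le_or_gt T (3 * δ / 2) with hle | hgt
  · have : 0 < 2 * Real.pi / mI U₁ (3 * δ / 2) := div_pos Real.two_pi_pos hm1
    linarith
  · have hS' := hSHF.1 T (min T (2 * δ)) U hS (min_le_left _ _)
    have hS₁' := hSHF.1 (2 * δ) (min T (2 * δ)) U₁ hS₁ (min_le_right _ _)
    have e := hUNQ (min T (2 * δ)) U U₁ δ hS' hS₁' ⟨hδ, lt_min hT (by linarith)⟩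
      (fun x => by rw [hU, hU₁]) (3 * δ / 2) ⟨by linarith, lt_min hgt (by linarith)⟩
    have em : mI U (3 * δ / 2) = mI U₁ (3 * δ / 2) := by
      unfold mI; simp only [e]
    have h1 := hS.m_upper (t := 3 * δ / 2) ⟨by linarith, hgt⟩
    rw [em] at h1
    have h2 : 0 < T - 3 * δ / 2 := by linarith
    have h3 : T - 3 * δ / 2 ≤ 2 * Real.pi / mI U₁ (3 * δ / 2) := by
      rw [le_div_iff₀ hm1]; linarith
    linarith

end

end Pool.Agent.Lib.MPb879c5.WP
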