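import Pool.Agent.Lib.MP_b879c5_an.WP.SpecG

/-!
# Module GBD: uniform bounds in all `H^k` for the Galerkin solutions
-/

set_option autoImplicit false

namespace Pool.Agent.Lib.MPb879c5.WP

open Set Filter MeasureTheory Topology
open Pool.Agent.Lib.MP_b879c5_an
open scoped ContDiff

noncomputable section

namespace GBDM

theorem en_nonneg (k : ℕ) (f : ℝ → ℝ) : 0 ≤ En k f := by
  unfold En
  exact intervalIntegral.integral_nonneg (by positivity) fun x _ => sq_nonneg _

theorem gron1 (g g' : ℝ → ℝ) (τ C : ℝ) (hC : 0 ≤ C) (hd : ∀ t ∈ Icc 0 τ, HasDerivAt g (g' t) t)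
    (hb : ∀ t ∈ Icc 0 τ, |g' t| ≤ C * (1 + g t)) (h0 : 0 ≤ g 0) :
    ∀ t ∈ Icc 0 τ, 1 + g t ≤ (1 + g 0) * Real.exp (C * τ) := by
  intro t ht
  have hder : ∀ s ∈ Icc 0 τ, HasDerivAt (fun s => (1 + g s) * Real.exp (-(C * s)))
      (Real.exp (-(C * s)) * (g' s - C * (1 + g s))) s := by
    intro s hs
    have h1 : HasDerivAt (fun s : ℝ => -(C * s)) (-C) s := by
      have h := (hasDerivAt_id' s).const_mul (-C)
      simpa only [neg_mul, mul_one] using h
    have h2 := ((hd s hs).const_add 1).mul h1.exp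
    refine h2.congr_deriv ?_
    ring
  have hanti : AntitoneOn (fun s => (1 + g s) * Real.exp (-(C * s))) (Icc 0 τ) := by
    refine antitoneOn_of_deriv_nonpos (convex_Icc 0 τ)
      (fun s hs => (hder s hs).continuousAt.continuousWithinAt)
      (fun s hs => (hder s (interior_subset hs)).differentiableAt.differentiableWithinAt) ?_
    intro s hs
    have hs' := interior_subset hs
    rw [(hder s hs').deriv]
    have hle : g' s ≤ C * (1 + g s) := le_trans (le_abs_self _) (hb s hs')
    exact mul_nonpos_of_nonneg_of_nonpos (Real.exp_pos _).le (by linarith)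
  have h3 := hanti (left_mem_Icc.2 (ht.1.trans ht.2)) ht ht.1
  simp only [mul_zero, neg_zero, Real.exp_zero, mul_one] at h3
  have h4 : 1 + g t ≤ (1 + g 0) * Real.exp (C * t) := by
    have h5 : (1 + g t) = ((1 + g t) * Real.exp (-(C * t))) * Real.exp (C * t) := by
      rw [mul_assoc, ← Real.exp_add]; simp
    rw [h5]
    exact mul_le_mul_of_nonneg_right h3 (Real.exp_pos _).le
  refine h4.trans ?_
  refine mul_le_mul_of_nonneg_left (Real.exp_le_exp.2 ?_) (by linarith)
  exact mul_le_mul_of_nonneg_left ht.2 hC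

theorem gron (g g' : ℝ → ℝ) (τ C : ℝ) (hC : 0 ≤ C) (hd : ∀ t ∈ Icc (-τ) τ, HasDerivAt g (g' t) t)
    (hb : ∀ t ∈ Icc (-τ) τ, |g' t| ≤ C * (1 + g t)) (h0 : 0 ≤ g 0) :
    ∀ t ∈ Icc (-τ) τ, 1 + g t ≤ (1 + g 0) * Real.exp (C * τ) := by
  intro t ht
  rcases le_total 0 t with h | h
  · have hsub : ∀ s ∈ Icc 0 τ, s ∈ Icc (-τ) τ := fun s hs => ⟨by linarith [hs.1, hs.2], hs.2⟩
    exact gron1 g g' τ C hC (fun s hs => hd s (hsub s hs)) (fun s hs => hb s (hsub s hs)) h0 t ⟨h, ht.2⟩
  · have hsub : ∀ s ∈ Icc 0 τ, -s ∈ Icc (-τ) τ := fun s hs => ⟨by linarith [hs.2], by linarith [hs.1, hs.2]⟩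
    have h1 := gron1 (fun s => g (-s)) (fun s => -g' (-s)) τ C hC
      (fun s hs => by
        have h2 := (hd (-s) (hsub s hs)).comp s (hasDerivAt_neg s)
        refine h2.congr_deriv ?_
        ring)
      (fun s hs => by rw [abs_neg]; exact hb (-s) (hsub s hs)) (by simpa using h0) (-t)
      ⟨by linarith, by linarith [ht.1]⟩
    simpa using h1

end GBDM

open GBDM in
theorem specGBD (hSOB : SpecSOB) (hTRG : SpecTRG) (hGEN : SpecGEN) (hEKS : SpecEKS) : SpecGBD := by
  intro τ A B hτ
  have key : ∀ k : ℕ, ∃ M : ℝ, ∀ (N : ℕ) (c c' : ℝ → Fin (2 * N + 1) → ℝ), Gal N τ c c' →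
      (∀ t ∈ Icc (-τ) τ, En 0 (tp N (c t)) + En 3 (tp N (c t)) ≤ A) → (∀ k, En k (tp N (c 0)) ≤ B k) →
      ∀ t ∈ Icc (-τ) τ, ∀ j < k, En j (tp N (c t)) ≤ M := by
    intro k
    induction k with
    | zero => exact ⟨0, fun N c c' _ _ _ t _ j hj => absurd hj (Nat.not_lt_zero j)⟩
    | succ k ih =>
      obtain ⟨M, hM⟩ := ih
      by_cases hk : k < 4
      · refine ⟨A, fun N c c' hG hA hB t ht j hj => ?_⟩
        refine le_trans ?_ (hA t ht)
        have hj3 : j < 3 ∨ j = 3 := by omega
        rcases hj3 with h | h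
        · exact (hSOB _ (hTRG.1 N (c t)) j 3 h).1
        · rw [h]
          have := en_nonneg 0 (tp N (c t))
          linarith
      · obtain ⟨C, hC⟩ := hEKS k M (by omega)
        refine ⟨max M ((1 + B k) * Real.exp (2 * |C| * τ)), fun N c c' hG hA hB t ht j hj => ?_⟩
        rcases Nat.lt_succ_iff_lt_or_eq.1 hj with h | h
        · exact le_trans (hM N c c' hG hA hB t ht j h) (le_max_left _ _)
        · rw [h]
          refine le_trans ?_ (le_max_right _ _)
          have hgr := gron (fun s => En k (tp N (c s)))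
            (fun s => 2 * ∫ x in (0)..(2 * Real.pi), iteratedDeriv k (tp N (c s)) x * iteratedDeriv k (tp N (c' s)) x)
            τ (2 * |C|) (by positivity) (fun s hs => hGEN.1 N k c (c' s) s (hG.der s hs))
            (fun s hs => by
              have h1 := hGEN.2 N k (c s) (c' s) (hG.eqn s hs)
              have h2 := hC (tp N (c s)) (hTRG.1 N (c s)) (fun i hi => hM N c c' hG hA hB s hs i hi)
              have h3 := en_nonneg k (tp N (c s))
              have h4 : C * (1 + En k (tp N (c s))) ≤ |C| * (1 + En k (tp N (c s))) :=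
                mul_le_mul_of_nonneg_right (le_abs_self C) (by linarith)
              rw [h1, abs_mul, abs_two]
              nlinarith [h2, h4])
            (en_nonneg _ _) t ht
          have h5 : (1 + En k (tp N (c 0))) * Real.exp (2 * |C| * τ) ≤ (1 + B k) * Real.exp (2 * |C| * τ) :=
            mul_le_mul_of_nonneg_right (by linarith [hB k]) (Real.exp_pos _).le
          have h6 : 1 + En k (tp N (c t)) ≤ (1 + En k (tp N (c 0))) * Real.exp (2 * |C| * τ) := hgr
          linarith
  choose M hM using key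
  exact ⟨fun k => M (k + 1), fun N c c' hG hA hB t ht k => hM (k + 1) N c c' hG hA hB t ht k (Nat.lt_succ_self k)⟩

end

end Pool.Agent.Lib.MPb879c5.WP
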