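import Pool.Agent.Lib.MP_b879c5_an.WP.SpecG

/-!
# MP_b879c5_an, module GEN: the energy identities for trigonometric polynomials
-/

set_option autoImplicit false

namespace Pool.Agent.Lib.MPb879c5.WP

open Set Filter MeasureTheory Topology
open Pool.Agent.Lib.MP_b879c5_an
open scoped ContDiff

namespace GENM

theorem sm_iter {f : ℝ → ℝ} (h : ContDiff ℝ ∞ f) (k : ℕ) : ContDiff ℝ ∞ (iteratedDeriv k f) := by
  rw [iteratedDeriv_eq_iterate]
  exact h.iterate_deriv k

theorem per_iter {f : ℝ → ℝ} (h : ∀ x, f (x + 2 * Real.pi) = f x) (k : ℕ) (x : ℝ) :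
    iteratedDeriv k f (x + 2 * Real.pi) = iteratedDeriv k f x := by
  have h1 : (fun z => f (z + 2 * Real.pi)) = f := funext h
  have h2 := congrFun (iteratedDeriv_comp_add_const k f (2 * Real.pi)) x
  rw [h1] at h2
  exact h2.symm

theorem SP_iter {f : ℝ → ℝ} (h : SP f) (k : ℕ) : SP (iteratedDeriv k f) :=
  ⟨sm_iter h.sm k, per_iter h.per k⟩

theorem der_iter {f : ℝ → ℝ} (h : ContDiff ℝ ∞ f) (k : ℕ) (x : ℝ) :
    HasDerivAt (iteratedDeriv k f) (iteratedDeriv (k + 1) f x) x := by
  have h1 : DifferentiableAt ℝ (iteratedDeriv k f) x :=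
    ((sm_iter h k).differentiable (by simp)).differentiableAt
  rw [iteratedDeriv_succ]
  exact h1.hasDerivAt

theorem SP_Fo {f : ℝ → ℝ} (h : SP f) : SP (Fo f) := by
  have h1 : SP (deriv f) := by
    have := SP_iter h 1
    rwa [iteratedDeriv_one] at this
  have h3 := SP_iter h 3
  refine ⟨?_, ?_⟩
  · have : ContDiff ℝ ∞ (fun x => iteratedDeriv 3 f x + deriv f x ^ 2 + f x ^ 2) :=
      (h3.sm.add (h1.sm.pow 2)).add (h.sm.pow 2)
    exact this
  · intro x
    unfold Fo
    rw [h3.per, h1.per, h.per]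

/-- integration by parts -/
theorem parts {f g : ℝ → ℝ} (hf : SP f) (hg : SP g) (j k : ℕ) :
    ∫ x in (0)..(2 * Real.pi), iteratedDeriv j f x * iteratedDeriv (k + 1) g x
      = -∫ x in (0)..(2 * Real.pi), iteratedDeriv (j + 1) f x * iteratedDeriv k g x := by
  have h := intervalIntegral.integral_mul_deriv_eq_deriv_mul (a := 0) (b := 2 * Real.pi)
    (u := iteratedDeriv j f) (v := iteratedDeriv k g) (u' := iteratedDeriv (j + 1) f)
    (v' := iteratedDeriv (k + 1) g) (fun x _ => der_iter hf.sm j x) (fun x _ => der_iter hg.sm k x)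
    ((sm_iter hf.sm (j + 1)).continuous.intervalIntegrable _ _)
    ((sm_iter hg.sm (k + 1)).continuous.intervalIntegrable _ _)
  rw [h]
  have h1 := per_iter hf.per j 0
  have h2 := per_iter hg.per k 0
  rw [zero_add] at h1 h2
  rw [h1, h2]
  ring

theorem parts' {f g : ℝ → ℝ} (hf : SP f) (hg : SP g) (k : ℕ) : ∀ j : ℕ,
    ∫ x in (0)..(2 * Real.pi), iteratedDeriv j f x * iteratedDeriv k g x
      = (-1) ^ k * ∫ x in (0)..(2 * Real.pi), iteratedDeriv (j + k) f x * g x := by
  induction k with
  | zero =>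
      intro j
      simp [iteratedDeriv_zero]
  | succ k ih =>
      intro j
      rw [parts hf hg j k, ih (j + 1)]
      have : j + 1 + k = j + (k + 1) := by ring
      rw [this, pow_succ]
      ring

/-- the derivatives of a trigonometric polynomial -/
theorem iter_tp (hTRG : SpecTRG) (N : ℕ) (c : Fin (2 * N + 1) → ℝ) (k : ℕ) :
    iteratedDeriv k (tp N c) = fun x => ∑ j, c j * iteratedDeriv k (tb (j : ℕ)) x := by
  induction k with
  | zero =>
      funext x
      simp only [iteratedDeriv_zero]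
      rfl
  | succ k ih =>
      rw [iteratedDeriv_succ, ih]
      funext x
      have h : HasDerivAt (fun x => ∑ j : Fin (2 * N + 1), c j * iteratedDeriv k (tb (j : ℕ)) x)
          (∑ j : Fin (2 * N + 1), c j * iteratedDeriv (k + 1) (tb (j : ℕ)) x) x :=
        HasDerivAt.fun_sum fun j _ =>
          (der_iter (hTRG.2.2.2.2.1 (j : ℕ)).1 k x).const_mul (c j)
      exact h.deriv

/-- the kernel -/
noncomputable def K (k : ℕ) (i j : ℕ) : ℝ :=
  ∫ x in (0)..(2 * Real.pi), iteratedDeriv k (tb i) x * iteratedDeriv k (tb j) x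

theorem K_comm (k i j : ℕ) : K k i j = K k j i := by
  unfold K
  exact intervalIntegral.integral_congr fun x _ => by ring

theorem bil (hTRG : SpecTRG) (N : ℕ) (c v : Fin (2 * N + 1) → ℝ) (k : ℕ) :
    ∫ x in (0)..(2 * Real.pi), iteratedDeriv k (tp N c) x * iteratedDeriv k (tp N v) x
      = ∑ i : Fin (2 * N + 1), ∑ j : Fin (2 * N + 1), c i * v j * K k i j := by
  have hc : ∀ i : ℕ, Continuous (iteratedDeriv k (tb i)) := fun i =>
    (sm_iter (hTRG.2.2.2.2.1 i).1 k).continuous
  rw [iter_tp hTRG, iter_tp hTRG]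
  have h1 : ∀ x, (∑ j : Fin (2 * N + 1), c j * iteratedDeriv k (tb (j : ℕ)) x) *
      (∑ j : Fin (2 * N + 1), v j * iteratedDeriv k (tb (j : ℕ)) x)
      = ∑ i : Fin (2 * N + 1), ∑ j : Fin (2 * N + 1),
        c i * v j * (iteratedDeriv k (tb (i : ℕ)) x * iteratedDeriv k (tb (j : ℕ)) x) := by
    intro x
    rw [Finset.sum_mul_sum]
    exact Finset.sum_congr rfl fun i _ => Finset.sum_congr rfl fun j _ => by ring
  have h2 : ∫ x in (0)..(2 * Real.pi), (∑ j : Fin (2 * N + 1), c j * iteratedDeriv k (tb (j : ℕ)) x) *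
      (∑ j : Fin (2 * N + 1), v j * iteratedDeriv k (tb (j : ℕ)) x)
      = ∫ x in (0)..(2 * Real.pi), ∑ i : Fin (2 * N + 1), ∑ j : Fin (2 * N + 1),
        c i * v j * (iteratedDeriv k (tb (i : ℕ)) x * iteratedDeriv k (tb (j : ℕ)) x) :=
    intervalIntegral.integral_congr fun x _ => h1 x
  rw [h2, intervalIntegral.integral_finset_sum]
  · refine Finset.sum_congr rfl fun i _ => ?_
    rw [intervalIntegral.integral_finset_sum]
    · refine Finset.sum_congr rfl fun j _ => ?_
      rw [intervalIntegral.integral_const_mul]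
      rfl
    · intro j _
      exact (((hc i).mul (hc j)).const_mul _).intervalIntegrable _ _
  · intro i _
    refine Continuous.intervalIntegrable ?_ _ _
    exact continuous_finset_sum _ fun j _ => ((hc i).mul (hc j)).const_mul _

end GENM

open GENM

theorem specGEN (hTRG : SpecTRG) : SpecGEN := by
  refine ⟨?_, ?_⟩
  · intro N k c v t h
    have hE : (fun s => En k (tp N (c s)))
        = fun s => ∑ i : Fin (2 * N + 1), ∑ j : Fin (2 * N + 1), c s i * c s j * K k i j := by
      funext s
      rw [← bil hTRG]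
      unfold En
      exact intervalIntegral.integral_congr fun x _ => by simp only [pow_two]
    have hd : ∀ i : Fin (2 * N + 1), HasDerivAt (fun s => c s i) (v i) t := fun i =>
      hasDerivAt_pi.1 h i
    rw [hE, bil hTRG]
    have h1 : HasDerivAt (fun s => ∑ i : Fin (2 * N + 1), ∑ j : Fin (2 * N + 1),
        c s i * c s j * K k i j)
        (∑ i : Fin (2 * N + 1), ∑ j : Fin (2 * N + 1), (v i * c t j + c t i * v j) * K k i j) t :=
      HasDerivAt.fun_sum fun i _ => HasDerivAt.fun_sum fun j _ =>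
        ((hd i).mul (hd j)).mul_const _
    have h2 : ∑ i : Fin (2 * N + 1), ∑ j : Fin (2 * N + 1), (v i * c t j + c t i * v j) * K k i j
        = 2 * ∑ i : Fin (2 * N + 1), ∑ j : Fin (2 * N + 1), c t i * v j * K k i j := by
      have h3 : ∑ i : Fin (2 * N + 1), ∑ j : Fin (2 * N + 1), v i * c t j * K k i j
          = ∑ i : Fin (2 * N + 1), ∑ j : Fin (2 * N + 1), c t i * v j * K k i j := by
        rw [Finset.sum_comm]
        exact Finset.sum_congr rfl fun i _ => Finset.sum_congr rfl fun j _ => by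
          rw [K_comm k (j : ℕ) (i : ℕ)]; ring
      calc ∑ i : Fin (2 * N + 1), ∑ j : Fin (2 * N + 1), (v i * c t j + c t i * v j) * K k i j
          = ∑ i : Fin (2 * N + 1), ∑ j : Fin (2 * N + 1),
            (v i * c t j * K k i j + c t i * v j * K k i j) :=
            Finset.sum_congr rfl fun i _ => Finset.sum_congr rfl fun j _ => by ring
        _ = ∑ i : Fin (2 * N + 1), ∑ j : Fin (2 * N + 1), v i * c t j * K k i j +
            ∑ i : Fin (2 * N + 1), ∑ j : Fin (2 * N + 1), c t i * v j * K k i j := by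
            simp only [Finset.sum_add_distrib]
        _ = 2 * ∑ i : Fin (2 * N + 1), ∑ j : Fin (2 * N + 1), c t i * v j * K k i j := by
            rw [h3]; ring
    rw [← h2]
    exact h1
  · intro N k a w hG
    have hSa : SP (tp N a) := hTRG.1 N a
    have hSw : SP (tp N w) := hTRG.1 N w
    rw [parts' hSa hSw k k, parts' hSa (SP_Fo hSa) k k]
    obtain ⟨φ, hφ⟩ := hTRG.2.1 N a (k + k)
    rw [hφ]
    have := hG φ
    have h1 : ∫ x in (0)..(2 * Real.pi), tp N φ x * tp N w x
        = ∫ x in (0)..(2 * Real.pi), tp N w x * tp N φ x :=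
      intervalIntegral.integral_congr fun x _ => mul_comm _ _
    have h2 : ∫ x in (0)..(2 * Real.pi), tp N φ x * Fo (tp N a) x
        = ∫ x in (0)..(2 * Real.pi), Fo (tp N a) x * tp N φ x :=
      intervalIntegral.integral_congr fun x _ => mul_comm _ _
    rw [h1, h2, this]

end Pool.Agent.Lib.MPb879c5.WP
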