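import Pool.Agent.Lib.MP_b879c5_an.WP.SpecG
import Pool.Agent.Lib.MP_fabde4_an.N.Tint

/-!
# MP_b879c5_an, WP: module GEX (Galerkin solutions)
-/

set_option autoImplicit false

namespace Pool.Agent.Lib.MPb879c5.WP

open Set Filter MeasureTheory Topology
open Pool.Agent.Lib.MP_b879c5_an
open scoped ContDiff

noncomputable section

namespace GEXM

/-- the `k`-th derivative of a basis function -/
def D (k j : ℕ) (x : ℝ) : ℝ := iteratedDeriv k (tb j) x

section

variable (htb : ∀ j : ℕ, ContDiff ℝ ∞ (tb j))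

include htb

theorem D_cont (k j : ℕ) : Continuous (D k j) := by
  have h1 : ContDiff ℝ k (tb j) := contDiff_infty.1 (htb j) k
  exact h1.continuous_iteratedDeriv' k

theorem it_tp (N k : ℕ) (c : Fin (2 * N + 1) → ℝ) (x : ℝ) :
    iteratedDeriv k (tp N c) x = ∑ j, c j * D k j x := by
  have h1 : tp N c = fun x => ∑ j ∈ (Finset.univ : Finset (Fin (2 * N + 1))), c j * tb j x := by
    funext x
    rfl
  rw [h1, iteratedDeriv_fun_sum]
  · apply Finset.sum_congr rfl
    intro j _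
    rw [iteratedDeriv_const_mul_field]
    rfl
  · intro j _
    exact (contDiff_const.mul (contDiff_infty.1 (htb j) k)).contDiffAt

theorem it_smul (N k : ℕ) (r : ℝ) (c : Fin (2 * N + 1) → ℝ) (x : ℝ) :
    iteratedDeriv k (tp N (r • c)) x = r * iteratedDeriv k (tp N c) x := by
  rw [it_tp htb, it_tp htb, Finset.mul_sum]
  apply Finset.sum_congr rfl
  intro j _
  rw [Pi.smul_apply, smul_eq_mul]
  ring

theorem Fo_tp (N : ℕ) (a : Fin (2 * N + 1) → ℝ) (x : ℝ) :
    Fo (tp N a) x = (∑ j, a j * D 3 j x) + (∑ j, a j * D 1 j x) ^ 2 + (∑ j, a j * D 0 j x) ^ 2 := by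
  unfold Fo
  rw [it_tp htb]
  have h1 : deriv (tp N a) x = iteratedDeriv 1 (tp N a) x := by rw [iteratedDeriv_one]
  have h0 : tp N a x = iteratedDeriv 0 (tp N a) x := by rw [iteratedDeriv_zero]
  rw [h1, it_tp htb, h0, it_tp htb]

theorem Fo_cont (N : ℕ) (a : Fin (2 * N + 1) → ℝ) : Continuous (Fo (tp N a)) := by
  have h1 : Fo (tp N a) = fun x =>
      (∑ j, a j * D 3 j x) + (∑ j, a j * D 1 j x) ^ 2 + (∑ j, a j * D 0 j x) ^ 2 := by
    funext x
    exact Fo_tp htb N a x
  rw [h1]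
  have h2 : ∀ k : ℕ, Continuous fun x => ∑ j : Fin (2 * N + 1), a j * D k j x := fun k =>
    continuous_finset_sum _ (fun j _ => continuous_const.mul (D_cont htb k j))
  exact ((h2 3).add ((h2 1).pow 2)).add ((h2 0).pow 2)

end

theorem lin {n : ℕ} (F : Fin n → ℝ → ℝ) (g : ℝ → ℝ) (hF : ∀ i, Continuous (F i)) (hg : Continuous g)
    (a : Fin n → ℝ) : ∫ x in (0)..(2 * Real.pi), (∑ i, a i * F i x) * g x =
      ∑ i, a i * ∫ x in (0)..(2 * Real.pi), F i x * g x := by
  have h1 : ∀ x, (∑ i, a i * F i x) * g x = ∑ i, a i * (F i x * g x) := by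
    intro x
    rw [Finset.sum_mul]
    exact Finset.sum_congr rfl (fun i _ => by ring)
  simp only [h1]
  rw [intervalIntegral.integral_finset_sum]
  · apply Finset.sum_congr rfl
    intro i _
    rw [intervalIntegral.integral_const_mul]
  · intro i _
    exact (continuous_const.mul ((hF i).mul hg)).intervalIntegrable _ _

theorem quad {n : ℕ} (F : Fin n → ℝ → ℝ) (g : ℝ → ℝ) (hF : ∀ i, Continuous (F i)) (hg : Continuous g)
    (a : Fin n → ℝ) : ∫ x in (0)..(2 * Real.pi), (∑ i, a i * F i x) ^ 2 * g x =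
      ∑ i, ∑ l, a i * (a l * ∫ x in (0)..(2 * Real.pi), F l x * (F i x * g x)) := by
  have hs : Continuous fun x => ∑ i, a i * F i x :=
    continuous_finset_sum _ (fun j _ => continuous_const.mul (hF j))
  have h1 : ∀ x, (∑ i, a i * F i x) ^ 2 * g x = (∑ i, a i * F i x) * ((∑ i, a i * F i x) * g x) := by
    intro x
    ring
  simp only [h1]
  refine (lin F (fun x => (∑ i, a i * F i x) * g x) hF (hs.mul hg) a).trans ?_
  apply Finset.sum_congr rfl
  intro i _
  have h2 : ∀ x, F i x * ((∑ i, a i * F i x) * g x) = (∑ i, a i * F i x) * (F i x * g x) := by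
    intro x
    ring
  simp only [h2]
  rw [lin F (fun x => F i x * g x) hF ((hF i).mul hg) a, Finset.mul_sum]

theorem quad_cd {n : ℕ} (F : Fin n → ℝ → ℝ) (g : ℝ → ℝ) (hF : ∀ i, Continuous (F i)) (hg : Continuous g) :
    ContDiff ℝ 1 (fun a : Fin n → ℝ => ∫ x in (0)..(2 * Real.pi), (∑ i, a i * F i x) ^ 2 * g x) := by
  simp only [quad F g hF hg]
  apply ContDiff.sum
  intro i _
  apply ContDiff.sum
  intro l _
  exact (contDiff_apply ℝ ℝ i).mul ((contDiff_apply ℝ ℝ l).mul contDiff_const)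

theorem lin_cd {n : ℕ} (F : Fin n → ℝ → ℝ) (g : ℝ → ℝ) (hF : ∀ i, Continuous (F i)) (hg : Continuous g) :
    ContDiff ℝ 1 (fun a : Fin n → ℝ => ∫ x in (0)..(2 * Real.pi), (∑ i, a i * F i x) * g x) := by
  simp only [lin F g hF hg]
  apply ContDiff.sum
  intro i _
  exact (contDiff_apply ℝ ℝ i).mul contDiff_const

/-- `∫ tb_j²` -/
def nj (j : ℕ) : ℝ := if j = 0 then 2 * Real.pi else Real.pi

theorem nj_pos (j : ℕ) : 0 < nj j := by
  unfold nj
  split_ifs
  · exact Real.two_pi_pos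
  · exact Real.pi_pos

/-- the Galerkin vector field -/
def w (N : ℕ) (a : Fin (2 * N + 1) → ℝ) (j : Fin (2 * N + 1)) : ℝ :=
  (∫ x in (0)..(2 * Real.pi), Fo (tp N a) x * tb j x) / nj j

theorem w_eq (htb : ∀ j : ℕ, ContDiff ℝ ∞ (tb j))
    (ho : ∀ i j : ℕ, (∫ x in (0)..(2 * Real.pi), tb i x * tb j x) =
      if i = j then (if i = 0 then 2 * Real.pi else Real.pi) else 0)
    (N : ℕ) (a : Fin (2 * N + 1) → ℝ) : GalEq N a (w N a) := by
  have hc : ∀ j : ℕ, Continuous (tb j) := fun j => (htb j).continuous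
  have hl : ∀ (f : ℝ → ℝ), Continuous f → ∀ φ : Fin (2 * N + 1) → ℝ,
      (∫ x in (0)..(2 * Real.pi), f x * tp N φ x) = ∑ j : Fin (2 * N + 1), φ j * ∫ x in (0)..(2 * Real.pi), f x * tb j x := by
    intro f hf φ
    have h1 : ∀ x, f x * tp N φ x = (∑ j : Fin (2 * N + 1), φ j * tb j x) * f x := by
      intro x
      rw [mul_comm]
      rfl
    simp only [h1]
    rw [lin (fun j : Fin (2 * N + 1) => tb j) f (fun j => hc j) hf φ]
    apply Finset.sum_congr rfl
    intro j _
    simp only [mul_comm]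
  have htp : ∀ c : Fin (2 * N + 1) → ℝ, Continuous (tp N c) := fun c =>
    continuous_finset_sum _ (fun j _ => continuous_const.mul (hc j))
  intro φ
  rw [hl _ (htp _) φ, hl _ (Fo_cont htb N a) φ]
  apply Finset.sum_congr rfl
  intro j _
  congr 1
  have h1 : (∫ x in (0)..(2 * Real.pi), tp N (w N a) x * tb j x) =
      ∑ i : Fin (2 * N + 1), w N a i * ∫ x in (0)..(2 * Real.pi), tb i x * tb j x :=
    lin (fun i : Fin (2 * N + 1) => tb i) (tb j) (fun i => hc i) (hc j) (w N a)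
  rw [h1, Finset.sum_eq_single j]
  · rw [ho, if_pos rfl]
    show (∫ x in (0)..(2 * Real.pi), Fo (tp N a) x * tb j x) / nj j * nj j = _
    rw [div_mul_cancel₀ _ (nj_pos j).ne']
  · intro i _ hij
    rw [ho, if_neg, mul_zero]
    intro h
    exact hij (Fin.ext h)
  · intro h
    exact absurd (Finset.mem_univ j) h

theorem w_cd (htb : ∀ j : ℕ, ContDiff ℝ ∞ (tb j)) (N : ℕ) : ContDiff ℝ 1 (w N) := by
  rw [contDiff_pi]
  intro j
  have hD : ∀ k i : ℕ, Continuous (D k i) := D_cont htb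
  have hj : Continuous (tb j) := (htb j).continuous
  have hs : ∀ (k : ℕ) (a : Fin (2 * N + 1) → ℝ), Continuous fun x => ∑ i : Fin (2 * N + 1), a i * D k i x := fun k a =>
    continuous_finset_sum _ (fun j _ => continuous_const.mul (hD k j))
  have h1 : (fun a : Fin (2 * N + 1) → ℝ => w N a j) = fun a =>
      ((∫ x in (0)..(2 * Real.pi), (∑ i : Fin (2 * N + 1), a i * D 3 i x) * tb j x) +
        (∫ x in (0)..(2 * Real.pi), (∑ i : Fin (2 * N + 1), a i * D 1 i x) ^ 2 * tb j x) +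
        ∫ x in (0)..(2 * Real.pi), (∑ i : Fin (2 * N + 1), a i * D 0 i x) ^ 2 * tb j x) / nj j := by
    funext a
    unfold w
    congr 1
    rw [← intervalIntegral.integral_add, ← intervalIntegral.integral_add]
    · apply intervalIntegral.integral_congr
      intro x _
      simp only
      rw [Fo_tp htb]
      ring
    · exact (((hs 3 a).mul hj).add (((hs 1 a).pow 2).mul hj)).intervalIntegrable _ _
    · exact (((hs 0 a).pow 2).mul hj).intervalIntegrable _ _
    · exact ((hs 3 a).mul hj).intervalIntegrable _ _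
    · exact (((hs 1 a).pow 2).mul hj).intervalIntegrable _ _
  rw [h1]
  apply ContDiff.div_const
  exact ((lin_cd (fun i : Fin (2 * N + 1) => D 3 i) (tb j) (fun i => hD 3 i) hj).add
    (quad_cd (fun i : Fin (2 * N + 1) => D 1 i) (tb j) (fun i => hD 1 i) hj)).add
    (quad_cd (fun i : Fin (2 * N + 1) => D 0 i) (tb j) (fun i => hD 0 i) hj)

/-- the energy -/
def EE (N : ℕ) (a : Fin (2 * N + 1) → ℝ) : ℝ := En 0 (tp N a) + En 3 (tp N a)

theorem En_nonneg (k : ℕ) (f : ℝ → ℝ) : 0 ≤ En k f := by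
  unfold En
  apply intervalIntegral.integral_nonneg Real.two_pi_pos.le
  intro x _
  positivity

theorem EE_cd (htb : ∀ j : ℕ, ContDiff ℝ ∞ (tb j)) (N : ℕ) : ContDiff ℝ 1 (EE N) := by
  have h1 : ∀ k : ℕ, ContDiff ℝ 1 (fun a : Fin (2 * N + 1) → ℝ => En k (tp N a)) := by
    intro k
    have h2 : (fun a : Fin (2 * N + 1) → ℝ => En k (tp N a)) = fun a =>
        ∫ x in (0)..(2 * Real.pi), (∑ i : Fin (2 * N + 1), a i * D k i x) ^ 2 * 1 := by
      funext a
      unfold En
      apply intervalIntegral.integral_congr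
      intro x _
      simp only
      rw [it_tp htb, mul_one]
    rw [h2]
    exact quad_cd (fun i : Fin (2 * N + 1) => D k i) (fun _ => 1) (fun i => D_cont htb k i) continuous_const
  exact (h1 0).add (h1 3)

end GEXM

open GEXM in
theorem specGEX (hTRG : SpecTRG) (hGEN : SpecGEN) (hETS : SpecETS) : SpecGEX := by
  obtain ⟨hSP, -, ho, hlow, htb', -⟩ := hTRG
  have htb : ∀ j : ℕ, ContDiff ℝ ∞ (tb j) := fun j => (htb' j).1
  obtain ⟨hG1, hG2⟩ := hGEN
  obtain ⟨C₁, hC₁, hE⟩ := hETS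
  refine ⟨4 * C₁, by positivity, ?_⟩
  intro N c₀ R hR hc₀ τ hτ hτR
  -- the vector field
  set X : (Fin (2 * N + 1) → ℝ) → (Fin (2 * N + 1) → ℝ) := fun a =>
    Real.smoothTransition (2 * R + 3 - EE N a) • w N a with hX
  have hXcd : ContDiff ℝ 1 X := by
    have h1 : ContDiff ℝ 1 (fun a => Real.smoothTransition (2 * R + 3 - EE N a)) :=
      (Real.smoothTransition.contDiff (n := 1)).comp (contDiff_const.sub (EE_cd htb N))
    exact h1.smul (w_cd htb N)
  obtain ⟨C, hC⟩ : ∃ C : ℝ, ∀ v, ‖X v‖ ≤ C * (1 + ‖v‖) := by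
    obtain ⟨C, hC⟩ := (isCompact_closedBall (0 : Fin (2 * N + 1) → ℝ) (2 * R + 4)).exists_bound_of_continuousOn
      hXcd.continuous.continuousOn
    refine ⟨|C|, ?_⟩
    intro v
    by_cases hv : ‖v‖ ≤ 2 * R + 4
    · have h1 := hC v (by rw [mem_closedBall_zero_iff]; exact hv)
      have h2 : |C| ≤ |C| * (1 + ‖v‖) := by nlinarith [abs_nonneg C, norm_nonneg v]
      exact (h1.trans (le_abs_self C)).trans h2
    · have h1 := hlow N v
      have h2 : 2 * R + 3 ≤ EE N v := by
        have h3 := En_nonneg 3 (tp N v)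
        unfold EE
        push_neg at hv
        have h4 := Real.pi_gt_three
        nlinarith
      have h3 : X v = 0 := by
        show Real.smoothTransition (2 * R + 3 - EE N v) • w N v = 0
        rw [Real.smoothTransition.zero_of_nonpos (by linarith), zero_smul]
      rw [h3, norm_zero]
      have := norm_nonneg v
      positivity
  obtain ⟨γ, hγ0, hγ⟩ := MPfab.Glob.global_sol X C hXcd hC c₀
  -- the energy along the solution
  set y : ℝ → ℝ := fun t => EE N (γ t) with hy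
  have hy0 : ∀ t, 0 ≤ y t := fun t => add_nonneg (En_nonneg _ _) (En_nonneg _ _)
  have hder : ∀ t, ∃ d : ℝ, HasDerivAt y d t ∧ |d| ≤ 2 * C₁ * (1 + y t) ^ 2 := by
    intro t
    set θ := Real.smoothTransition (2 * R + 3 - EE N (γ t)) with hθ
    have hθ0 : 0 ≤ θ := Real.smoothTransition.nonneg _
    have hθ1 : θ ≤ 1 := Real.smoothTransition.le_one _
    have hG := w_eq htb ho N (γ t)
    have d0 := hG1 N 0 γ (X (γ t)) t (hγ t)
    have d3 := hG1 N 3 γ (X (γ t)) t (hγ t)
    have e : ∀ k : ℕ, (∫ x in (0)..(2 * Real.pi), iteratedDeriv k (tp N (γ t)) x * iteratedDeriv k (tp N (X (γ t))) x)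
        = θ * ∫ x in (0)..(2 * Real.pi), iteratedDeriv k (tp N (γ t)) x * iteratedDeriv k (Fo (tp N (γ t))) x := by
      intro k
      rw [← hG2 N k (γ t) (w N (γ t)) hG, ← intervalIntegral.integral_const_mul]
      apply intervalIntegral.integral_congr
      intro x _
      simp only
      have h1 : X (γ t) = θ • w N (γ t) := rfl
      rw [h1, it_smul htb]
      ring
    rw [e 0] at d0
    rw [e 3] at d3
    refine ⟨_, d0.add d3, ?_⟩
    have h1 := hE (tp N (γ t)) (hSP N (γ t))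
    simp only [iteratedDeriv_zero] at *
    set I0 := ∫ x in (0)..(2 * Real.pi), tp N (γ t) x * Fo (tp N (γ t)) x with hI0
    set I3 := ∫ x in (0)..(2 * Real.pi), iteratedDeriv 3 (tp N (γ t)) x * iteratedDeriv 3 (Fo (tp N (γ t))) x with hI3
    have h2 : |2 * (θ * I0) + 2 * (θ * I3)| ≤ 2 * (|I0| + |I3|) := by
      have h3 : |θ * I0| ≤ |I0| := by
        rw [abs_mul, abs_of_nonneg hθ0]
        nlinarith [abs_nonneg I0]
      have h4 : |θ * I3| ≤ |I3| := by
        rw [abs_mul, abs_of_nonneg hθ0]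
        nlinarith [abs_nonneg I3]
      have h5 := abs_add_le (2 * (θ * I0)) (2 * (θ * I3))
      have h6 : |2 * (θ * I0)| = 2 * |θ * I0| := by rw [abs_mul, abs_of_pos (by norm_num : (0 : ℝ) < 2)]
      have h7 : |2 * (θ * I3)| = 2 * |θ * I3| := by rw [abs_mul, abs_of_pos (by norm_num : (0 : ℝ) < 2)]
      linarith
    have h8 : y t = En 0 (tp N (γ t)) + En 3 (tp N (γ t)) := rfl
    rw [h8]
    linarith
  choose d hd hdb using hder
  have hz : ∀ t, HasDerivAt (fun t => (1 + y t)⁻¹) (-(d t) / (1 + y t) ^ 2) t := by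
    intro t
    have h1 : HasDerivAt (fun t => 1 + y t) (d t) t := (hd t).const_add 1
    have h2 : 1 + y t ≠ 0 := by
      have := hy0 t
      positivity
    exact h1.inv h2
  have hzb : ∀ t, ‖-(d t) / (1 + y t) ^ 2‖ ≤ 2 * C₁ := by
    intro t
    have h1 : 0 < (1 + y t) ^ 2 := by
      have := hy0 t
      positivity
    rw [norm_div, norm_neg, Real.norm_eq_abs, Real.norm_eq_abs, abs_of_pos h1, div_le_iff₀ h1]
    exact hdb t
  have hmv : ∀ t, ‖(1 + y t)⁻¹ - (1 + y 0)⁻¹‖ ≤ 2 * C₁ * ‖t - 0‖ := fun t =>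
    Convex.norm_image_sub_le_of_norm_hasDerivWithin_le (s := univ)
      (f := fun t => (1 + y t)⁻¹) (f' := fun t => -(d t) / (1 + y t) ^ 2)
      (fun x _ => (hz x).hasDerivWithinAt) (fun x _ => hzb x) convex_univ (mem_univ _) (mem_univ _)
  have hfin : ∀ t ∈ Icc (-τ) τ, y t ≤ 2 * R + 1 := by
    intro t ht
    have h1 := hmv t
    rw [sub_zero, Real.norm_eq_abs, Real.norm_eq_abs] at h1
    have h2 : |t| ≤ τ := abs_le.2 ht
    have h3 : y 0 ≤ R := by
      show EE N (γ 0) ≤ R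
      rw [hγ0]
      exact hc₀
    have h4 : (1 + R)⁻¹ ≤ (1 + y 0)⁻¹ := by
      apply inv_anti₀ (by have := hy0 0; positivity)
      linarith
    have h5 := (abs_le.1 h1).1
    have h6 : 2 * C₁ * |t| ≤ 2 * C₁ * τ := mul_le_mul_of_nonneg_left h2 (by positivity)
    have h7 : 2 * C₁ * τ ≤ (1 + R)⁻¹ / 2 := by
      rw [le_div_iff₀ (by norm_num), ← one_div, le_div_iff₀ (by positivity)]
      linarith
    have h8 : (1 + R)⁻¹ / 2 ≤ (1 + y t)⁻¹ := by linarith
    have h9 : (2 * (1 + R))⁻¹ ≤ (1 + y t)⁻¹ := by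
      rw [mul_inv]
      linarith
    have h10 : 0 < 1 + y t := by
      have := hy0 t
      positivity
    have h11 := (inv_le_inv₀ (by positivity) h10).1 h9
    linarith
  refine ⟨γ, fun t => w N (γ t), hγ0, ⟨?_, ?_⟩, hfin⟩
  · intro t ht
    have h1 := hγ t
    have h2 : X (γ t) = w N (γ t) := by
      show Real.smoothTransition (2 * R + 3 - EE N (γ t)) • w N (γ t) = w N (γ t)
      have h3 : EE N (γ t) ≤ 2 * R + 1 := hfin t ht
      rw [Real.smoothTransition.one_of_one_le (by linarith), one_smul]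
    rw [h2] at h1
    exact h1
  · intro t _
    exact w_eq htb ho N (γ t)

end

end Pool.Agent.Lib.MPb879c5.WP
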