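import Pool.Agent.Lib.MP_b879c5_an.WP.SpecG

/-!
# MP_b879c5_an: module GLU (joint smoothness)
-/

set_option autoImplicit false

namespace Pool.Agent.Lib.MPb879c5.WP

open Set Filter MeasureTheory Topology
open Pool.Agent.Lib.MP_b879c5_an
open scoped ContDiff

namespace GLUM

/-- the functions `∂_x^k u` -/
noncomputable def g (u : ℝ → ℝ → ℝ) (k : ℕ) : ℝ × ℝ → ℝ := fun p => iteratedDeriv k (u p.1) p.2

/-- the algebra of all polynomials in the functions `∂_x^k u` -/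
noncomputable def Al (u : ℝ → ℝ → ℝ) : Subalgebra ℝ (ℝ × ℝ → ℝ) := Algebra.adjoin ℝ (range (g u))

lemma g_mem (u : ℝ → ℝ → ℝ) (k : ℕ) : g u k ∈ Al u := Algebra.subset_adjoin ⟨k, rfl⟩

lemma cont {τ : ℝ} {u : ℝ → ℝ → ℝ}
    (hc : ∀ k : ℕ, ContinuousOn (fun p : ℝ × ℝ => iteratedDeriv k (u p.1) p.2)
      (Icc (-τ) τ ×ˢ univ)) {F : ℝ × ℝ → ℝ} (hF : F ∈ Al u) :
    ContinuousOn F (Icc (-τ) τ ×ˢ univ) := by
  unfold Al at hF
  induction hF using Algebra.adjoin_induction with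
  | mem F h =>
    obtain ⟨k, rfl⟩ := h
    exact hc k
  | algebraMap r => exact continuousOn_const
  | add F G _ _ h1 h2 => exact h1.add h2
  | mul F G _ _ h1 h2 => exact h1.mul h2

lemma gder {τ : ℝ} {u : ℝ → ℝ → ℝ} (hs : ∀ t ∈ Icc (-τ) τ, SP (u t)) (k : ℕ) {t : ℝ}
    (ht : t ∈ Icc (-τ) τ) (x : ℝ) :
    HasDerivAt (fun y => g u k (t, y)) (g u (k + 1) (t, x)) x := by
  have h1 : Differentiable ℝ (iteratedDeriv k (u t)) :=
    (hs t ht).sm.differentiable_iteratedDeriv k (by exact_mod_cast ENat.natCast_lt_top k)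
  have h2 := (h1 x).hasDerivAt
  show HasDerivAt (iteratedDeriv k (u t)) (iteratedDeriv (k + 1) (u t) x) x
  rw [iteratedDeriv_succ]
  exact h2

lemma dx {τ : ℝ} {u : ℝ → ℝ → ℝ} (hs : ∀ t ∈ Icc (-τ) τ, SP (u t)) {F : ℝ × ℝ → ℝ}
    (hF : F ∈ Al u) :
    ∃ F' ∈ Al u, ∀ t ∈ Icc (-τ) τ, ∀ x, HasDerivAt (fun y => F (t, y)) (F' (t, x)) x := by
  unfold Al at hF
  induction hF using Algebra.adjoin_induction with
  | mem F h =>
    obtain ⟨k, rfl⟩ := h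
    exact ⟨g u (k + 1), g_mem u (k + 1), fun t ht x => gder hs k ht x⟩
  | algebraMap r =>
    exact ⟨0, zero_mem _, fun t ht x => hasDerivAt_const x r⟩
  | add F G _ _ h1 h2 =>
    obtain ⟨F', a1, b1⟩ := h1
    obtain ⟨G', a2, b2⟩ := h2
    exact ⟨F' + G', add_mem a1 a2, fun t ht x => (b1 t ht x).add (b2 t ht x)⟩
  | mul F G hF hG h1 h2 =>
    obtain ⟨F', a1, b1⟩ := h1
    obtain ⟨G', a2, b2⟩ := h2
    exact ⟨F' * G + F * G', add_mem (mul_mem a1 hG) (mul_mem hF a2),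
      fun t ht x => (b1 t ht x).mul (b2 t ht x)⟩

lemma dt {τ : ℝ} {u : ℝ → ℝ → ℝ}
    (hg : ∀ k, ∃ F' ∈ Al u, ∀ t ∈ Ioo (-τ) τ, ∀ x, HasDerivAt (fun s => g u k (s, x)) (F' (t, x)) t)
    {F : ℝ × ℝ → ℝ} (hF : F ∈ Al u) :
    ∃ F' ∈ Al u, ∀ t ∈ Ioo (-τ) τ, ∀ x, HasDerivAt (fun s => F (s, x)) (F' (t, x)) t := by
  unfold Al at hF
  induction hF using Algebra.adjoin_induction with
  | mem F h =>
    obtain ⟨k, rfl⟩ := h
    exact hg k
  | algebraMap r =>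
    exact ⟨0, zero_mem _, fun t ht x => hasDerivAt_const t r⟩
  | add F G _ _ h1 h2 =>
    obtain ⟨F', a1, b1⟩ := h1
    obtain ⟨G', a2, b2⟩ := h2
    exact ⟨F' + G', add_mem a1 a2, fun t ht x => (b1 t ht x).add (b2 t ht x)⟩
  | mul F G hF hG h1 h2 =>
    obtain ⟨F', a1, b1⟩ := h1
    obtain ⟨G', a2, b2⟩ := h2
    exact ⟨F' * G + F * G', add_mem (mul_mem a1 hG) (mul_mem hF a2),
      fun t ht x => (b1 t ht x).mul (b2 t ht x)⟩

lemma seqG {τ : ℝ} {u : ℝ → ℝ → ℝ} (hs : ∀ t ∈ Icc (-τ) τ, SP (u t)) {F₀ : ℝ × ℝ → ℝ}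
    (hF : F₀ ∈ Al u) :
    ∃ G : ℕ → (ℝ × ℝ → ℝ), G 0 = F₀ ∧ (∀ k, G k ∈ Al u) ∧
      ∀ k, ∀ t ∈ Icc (-τ) τ, ∀ x, HasDerivAt (fun y => G k (t, y)) (G (k + 1) (t, x)) x := by
  have h : ∀ F : Al u, ∃ F' : Al u, ∀ t ∈ Icc (-τ) τ, ∀ x,
      HasDerivAt (fun y => F.1 (t, y)) (F'.1 (t, x)) x := by
    rintro ⟨F, hF⟩
    obtain ⟨F', h1, h2⟩ := dx hs hF
    exact ⟨⟨F', h1⟩, h2⟩
  choose D hD using h
  refine ⟨fun k => ((D^[k] ⟨F₀, hF⟩ : Al u) : ℝ × ℝ → ℝ), rfl, fun k => (D^[k] ⟨F₀, hF⟩).2,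
    fun k t ht x => ?_⟩
  have h1 := hD (D^[k] ⟨F₀, hF⟩) t ht x
  show HasDerivAt (fun y => ((D^[k] ⟨F₀, hF⟩ : Al u) : ℝ × ℝ → ℝ) (t, y))
    (((D^[k + 1] ⟨F₀, hF⟩ : Al u) : ℝ × ℝ → ℝ) (t, x)) x
  rw [Function.iterate_succ_apply']
  exact h1

lemma slice {τ : ℝ} {F : ℝ × ℝ → ℝ} (hF : ContinuousOn F (Icc (-τ) τ ×ˢ univ)) (x : ℝ) :
    ContinuousOn (fun r => F (r, x)) (Icc (-τ) τ) :=
  hF.comp (continuousOn_id.prodMk continuousOn_const) (fun _ hr => ⟨hr, mem_univ _⟩)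

lemma ident {τ : ℝ} {u : ℝ → ℝ → ℝ} (hs : ∀ t ∈ Icc (-τ) τ, SP (u t))
    (hc : ∀ k : ℕ, ContinuousOn (fun p : ℝ × ℝ => iteratedDeriv k (u p.1) p.2)
      (Icc (-τ) τ ×ˢ univ))
    {G : ℕ → (ℝ × ℝ → ℝ)}
    (hG0 : ∀ s ∈ Icc (-τ) τ, ∀ t ∈ Icc (-τ) τ, ∀ x, g u 0 (t, x) - g u 0 (s, x) = ∫ r in s..t, G 0 (r, x))
    (hGA : ∀ k, G k ∈ Al u)
    (hGd : ∀ k, ∀ t ∈ Icc (-τ) τ, ∀ x, HasDerivAt (fun y => G k (t, y)) (G (k + 1) (t, x)) x) :
    ∀ k, ∀ s ∈ Icc (-τ) τ, ∀ t ∈ Icc (-τ) τ, ∀ x,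
      g u k (t, x) - g u k (s, x) = ∫ r in s..t, G k (r, x) := by
  intro k
  induction k with
  | zero => exact hG0
  | succ k ih =>
    intro s hs' t ht x
    have hcG : ContinuousOn (G (k + 1)) (Icc (-τ) τ ×ˢ univ) := cont hc (hGA (k + 1))
    have hcG0 : ContinuousOn (G k) (Icc (-τ) τ ×ˢ univ) := cont hc (hGA k)
    have huI : uIcc s t ⊆ Icc (-τ) τ := ordConnected_Icc.uIcc_subset hs' ht
    obtain ⟨C, hC⟩ := (isCompact_Icc.prod isCompact_Icc).exists_bound_of_continuousOn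
      (hcG.mono (prod_mono (Subset.refl (Icc (-τ) τ)) (subset_univ (Icc (x - 1) (x + 1)))))
    have h1 := (intervalIntegral.hasDerivAt_integral_of_dominated_loc_of_deriv_le
      (μ := volume) (a := s) (b := t) (F := fun y r => G k (r, y))
      (F' := fun y r => G (k + 1) (r, y)) (x₀ := x) (s := Icc (x - 1) (x + 1))
      (bound := fun _ => C) (Icc_mem_nhds (by linarith) (by linarith))
      (Eventually.of_forall fun y =>
        (((slice hcG0 y).mono huI).mono uIoc_subset_uIcc).aestronglyMeasurable measurableSet_uIoc)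
      (((slice hcG0 x).mono huI).intervalIntegrable)
      ((((slice hcG x).mono huI).mono uIoc_subset_uIcc).aestronglyMeasurable measurableSet_uIoc)
      (ae_of_all _ fun r hr y hy => hC (r, y) ⟨huI (uIoc_subset_uIcc hr), hy⟩)
      intervalIntegrable_const
      (ae_of_all _ fun r hr y hy => hGd k r (huI (uIoc_subset_uIcc hr)) y)).2
    have h2 : HasDerivAt (fun y => g u k (t, y) - g u k (s, y))
        (g u (k + 1) (t, x) - g u (k + 1) (s, x)) x := (gder hs k ht x).sub (gder hs k hs' x)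
    have h3 : (fun y => g u k (t, y) - g u k (s, y)) = fun y => ∫ r in s..t, G k (r, y) :=
      funext (fun y => ih s hs' t ht y)
    rw [h3] at h2
    exact h2.unique h1

lemma tder {τ : ℝ} {A F : ℝ × ℝ → ℝ} (hF : ContinuousOn F (Icc (-τ) τ ×ˢ univ))
    (h : ∀ s ∈ Icc (-τ) τ, ∀ t ∈ Icc (-τ) τ, ∀ x, A (t, x) - A (s, x) = ∫ r in s..t, F (r, x))
    {t : ℝ} (ht : t ∈ Ioo (-τ) τ) (x : ℝ) : HasDerivAt (fun s => A (s, x)) (F (t, x)) t := by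
  have hIo : ContinuousOn (fun r => F (r, x)) (Ioo (-τ) τ) := (slice hF x).mono Ioo_subset_Icc_self
  have h1 : HasDerivAt (fun s => ∫ r in t..s, F (r, x)) (F (t, x)) t :=
    intervalIntegral.integral_hasDerivAt_right (f := fun r => F (r, x)) IntervalIntegrable.refl
      (hIo.stronglyMeasurableAtFilter isOpen_Ioo t ht) (hIo.continuousAt (isOpen_Ioo.mem_nhds ht))
  have h2 : HasDerivAt (fun s => A (t, x) + ∫ r in t..s, F (r, x)) (F (t, x)) t := h1.const_add _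
  refine h2.congr_of_eventuallyEq ?_
  filter_upwards [isOpen_Ioo.mem_nhds ht] with s hs
  have h3 := h t (Ioo_subset_Icc_self ht) s (Ioo_subset_Icc_self hs) x
  linarith

lemma fder {F Ft Fx : ℝ × ℝ → ℝ} {O : Set (ℝ × ℝ)} (hO : IsOpen O)
    (hct : ContinuousOn Ft O) (hcx : ContinuousOn Fx O)
    (ht : ∀ p ∈ O, HasDerivAt (fun s => F (s, p.2)) (Ft p) p.1)
    (hx : ∀ p ∈ O, HasDerivAt (fun y => F (p.1, y)) (Fx p) p.2) {p : ℝ × ℝ} (hp : p ∈ O) :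
    HasFDerivAt F (Ft p • ContinuousLinearMap.fst ℝ ℝ ℝ + Fx p • ContinuousLinearMap.snd ℝ ℝ ℝ) p := by
  have h := hasStrictFDerivAt_uncurry_coprod (𝕜 := ℝ) (u := p) (f := fun a b => F (a, b))
    (f₁ := fun a b => ContinuousLinearMap.toSpanSingleton ℝ (Ft (a, b)))
    (f₂ := fun a b => ContinuousLinearMap.toSpanSingleton ℝ (Fx (a, b)))
    (by
      filter_upwards [hO.mem_nhds hp] with v hv
      exact (ht v hv).hasFDerivAt)
    (by
      filter_upwards [hO.mem_nhds hp] with v hv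
      exact (hx v hv).hasFDerivAt)
    (by
      have h1 : ContinuousAt Ft p := hct.continuousAt (hO.mem_nhds hp)
      exact (ContinuousLinearMap.toSpanSingletonCLE (𝕜 := ℝ) (E := ℝ)).continuous.continuousAt.comp h1)
    (by
      have h1 : ContinuousAt Fx p := hcx.continuousAt (hO.mem_nhds hp)
      exact (ContinuousLinearMap.toSpanSingletonCLE (𝕜 := ℝ) (E := ℝ)).continuous.continuousAt.comp h1)
  have h2 : HasFDerivAt F ((ContinuousLinearMap.toSpanSingleton ℝ (Ft p)).coprod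
      (ContinuousLinearMap.toSpanSingleton ℝ (Fx p))) p := h.hasFDerivAt
  convert h2 using 1
  ext <;> simp [mul_comm]

lemma smooth {O : Set (ℝ × ℝ)} (hO : IsOpen O) {S : Set (ℝ × ℝ → ℝ)}
    (h : ∀ F ∈ S, ContinuousOn F O ∧ ∃ Ft ∈ S, ∃ Fx ∈ S,
      (∀ p ∈ O, HasDerivAt (fun s => F (s, p.2)) (Ft p) p.1) ∧
      ∀ p ∈ O, HasDerivAt (fun y => F (p.1, y)) (Fx p) p.2) :
    ∀ n : ℕ, ∀ F ∈ S, ContDiffOn ℝ n F O := by
  intro n
  induction n with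
  | zero =>
    intro F hF
    exact contDiffOn_zero.2 (h F hF).1
  | succ n ih =>
    intro F hF
    obtain ⟨_, Ft, hFt, Fx, hFx, h1, h2⟩ := h F hF
    have hd : ∀ p ∈ O, HasFDerivAt F
        (Ft p • ContinuousLinearMap.fst ℝ ℝ ℝ + Fx p • ContinuousLinearMap.snd ℝ ℝ ℝ) p :=
      fun p hp => fder hO (h Ft hFt).1 (h Fx hFx).1 h1 h2 hp
    have h0 : ((n + 1 : ℕ) : WithTop ℕ∞) = (n : WithTop ℕ∞) + 1 := by push_cast; rfl
    rw [h0, contDiffOn_succ_iff_fderiv_of_isOpen hO]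
    refine ⟨fun p hp => (hd p hp).differentiableAt.differentiableWithinAt, ?_, ?_⟩
    · intro hn
      exact absurd hn (by simp)
    · have h3 : ContDiffOn ℝ n (fun p => Ft p • ContinuousLinearMap.fst ℝ ℝ ℝ +
          Fx p • ContinuousLinearMap.snd ℝ ℝ ℝ) O :=
        ((ih Ft hFt).smul contDiffOn_const).add ((ih Fx hFx).smul contDiffOn_const)
      exact h3.congr (fun p hp => (hd p hp).fderiv)

end GLUM

open GLUM in
theorem specGLU : SpecGLU := by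
  intro τ u hτ hs hc hint
  -- the right-hand side
  have hF0 : (fun p => g u 3 p + g u 1 p ^ 2 + g u 0 p ^ 2) ∈ Al u :=
    add_mem (add_mem (g_mem u 3) (pow_mem (g_mem u 1) 2)) (pow_mem (g_mem u 0) 2)
  obtain ⟨G, hG0, hGA, hGd⟩ := seqG hs hF0
  have hFo : ∀ t x, Fo (u t) x = G 0 (t, x) := by
    intro t x
    rw [hG0]
    show iteratedDeriv 3 (u t) x + deriv (u t) x ^ 2 + u t x ^ 2 =
      iteratedDeriv 3 (u t) x + iteratedDeriv 1 (u t) x ^ 2 + iteratedDeriv 0 (u t) x ^ 2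
    rw [iteratedDeriv_one, iteratedDeriv_zero]
  have hg0 : ∀ t x, g u 0 (t, x) = u t x := by
    intro t x
    show iteratedDeriv 0 (u t) x = u t x
    rw [iteratedDeriv_zero]
  have hid := ident hs hc (G := G) (by
    intro s hs' t ht x
    rw [hg0, hg0, hint s hs' t ht x]
    exact intervalIntegral.integral_congr (fun r _ => hFo r x)) hGA hGd
  have hIo : ∀ t, t ∈ Ioo (-τ) τ → t ∈ Icc (-τ) τ := fun t ht => Ioo_subset_Icc_self ht
  have hgt : ∀ k, ∀ t ∈ Ioo (-τ) τ, ∀ x, HasDerivAt (fun s => g u k (s, x)) (G k (t, x)) t :=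
    fun k t ht x => tder (cont hc (hGA k)) (hid k) ht x
  have hO : IsOpen (Ioo (-τ) τ ×ˢ (univ : Set ℝ)) := isOpen_Ioo.prod isOpen_univ
  have hsm : ∀ n : ℕ, ∀ F ∈ (Al u : Set (ℝ × ℝ → ℝ)), ContDiffOn ℝ n F (Ioo (-τ) τ ×ˢ (univ : Set ℝ)) := by
    refine smooth hO ?_
    intro F hF
    refine ⟨(cont hc hF).mono (prod_mono Ioo_subset_Icc_self (Subset.refl _)), ?_⟩
    obtain ⟨Ft, a1, b1⟩ := dt (fun k => ⟨G k, hGA k, hgt k⟩) hF
    obtain ⟨Fx, a2, b2⟩ := dx hs hF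
    exact ⟨Ft, a1, Fx, a2, fun p hp => b1 p.1 hp.1 p.2, fun p hp => b2 p.1 (hIo _ hp.1) p.2⟩
  have hg0s : ContDiffOn ℝ ∞ (g u 0) (Ioo (-τ) τ ×ˢ (univ : Set ℝ)) :=
    contDiffOn_infty.2 (fun n => hsm n _ (g_mem u 0))
  have hUeq : (fun p : ℝ × ℝ => u (p.1 - τ) p.2) = fun p : ℝ × ℝ => g u 0 (p.1 - τ, p.2) := by
    funext p
    rw [hg0]
  rw [hUeq]
  have hsh : ∀ t, t ∈ Ioo 0 (2 * τ) → t - τ ∈ Ioo (-τ) τ := by
    intro t ht
    exact ⟨by linarith [ht.1], by linarith [ht.2]⟩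
  have hSm : Sm (2 * τ) (fun p : ℝ × ℝ => g u 0 (p.1 - τ, p.2)) := by
    refine hg0s.comp (t := Ioo (-τ) τ ×ˢ (univ : Set ℝ)) (s := Om (2 * τ)) (f := fun p : ℝ × ℝ => (p.1 - τ, p.2)) ?_ ?_
    · exact ((contDiff_fst.sub contDiff_const).prodMk contDiff_snd).contDiffOn
    · rintro ⟨t, x⟩ hp
      exact ⟨hsh t (mem_Om.1 hp), mem_univ _⟩
  -- space derivatives
  have hX : ∀ (W : ℝ × ℝ → ℝ) (k : ℕ), Sm (2 * τ) W →
      (∀ t ∈ Ioo 0 (2 * τ), ∀ x, W (t, x) = g u k (t - τ, x)) →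
      ∀ t ∈ Ioo 0 (2 * τ), ∀ x, Dx W (t, x) = g u (k + 1) (t - τ, x) := by
    intro W k hW h t ht x
    have h1 := hW.hasDerivAt_x ht x
    have h2 : (fun y => W (t, y)) = fun y => g u k (t - τ, y) := funext fun y => h t ht y
    rw [h2] at h1
    exact h1.unique (gder hs k (hIo _ (hsh t ht)) x)
  have hx1 := hX _ 0 hSm (fun t ht x => rfl)
  have hx2 := hX _ 1 hSm.dx hx1
  have hx3 := hX _ 2 hSm.dx.dx hx2
  refine ⟨hSm, ?_, ?_⟩
  · intro t ht x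
    show g u 0 (t - τ, x + 2 * Real.pi) = g u 0 (t - τ, x)
    rw [hg0, hg0]
    exact (hs _ (hIo _ (hsh t ht))).per x
  · intro t ht x
    rw [hx1 t ht x, hx3 t ht x]
    have h1 := hSm.hasDerivAt_t ht x
    have h2 : HasDerivAt (fun s => g u 0 (s - τ, x)) (G 0 (t - τ, x)) t :=
      (hgt 0 (t - τ) (hsh t ht) x).comp_sub_const t τ
    rw [h1.unique h2, hG0]

end Pool.Agent.Lib.MPb879c5.WP
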