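import Pool.Agent.Lib.MP_b879c5_an.WP.Spec

/-!
# MP_b879c5_an, WP: module HTH (a priori bound for the third derivative)
-/

set_option autoImplicit false

namespace Pool.Agent.Lib.MPb879c5.WP

open Set Filter MeasureTheory Topology
open Pool.Agent.Lib.MP_b879c5_an
open scoped ContDiff

namespace HTHM

variable {T : ℝ} {U : ℝ × ℝ → ℝ}

lemma dt1 (h : Sol T U) {t : ℝ} (ht : t ∈ Ioo 0 T) (x : ℝ) :
    Dt (Dx (Dx U)) (t, x) = Dx (Dx (Dx (Dx (Dx U)))) (t, x)
      + 2 * (Dx (Dx U) (t, x) ^ 2 + Dx U (t, x) * Dx (Dx (Dx U)) (t, x))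
      + 2 * (Dx U (t, x) ^ 2 + U (t, x) * Dx (Dx U) (t, x)) := by
  rw [h.sm.dx.comm ht x]
  have h1 := h.sm.dx.dt.hasDerivAt_x ht x
  have h2 : (fun y => Dt (Dx U) (t, y)) = fun y => Dx (Dx (Dx (Dx U))) (t, y)
      + 2 * Dx U (t, y) * Dx (Dx U) (t, y) + 2 * U (t, y) * Dx U (t, y) := by
    funext y; exact h.dt_dx ht y
  rw [h2] at h1
  have d0 := h.sm.hasDerivAt_x ht x
  have d1 := h.sm.dx.hasDerivAt_x ht x
  have d2 := h.sm.dx.dx.hasDerivAt_x ht x
  have d4 := h.sm.dx.dx.dx.dx.hasDerivAt_x ht x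
  have h3 := (d4.add ((d1.const_mul 2).mul d2)).add ((d0.const_mul 2).mul d1)
  have h4 := h1.unique h3
  rw [h4]
  ring

lemma dt2 (h : Sol T U) {t : ℝ} (ht : t ∈ Ioo 0 T) (x : ℝ) :
    Dt (Dx (Dx (Dx U))) (t, x) = Dx (Dx (Dx (Dx (Dx (Dx U))))) (t, x)
      + 6 * (Dx (Dx U) (t, x) * Dx (Dx (Dx U)) (t, x)) + 2 * (Dx U (t, x) * Dx (Dx (Dx (Dx U))) (t, x))
      + 6 * (Dx U (t, x) * Dx (Dx U) (t, x)) + 2 * (U (t, x) * Dx (Dx (Dx U)) (t, x)) := by
  rw [h.sm.dx.dx.comm ht x]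
  have h1 := h.sm.dx.dx.dt.hasDerivAt_x ht x
  have h2 : (fun y => Dt (Dx (Dx U)) (t, y)) = fun y => Dx (Dx (Dx (Dx (Dx U)))) (t, y)
      + 2 * (Dx (Dx U) (t, y) ^ 2 + Dx U (t, y) * Dx (Dx (Dx U)) (t, y))
      + 2 * (Dx U (t, y) ^ 2 + U (t, y) * Dx (Dx U) (t, y)) := by
    funext y; exact dt1 h ht y
  rw [h2] at h1
  have d0 := h.sm.hasDerivAt_x ht x
  have d1 := h.sm.dx.hasDerivAt_x ht x
  have d2 := h.sm.dx.dx.hasDerivAt_x ht x
  have d3 := h.sm.dx.dx.dx.hasDerivAt_x ht x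
  have d5 := h.sm.dx.dx.dx.dx.dx.hasDerivAt_x ht x
  have h3 := (d5.add (((d2.pow 2).add (d1.mul d3)).const_mul 2)).add (((d1.pow 2).add (d0.mul d2)).const_mul 2)
  have h4 := h1.unique h3
  rw [h4]
  push_cast
  ring

/-- the source after integration by parts -/
noncomputable def EE (U : ℝ × ℝ → ℝ) (p : ℝ × ℝ) : ℝ :=
  4 * (U p * Dx (Dx (Dx U)) p ^ 2) - 6 * Dx (Dx U) p ^ 3 - 20 / 3 * (Dx U p * Dx (Dx U) p ^ 3)
    - 20 * (U p * (Dx U p * Dx (Dx U) p ^ 2))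

lemma deriv_z (h : Sol T U) {t : ℝ} (ht : t ∈ Ioo 0 T) :
    HasDerivAt (fun s => ∫ x in (0)..(2 * Real.pi), (Dx (Dx (Dx U)) (s, x) ^ 2
      - 10 / 3 * (Dx U (s, x) * Dx (Dx U) (s, x) ^ 2)))
      (∫ x in (0)..(2 * Real.pi), EE U (t, x)) t := by
  have hsm : Sm T (fun p => Dx (Dx (Dx U)) p ^ 2 - 10 / 3 * (Dx U p * Dx (Dx U) p ^ 2)) :=
    (h.sm.dx.dx.dx.pow 2).sub (contDiffOn_const.mul (h.sm.dx.mul (h.sm.dx.dx.pow 2)))
  have h1 := hsm.hasDerivAt_integral ht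
  have hc0 := h.sm.continuous_x ht
  have hc1 := h.sm.dx.continuous_x ht
  have hc2 := h.sm.dx.dx.continuous_x ht
  have hc3 := h.sm.dx.dx.dx.continuous_x ht
  have hc4 := h.sm.dx.dx.dx.dx.continuous_x ht
  have hc5 := h.sm.dx.dx.dx.dx.dx.continuous_x ht
  have hc6 := h.sm.dx.dx.dx.dx.dx.dx.continuous_x ht
  have hp1 := Per.dx h.sm h.per
  have hp2 := Per.dx h.sm.dx hp1
  have hp3 := Per.dx h.sm.dx.dx hp2
  have hp4 := Per.dx h.sm.dx.dx.dx hp3
  have hp5 := Per.dx h.sm.dx.dx.dx.dx hp4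
  have hEc : Continuous (fun x => EE U (t, x)) := by
    unfold EE
    exact (((continuous_const.mul (hc0.mul (hc3.pow 2))).sub (continuous_const.mul (hc2.pow 3))).sub
      (continuous_const.mul (hc1.mul (hc2.pow 3)))).sub (continuous_const.mul (hc0.mul (hc1.mul (hc2.pow 2))))
  have hDc : Continuous (fun x => Dt (fun p => Dx (Dx (Dx U)) p ^ 2 - 10 / 3 * (Dx U p * Dx (Dx U) p ^ 2)) (t, x)) :=
    hsm.dt.continuous_x ht
  have h2 : ∫ x in (0)..(2 * Real.pi), (Dt (fun p => Dx (Dx (Dx U)) p ^ 2 - 10 / 3 * (Dx U p * Dx (Dx U) p ^ 2)) (t, x)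
      - EE U (t, x)) = 0 := by
    refine integral_total (f := fun x =>
      (2 * (Dx (Dx (Dx U)) (t, x) * Dx (Dx (Dx (Dx (Dx U)))) (t, x)) - Dx (Dx (Dx (Dx U))) (t, x) ^ 2
        + 2 * (Dx U (t, x) * Dx (Dx (Dx U)) (t, x) ^ 2) + 6 * (Dx U (t, x) * Dx (Dx U) (t, x) ^ 2))
      - 10 / 3 * (2 * (Dx U (t, x) * (Dx (Dx U) (t, x) * Dx (Dx (Dx (Dx U))) (t, x)))
        - Dx (Dx (Dx U)) (t, x) * Dx (Dx U) (t, x) ^ 2 - Dx U (t, x) * Dx (Dx (Dx U)) (t, x) ^ 2
        + 2 * (Dx U (t, x) ^ 2 * Dx (Dx U) (t, x) ^ 2) + Dx U (t, x) ^ 4)) ?_ (hDc.sub hEc) ?_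
    · intro x
      have d1 := h.sm.dx.hasDerivAt_x ht x
      have d2 := h.sm.dx.dx.hasDerivAt_x ht x
      have d3 := h.sm.dx.dx.dx.hasDerivAt_x ht x
      have d4 := h.sm.dx.dx.dx.dx.hasDerivAt_x ht x
      have d5 := h.sm.dx.dx.dx.dx.dx.hasDerivAt_x ht x
      have ha := hsm.hasDerivAt_t ht x
      have hb := ((h.sm.dx.dx.dx.hasDerivAt_t ht x).pow 2).sub
        (((h.sm.dx.hasDerivAt_t ht x).mul ((h.sm.dx.dx.hasDerivAt_t ht x).pow 2)).const_mul (10 / 3))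
      have hd := ((((d3.mul d5).const_mul 2).sub (d4.pow 2)).add ((d1.mul (d3.pow 2)).const_mul 2)).add
        ((d1.mul (d2.pow 2)).const_mul 6)
      have he := (((((d1.mul (d2.mul d4)).const_mul 2).sub (d3.mul (d2.pow 2))).sub (d1.mul (d3.pow 2))).add
        (((d1.pow 2).mul (d2.pow 2)).const_mul 2)).add (d1.pow 4)
      refine HasDerivAt.congr_deriv (f := fun x => _) (hd.sub (he.const_mul (10 / 3))) ?_
      rw [ha.unique hb, h.dt_dx ht x, dt1 h ht x, dt2 h ht x]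
      unfold EE
      simp only [Pi.pow_apply, Pi.mul_apply]
      push_cast
      ring
    · simp only [hp1.ends ht, hp2.ends ht, hp3.ends ht, hp4.ends ht, hp5.ends ht]
  rw [intervalIntegral.integral_sub (hDc.intervalIntegrable _ _) (hEc.intervalIntegrable _ _)] at h2
  rw [sub_eq_zero.1 h2] at h1
  exact h1

/-- the sup bound for functions with mean zero -/
lemma sup_sq {f f' : ℝ → ℝ} (hd : ∀ x, HasDerivAt f (f' x) x) (hc : Continuous f')
    (h0 : ∫ x in (0)..(2 * Real.pi), f x = 0) {x : ℝ} (hx : x ∈ Icc 0 (2 * Real.pi)) :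
    f x ^ 2 ≤ 2 * Real.pi * ∫ y in (0)..(2 * Real.pi), f' y ^ 2 := by
  have hpi := two_pi_pos'
  have hfc : Continuous f := by
    rw [continuous_iff_continuousAt]
    exact fun y => (hd y).continuousAt
  have osc : ∀ a ∈ Icc 0 (2 * Real.pi), ∀ b ∈ Icc 0 (2 * Real.pi), a ≤ b →
      (f b - f a) ^ 2 ≤ 2 * Real.pi * ∫ y in (0)..(2 * Real.pi), f' y ^ 2 := by
    intro a ha b hb hab
    have e1 : ∫ y in a..b, f' y = f b - f a :=
      intervalIntegral.integral_eq_sub_of_hasDerivAt (fun y _ => hd y) (hc.intervalIntegrable _ _)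
    rw [← e1]
    refine (sq_integral_le hab hc.continuousOn).trans ?_
    have e2 : ∫ y in a..b, f' y ^ 2 ≤ ∫ y in (0)..(2 * Real.pi), f' y ^ 2 :=
      intervalIntegral.integral_mono_interval ha.1 hab hb.2
        (Filter.Eventually.of_forall fun y => sq_nonneg _) ((hc.pow 2).intervalIntegrable _ _)
    have e3 : 0 ≤ ∫ y in a..b, f' y ^ 2 := intervalIntegral.integral_nonneg hab (fun y _ => sq_nonneg _)
    exact mul_le_mul (by linarith [ha.1, hb.2]) e2 e3 hpi.le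
  have osc' : ∀ y ∈ Icc 0 (2 * Real.pi), (f x - f y) ^ 2 ≤ 2 * Real.pi * ∫ y in (0)..(2 * Real.pi), f' y ^ 2 := by
    intro y hy
    rcases le_total y x with h1 | h1
    · exact osc y hy x hx h1
    · have := osc x hx y hy h1
      nlinarith
  have e4 : ∫ y in (0)..(2 * Real.pi), (f x - f y) = 2 * Real.pi * f x := by
    rw [intervalIntegral.integral_sub intervalIntegrable_const (hfc.intervalIntegrable _ _), h0,
      intervalIntegral.integral_const]
    simp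
  have e5 := sq_integral_le (f := fun y => f x - f y) hpi.le (continuous_const.sub hfc).continuousOn
  rw [e4] at e5
  have e6 : ∫ y in (0)..(2 * Real.pi), (f x - f y) ^ 2 ≤
      ∫ _ in (0)..(2 * Real.pi), (2 * Real.pi * ∫ y in (0)..(2 * Real.pi), f' y ^ 2) := by
    refine intervalIntegral.integral_mono_on hpi.le (((continuous_const.sub hfc).pow 2).intervalIntegrable _ _)
      intervalIntegrable_const ?_
    exact osc'
  rw [intervalIntegral.integral_const, smul_eq_mul, sub_zero] at e6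
  have e7 : (2 * Real.pi) ^ 2 * f x ^ 2 ≤ (2 * Real.pi) ^ 2 * (2 * Real.pi * ∫ y in (0)..(2 * Real.pi), f' y ^ 2) := by
    have e8 := mul_le_mul_of_nonneg_left e6 hpi.le
    rw [sub_zero] at e5
    nlinarith
  exact le_of_mul_le_mul_left e7 (by positivity)

/-- Groenwall -/
lemma gron {w w' : ℝ → ℝ} {t₁ T A : ℝ} (hd : ∀ t ∈ Ico t₁ T, HasDerivAt w (w' t) t)
    (hw : ∀ t ∈ Ico t₁ T, w' t ≤ A * w t) : ∀ t ∈ Ico t₁ T, w t ≤ w t₁ * Real.exp (A * (t - t₁)) := by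
  intro t ht
  have hE : ∀ s : ℝ, HasDerivAt (fun s => Real.exp (-(A * (s - t₁)))) (Real.exp (-(A * (s - t₁))) * -A) s := by
    intro s
    have h1 : HasDerivAt (fun s => -(A * (s - t₁))) (-A) s := by
      have h2 : HasDerivAt (fun s => -(A * (s - t₁))) (-(A * 1)) s :=
        (((hasDerivAt_id s).sub_const t₁).const_mul A).neg
      rwa [mul_one] at h2
    exact h1.exp
  have hAnti : AntitoneOn (fun s => w s * Real.exp (-(A * (s - t₁)))) (Ico t₁ T) := by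
    refine antitoneOn_of_deriv_nonpos (convex_Ico _ _) ?_ ?_ ?_
    · exact fun r hr => ((hd r hr).mul (hE r)).continuousAt.continuousWithinAt
    · exact fun r hr => ((hd r (interior_subset hr)).mul (hE r)).differentiableAt.differentiableWithinAt
    · intro r hr
      have hr := interior_subset hr
      have e1 : HasDerivAt (fun s => w s * Real.exp (-(A * (s - t₁))))
        (w' r * Real.exp (-(A * (r - t₁))) + w r * (Real.exp (-(A * (r - t₁))) * -A)) r := (hd r hr).mul (hE r)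
      rw [e1.deriv]
      have h2 := hw r hr
      have h3 := Real.exp_pos (-(A * (r - t₁)))
      nlinarith
  have h1 := hAnti (left_mem_Ico.2 (ht.1.trans_lt ht.2)) ht ht.1
  simp only [sub_self, mul_zero, neg_zero, Real.exp_zero, mul_one] at h1
  have h2 := mul_le_mul_of_nonneg_right h1 (Real.exp_pos (A * (t - t₁))).le
  rw [mul_assoc, ← Real.exp_add] at h2
  simpa using h2

end HTHM

open HTHM in
theorem specHTH (hHTW : SpecHTW) : SpecHTH := by
  intro T U M t₁ h ht₁ hM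
  obtain ⟨R, hR⟩ := hHTW T U M t₁ h ht₁ hM
  have hpi := two_pi_pos'
  have hin : ∀ t ∈ Ico t₁ T, t ∈ Ioo 0 T := fun t ht => ⟨ht₁.1.trans_le ht.1, ht.2⟩
  have ht₁' : t₁ ∈ Ico t₁ T := left_mem_Ico.2 ht₁.2
  have hR0 : 0 ≤ R := (II_nonneg U t₁).trans (hR t₁ ht₁').1
  have hM0 : 0 ≤ M := (abs_nonneg _).trans (hM t₁ ht₁' 0)
  obtain ⟨P, hP⟩ : ∃ P : ℝ, P = (1 + 2 * Real.pi * R) / 2 := ⟨_, rfl⟩
  have hP0 : 0 ≤ P := by rw [hP]; positivity
  obtain ⟨Z, hZ⟩ : ∃ Z : ℝ → ℝ, Z = fun t => ∫ x in (0)..(2 * Real.pi), Dx (Dx (Dx U)) (t, x) ^ 2 := ⟨_, rfl⟩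
  obtain ⟨w, hw⟩ : ∃ w : ℝ → ℝ, w = fun s => (∫ x in (0)..(2 * Real.pi), (Dx (Dx (Dx U)) (s, x) ^ 2
      - 10 / 3 * (Dx U (s, x) * Dx (Dx U) (s, x) ^ 2))) + (10 / 3 * (P * R) + 1) := ⟨_, rfl⟩
  -- pointwise bounds
  have hb0 : ∀ t ∈ Ico t₁ T, ∀ x ∈ Icc 0 (2 * Real.pi), |Dx U (t, x)| ≤ P := by
    intro t ht x hx
    have ht' := hin t ht
    have h1 := sup_sq (f := fun y => Dx U (t, y)) (f' := fun y => Dx (Dx U) (t, y))
      (fun y => h.sm.dx.hasDerivAt_x ht' y) (h.sm.dx.dx.continuous_x ht')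
      (integral_total (fun y => h.sm.hasDerivAt_x ht' y) (h.sm.dx.continuous_x ht') (h.per.ends ht')) hx
    have h2 := (hR t ht).2
    have h3 : Dx U (t, x) ^ 2 ≤ 2 * Real.pi * R := h1.trans (mul_le_mul_of_nonneg_left h2 hpi.le)
    rw [hP]
    nlinarith [sq_abs (Dx U (t, x)), sq_nonneg (|Dx U (t, x)| - 1)]
  have hZ0 : ∀ t, 0 ≤ Z t := by
    intro t
    rw [hZ]
    exact intervalIntegral.integral_nonneg hpi.le (fun _ _ => sq_nonneg _)
  have hb1 : ∀ t ∈ Ico t₁ T, ∀ x ∈ Icc 0 (2 * Real.pi), |Dx (Dx U) (t, x)| ≤ (1 + 2 * Real.pi * Z t) / 2 := by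
    intro t ht x hx
    have ht' := hin t ht
    have hp1 := Per.dx h.sm h.per
    have h1 := sup_sq (f := fun y => Dx (Dx U) (t, y)) (f' := fun y => Dx (Dx (Dx U)) (t, y))
      (fun y => h.sm.dx.dx.hasDerivAt_x ht' y) (h.sm.dx.dx.dx.continuous_x ht')
      (integral_total (fun y => h.sm.dx.hasDerivAt_x ht' y) (h.sm.dx.dx.continuous_x ht') (hp1.ends ht')) hx
    have h3 : Dx (Dx U) (t, x) ^ 2 ≤ 2 * Real.pi * Z t := by rw [hZ]; exact h1
    nlinarith [sq_abs (Dx (Dx U) (t, x)), sq_nonneg (|Dx (Dx U) (t, x)| - 1)]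
  -- the derivative
  have hwd : ∀ t ∈ Ico t₁ T, HasDerivAt w (∫ x in (0)..(2 * Real.pi), EE U (t, x)) t := by
    intro t ht
    rw [hw]
    exact (deriv_z h (hin t ht)).add_const _
  -- comparison of w and Z
  have hwZ : ∀ t ∈ Ico t₁ T, 1 + Z t ≤ w t := by
    intro t ht
    have ht' := hin t ht
    have hc1 := h.sm.dx.continuous_x ht'
    have hc2 := h.sm.dx.dx.continuous_x ht'
    have hc3 := h.sm.dx.dx.dx.continuous_x ht'
    have e1 : ∫ x in (0)..(2 * Real.pi), (Dx (Dx (Dx U)) (t, x) ^ 2 - 10 / 3 * (P * Dx (Dx U) (t, x) ^ 2)) ≤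
        ∫ x in (0)..(2 * Real.pi), (Dx (Dx (Dx U)) (t, x) ^ 2 - 10 / 3 * (Dx U (t, x) * Dx (Dx U) (t, x) ^ 2)) := by
      refine intervalIntegral.integral_mono_on hpi.le
        (((hc3.pow 2).sub (continuous_const.mul (continuous_const.mul (hc2.pow 2)))).intervalIntegrable _ _)
        (((hc3.pow 2).sub (continuous_const.mul (hc1.mul (hc2.pow 2)))).intervalIntegrable _ _) ?_
      intro x hx
      have h1 := (le_abs_self _).trans (hb0 t ht x hx)
      have h2 := mul_le_mul_of_nonneg_right h1 (sq_nonneg (Dx (Dx U) (t, x)))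
      linarith
    have i1 : IntervalIntegrable (fun x => Dx (Dx (Dx U)) (t, x) ^ 2) volume 0 (2 * Real.pi) :=
      (hc3.pow 2).intervalIntegrable _ _
    have i2 : IntervalIntegrable (fun x => 10 / 3 * (P * Dx (Dx U) (t, x) ^ 2)) volume 0 (2 * Real.pi) :=
      (continuous_const.mul (continuous_const.mul (hc2.pow 2))).intervalIntegrable _ _
    rw [intervalIntegral.integral_sub i1 i2,
      intervalIntegral.integral_const_mul, intervalIntegral.integral_const_mul] at e1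
    have e2 := mul_le_mul_of_nonneg_left (hR t ht).2 hP0
    have e3 : Z t = ∫ x in (0)..(2 * Real.pi), Dx (Dx (Dx U)) (t, x) ^ 2 := by rw [hZ]
    rw [hw]
    show 1 + Z t ≤ (∫ x in (0)..(2 * Real.pi), (Dx (Dx (Dx U)) (t, x) ^ 2
      - 10 / 3 * (Dx U (t, x) * Dx (Dx U) (t, x) ^ 2))) + (10 / 3 * (P * R) + 1)
    rw [e3]
    linarith
  obtain ⟨A, hA⟩ : ∃ A : ℝ, A = 4 * M + (6 * R + 20 / 3 * (P * R)) * (1 + 2 * Real.pi) + 20 * (M * (P * R)) := ⟨_, rfl⟩
  have hA0 : 0 ≤ A := by rw [hA]; positivity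
  have hE : ∀ t ∈ Ico t₁ T, (∫ x in (0)..(2 * Real.pi), EE U (t, x)) ≤ A * w t := by
    intro t ht
    have ht' := hin t ht
    have hc0 := h.sm.continuous_x ht'
    have hc1 := h.sm.dx.continuous_x ht'
    have hc2 := h.sm.dx.dx.continuous_x ht'
    have hc3 := h.sm.dx.dx.dx.continuous_x ht'
    obtain ⟨Q, hQ⟩ : ∃ Q : ℝ, Q = (1 + 2 * Real.pi * Z t) / 2 := ⟨_, rfl⟩
    have hQ0 : 0 ≤ Q := by rw [hQ]; have := hZ0 t; positivity
    have hEc : Continuous (fun x => EE U (t, x)) := by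
      unfold EE
      exact (((continuous_const.mul (hc0.mul (hc3.pow 2))).sub (continuous_const.mul (hc2.pow 3))).sub
        (continuous_const.mul (hc1.mul (hc2.pow 3)))).sub (continuous_const.mul (hc0.mul (hc1.mul (hc2.pow 2))))
    have e1 : ∫ x in (0)..(2 * Real.pi), EE U (t, x) ≤
        ∫ x in (0)..(2 * Real.pi), (4 * M * Dx (Dx (Dx U)) (t, x) ^ 2 +
          (6 * Q + 20 / 3 * (P * Q) + 20 * (M * P)) * Dx (Dx U) (t, x) ^ 2) := by
      refine intervalIntegral.integral_mono_on hpi.le (hEc.intervalIntegrable _ _)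
        (((continuous_const.mul (hc3.pow 2)).add (continuous_const.mul (hc2.pow 2))).intervalIntegrable _ _) ?_
      intro x hx
      have b0 := hM t ht x
      have b1 := hb0 t ht x hx
      have b2 := hb1 t ht x hx
      rw [← hQ] at b2
      have s2 := sq_nonneg (Dx (Dx U) (t, x))
      have s3 := sq_nonneg (Dx (Dx (Dx U)) (t, x))
      unfold EE
      have k1 : U (t, x) * Dx (Dx (Dx U)) (t, x) ^ 2 ≤ M * Dx (Dx (Dx U)) (t, x) ^ 2 :=
        mul_le_mul_of_nonneg_right ((le_abs_self _).trans b0) s3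
      have k2 : -(Dx (Dx U) (t, x) ^ 3) ≤ Q * Dx (Dx U) (t, x) ^ 2 := by
        have := mul_le_mul_of_nonneg_right ((neg_le_abs _).trans b2) s2
        nlinarith
      have k3 : -(Dx U (t, x) * Dx (Dx U) (t, x) ^ 3) ≤ P * Q * Dx (Dx U) (t, x) ^ 2 := by
        have l1 : |Dx U (t, x) * Dx (Dx U) (t, x)| ≤ P * Q := by
          rw [abs_mul]
          exact mul_le_mul b1 b2 (abs_nonneg _) hP0
        have := mul_le_mul_of_nonneg_right ((neg_le_abs _).trans l1) s2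
        nlinarith
      have k4 : -(U (t, x) * (Dx U (t, x) * Dx (Dx U) (t, x) ^ 2)) ≤ M * P * Dx (Dx U) (t, x) ^ 2 := by
        have l1 : |U (t, x) * Dx U (t, x)| ≤ M * P := by
          rw [abs_mul]
          exact mul_le_mul b0 b1 (abs_nonneg _) hM0
        have := mul_le_mul_of_nonneg_right ((neg_le_abs _).trans l1) s2
        nlinarith
      linarith
    have i1 : IntervalIntegrable (fun x => 4 * M * Dx (Dx (Dx U)) (t, x) ^ 2) volume 0 (2 * Real.pi) :=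
      (continuous_const.mul (hc3.pow 2)).intervalIntegrable _ _
    have i2 : IntervalIntegrable (fun x => (6 * Q + 20 / 3 * (P * Q) + 20 * (M * P)) * Dx (Dx U) (t, x) ^ 2)
        volume 0 (2 * Real.pi) :=
      (continuous_const.mul (hc2.pow 2)).intervalIntegrable _ _
    rw [intervalIntegral.integral_add i1 i2,
      intervalIntegral.integral_const_mul, intervalIntegral.integral_const_mul] at e1
    have e3 : Z t = ∫ x in (0)..(2 * Real.pi), Dx (Dx (Dx U)) (t, x) ^ 2 := by rw [hZ]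
    rw [← e3] at e1
    have e2 := (hR t ht).2
    have e4 : (6 * Q + 20 / 3 * (P * Q) + 20 * (M * P)) * (∫ x in (0)..(2 * Real.pi), Dx (Dx U) (t, x) ^ 2) ≤
        (6 * Q + 20 / 3 * (P * Q) + 20 * (M * P)) * R :=
      mul_le_mul_of_nonneg_left e2 (by positivity)
    have hz := hZ0 t
    have e5 : 4 * M * Z t + (6 * Q + 20 / 3 * (P * Q) + 20 * (M * P)) * R ≤ A * (1 + Z t) := by
      have l1 : Q ≤ (1 + 2 * Real.pi) * (1 + Z t) := by
        rw [hQ]
        have := Real.pi_pos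
        nlinarith [mul_nonneg this.le hz]
      have l2 : 0 ≤ 6 * R + 20 / 3 * (P * R) := by positivity
      have l3 := mul_le_mul_of_nonneg_left l1 l2
      have l4 : 20 * (M * (P * R)) ≤ 20 * (M * (P * R)) * (1 + Z t) := by
        have : 0 ≤ 20 * (M * (P * R)) := by positivity
        nlinarith
      have l5 : 4 * M * Z t ≤ 4 * M * (1 + Z t) := by nlinarith
      rw [hA]
      nlinarith
    have e6 := mul_le_mul_of_nonneg_left (hwZ t ht) hA0
    linarith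
  have hG := gron hwd hE
  refine ⟨|w t₁| * Real.exp (A * (T - t₁)), ?_⟩
  intro t ht
  have h1 := hG t ht
  have h2 := hwZ t ht
  have h3 : w t₁ * Real.exp (A * (t - t₁)) ≤ |w t₁| * Real.exp (A * (T - t₁)) := by
    refine mul_le_mul (le_abs_self _) ?_ (Real.exp_pos _).le (abs_nonneg _)
    apply Real.exp_le_exp.2
    exact mul_le_mul_of_nonneg_left (by linarith [ht.2]) hA0
  have e3 : Z t = ∫ x in (0)..(2 * Real.pi), Dx (Dx (Dx U)) (t, x) ^ 2 := by rw [hZ]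
  rw [← e3]
  linarith

end Pool.Agent.Lib.MPb879c5.WP
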