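import Pool.Agent.Lib.MP_b879c5_an.WP.Spec

/-!
# Module HTW: a priori bound for `∫ U_xx²` as long as `U` is bounded
-/

set_option autoImplicit false

namespace Pool.Agent.Lib.MPb879c5.WP

open Set Filter MeasureTheory Topology
open Pool.Agent.Lib.MP_b879c5_an
open scoped ContDiff

noncomputable section

namespace HTWM

/-- Grönwall's inequality. -/
lemma gronwall {f f' : ℝ → ℝ} {K t₁ T : ℝ} (hd : ∀ t ∈ Ico t₁ T, HasDerivAt f (f' t) t)
    (hK : ∀ t ∈ Ico t₁ T, f' t ≤ K * f t) :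
    ∀ t ∈ Ico t₁ T, f t ≤ f t₁ * Real.exp (K * (t - t₁)) := by
  intro t ht
  set g : ℝ → ℝ := fun r => f r * Real.exp (-(K * (r - t₁))) with hg
  have hgd : ∀ r ∈ Ico t₁ T, HasDerivAt g (f' r * Real.exp (-(K * (r - t₁))) +
      f r * (Real.exp (-(K * (r - t₁))) * (-(K * 1)))) r := by
    intro r hr
    exact (hd r hr).mul ((((hasDerivAt_id r).sub_const t₁).const_mul K).neg.exp)
  have hsub : Icc t₁ t ⊆ Ico t₁ T := fun r hr => ⟨hr.1, hr.2.trans_lt ht.2⟩
  have hanti : AntitoneOn g (Icc t₁ t) := by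
    refine antitoneOn_of_deriv_nonpos (convex_Icc t₁ t) ?_ ?_ ?_
    · exact fun r hr => (hgd r (hsub hr)).continuousAt.continuousWithinAt
    · exact fun r hr => (hgd r (hsub (interior_subset hr))).differentiableAt.differentiableWithinAt
    · intro r hr
      have hr0 := hsub (interior_subset hr)
      rw [(hgd r hr0).deriv]
      have h1 := hK r hr0
      have h2 : 0 < Real.exp (-(K * (r - t₁))) := Real.exp_pos _
      have h3 := mul_nonneg h2.le (sub_nonneg.2 h1)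
      nlinarith
  have h3 := hanti (left_mem_Icc.mpr ht.1) (right_mem_Icc.mpr ht.1) ht.1
  simp only [hg, sub_self, mul_zero, neg_zero, Real.exp_zero, mul_one] at h3
  have h4 : f t = (f t * Real.exp (-(K * (t - t₁)))) * Real.exp (K * (t - t₁)) := by
    rw [mul_assoc, ← Real.exp_add, neg_add_cancel, Real.exp_zero, mul_one]
  rw [h4]
  exact mul_le_mul_of_nonneg_right h3 (Real.exp_pos _).le

/-- The oscillation of a function on a period. -/
lemma osc {f f' : ℝ → ℝ} (hf : ∀ x, HasDerivAt f (f' x) x) (hc : Continuous f') {x y : ℝ}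
    (hx : x ∈ Icc 0 (2 * Real.pi)) (hy : y ∈ Icc 0 (2 * Real.pi)) :
    (f x - f y) ^ 2 ≤ 2 * Real.pi * ∫ r in (0)..(2 * Real.pi), f' r ^ 2 := by
  have key : ∀ x y : ℝ, 0 ≤ y → y ≤ x → x ≤ 2 * Real.pi →
      (f x - f y) ^ 2 ≤ 2 * Real.pi * ∫ r in (0)..(2 * Real.pi), f' r ^ 2 := by
    intro x y hy hyx hx
    have h1 : ∫ r in y..x, f' r = f x - f y :=
      intervalIntegral.integral_eq_sub_of_hasDerivAt (fun r _ => hf r)
        (hc.intervalIntegrable _ _)
    have h2 := sq_integral_le (f := f') hyx hc.continuousOn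
    rw [h1] at h2
    have h3 : ∫ r in y..x, f' r ^ 2 ≤ ∫ r in (0)..(2 * Real.pi), f' r ^ 2 :=
      intervalIntegral.integral_mono_interval hy hyx hx
        (Filter.Eventually.of_forall fun _ => sq_nonneg _) ((hc.pow 2).intervalIntegrable _ _)
    have h4 : 0 ≤ ∫ r in y..x, f' r ^ 2 :=
      intervalIntegral.integral_nonneg hyx (fun _ _ => sq_nonneg _)
    exact h2.trans (mul_le_mul (by linarith) h3 h4 two_pi_pos'.le)
  rcases le_total y x with hle | hle
  · exact key x y hy.1 hle hx.2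
  · have := key y x hx.1 hle hy.2
    nlinarith

variable {T : ℝ} {U : ℝ × ℝ → ℝ}

/-- `∫ u_xx²` -/
def YI (U : ℝ × ℝ → ℝ) (t : ℝ) : ℝ := ∫ x in (0)..(2 * Real.pi), Dx (Dx U) (t, x) ^ 2

/-- `∫ u_xx² - (2/3) u_x³` -/
def yI (U : ℝ × ℝ → ℝ) (t : ℝ) : ℝ :=
  ∫ x in (0)..(2 * Real.pi), (Dx (Dx U) (t, x) ^ 2 - 2 / 3 * Dx U (t, x) ^ 3)

/-- The derivative of `yI`. -/
def zI (U : ℝ × ℝ → ℝ) (t : ℝ) : ℝ :=
  ∫ x in (0)..(2 * Real.pi),
    (4 * (U (t, x) * Dx (Dx U) (t, x) ^ 2) - 4 * (U (t, x) * Dx U (t, x) ^ 3))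

lemma dt_dxx (h : Sol T U) {t : ℝ} (ht : t ∈ Ioo 0 T) (x : ℝ) :
    Dt (Dx (Dx U)) (t, x) = Dx (Dx (Dx (Dx (Dx U)))) (t, x) + 2 * (Dx (Dx U) (t, x)) ^ 2
      + 2 * Dx U (t, x) * Dx (Dx (Dx U)) (t, x) + 2 * (Dx U (t, x)) ^ 2
      + 2 * U (t, x) * Dx (Dx U) (t, x) := by
  rw [h.sm.dx.comm ht x]
  have h1 := h.sm.dx.dt.hasDerivAt_x ht x
  have h2 : (fun y => Dt (Dx U) (t, y)) = fun y => Dx (Dx (Dx (Dx U))) (t, y)
      + 2 * Dx U (t, y) * Dx (Dx U) (t, y) + 2 * U (t, y) * Dx U (t, y) := by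
    funext y; exact h.dt_dx ht y
  rw [h2] at h1
  have d0 := h.sm.hasDerivAt_x ht x
  have d1 := h.sm.dx.hasDerivAt_x ht x
  have d2 := h.sm.dx.dx.hasDerivAt_x ht x
  have d4 := h.sm.dx.dx.dx.dx.hasDerivAt_x ht x
  have h3 := (d4.add ((d1.const_mul 2).mul d2)).add ((d0.const_mul 2).mul d1)
  have h4 := h1.unique h3
  rw [h4]
  ring

lemma hasDerivAt_y (h : Sol T U) {t : ℝ} (ht : t ∈ Ioo 0 T) :
    HasDerivAt (yI U) (zI U t) t := by
  have hsm : Sm T (fun p => Dx (Dx U) p ^ 2 - 2 / 3 * Dx U p ^ 3) :=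
    (h.sm.dx.dx.pow 2).sub (contDiffOn_const.mul (h.sm.dx.pow 3))
  have h1 := hsm.hasDerivAt_integral ht
  have hc0 := h.sm.continuous_x ht
  have hc1 := h.sm.dx.continuous_x ht
  have hc2 := h.sm.dx.dx.continuous_x ht
  have hc3 := h.sm.dx.dx.dx.continuous_x ht
  have hc4 := h.sm.dx.dx.dx.dx.continuous_x ht
  have hc5 := h.sm.dx.dx.dx.dx.dx.continuous_x ht
  have hp1 := Per.dx h.sm h.per
  have hp2 := Per.dx h.sm.dx hp1
  have hp3 := Per.dx h.sm.dx.dx hp2
  have hp4 := Per.dx h.sm.dx.dx.dx hp3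
  have h2 : ∫ x in (0)..(2 * Real.pi), Dt (fun p => Dx (Dx U) p ^ 2 - 2 / 3 * Dx U p ^ 3) (t, x)
      = zI U t := by
    have h3 : ∀ x, Dt (fun p => Dx (Dx U) p ^ 2 - 2 / 3 * Dx U p ^ 3) (t, x) =
        (2 * (Dx (Dx U) (t, x) * Dx (Dx (Dx (Dx (Dx U)))) (t, x)) + 4 * Dx (Dx U) (t, x) ^ 3
          + 4 * (Dx U (t, x) * Dx (Dx U) (t, x) * Dx (Dx (Dx U)) (t, x))
          + 4 * (Dx U (t, x) ^ 2 * Dx (Dx U) (t, x))
          - 2 * (Dx U (t, x) ^ 2 * Dx (Dx (Dx (Dx U))) (t, x))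
          - 4 * (Dx U (t, x) ^ 3 * Dx (Dx U) (t, x))) +
        (4 * (U (t, x) * Dx (Dx U) (t, x) ^ 2) - 4 * (U (t, x) * Dx U (t, x) ^ 3)) := by
      intro x
      have ha := hsm.hasDerivAt_t ht x
      have hb := ((h.sm.dx.dx.hasDerivAt_t ht x).pow 2).sub
        (((h.sm.dx.hasDerivAt_t ht x).pow 3).const_mul (2 / 3))
      rw [ha.unique hb, h.dt_dx ht x, dt_dxx h ht x]
      push_cast
      ring
    simp_rw [h3]
    have hcA : Continuous fun x => (2 * (Dx (Dx U) (t, x) * Dx (Dx (Dx (Dx (Dx U)))) (t, x))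
          + 4 * Dx (Dx U) (t, x) ^ 3
          + 4 * (Dx U (t, x) * Dx (Dx U) (t, x) * Dx (Dx (Dx U)) (t, x))
          + 4 * (Dx U (t, x) ^ 2 * Dx (Dx U) (t, x))
          - 2 * (Dx U (t, x) ^ 2 * Dx (Dx (Dx (Dx U))) (t, x))
          - 4 * (Dx U (t, x) ^ 3 * Dx (Dx U) (t, x))) :=
      (((((continuous_const.mul (hc2.mul hc5)).add (continuous_const.mul (hc2.pow 3))).add
        (continuous_const.mul ((hc1.mul hc2).mul hc3))).add
        (continuous_const.mul ((hc1.pow 2).mul hc2))).sub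
        (continuous_const.mul ((hc1.pow 2).mul hc4))).sub
        (continuous_const.mul ((hc1.pow 3).mul hc2))
    have hcB : Continuous fun x => (4 * (U (t, x) * Dx (Dx U) (t, x) ^ 2)
        - 4 * (U (t, x) * Dx U (t, x) ^ 3)) :=
      (continuous_const.mul (hc0.mul (hc2.pow 2))).sub (continuous_const.mul (hc0.mul (hc1.pow 3)))
    rw [intervalIntegral.integral_add (hcA.intervalIntegrable _ _) (hcB.intervalIntegrable _ _)]
    rw [integral_total (f := fun x => 2 * (Dx (Dx U) (t, x) * Dx (Dx (Dx (Dx U))) (t, x))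
      - Dx (Dx (Dx U)) (t, x) ^ 2 + 4 * (Dx U (t, x) * Dx (Dx U) (t, x) ^ 2)
      + 4 / 3 * Dx U (t, x) ^ 3 - 2 * (Dx U (t, x) ^ 2 * Dx (Dx (Dx U)) (t, x))
      - Dx U (t, x) ^ 4)]
    · rw [zero_add]
      rfl
    · intro x
      have d1 := h.sm.dx.hasDerivAt_x ht x
      have d2 := h.sm.dx.dx.hasDerivAt_x ht x
      have d3 := h.sm.dx.dx.dx.hasDerivAt_x ht x
      have d4 := h.sm.dx.dx.dx.dx.hasDerivAt_x ht x
      have := (((((d2.mul d4).const_mul 2).sub (d3.pow 2)).add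
        ((d1.mul (d2.pow 2)).const_mul 4)).add ((d1.pow 3).const_mul (4 / 3))).sub
        (((d1.pow 2).mul d3).const_mul 2) |>.sub (d1.pow 4)
      refine HasDerivAt.congr_deriv (f := fun x => _) this ?_
      simp only [Pi.pow_apply]
      push_cast
      ring
    · exact hcA
    · simp only [hp1.ends ht, hp2.ends ht, hp3.ends ht, hp4.ends ht]
  rw [h2] at h1
  exact h1

lemma Y_nonneg (U : ℝ × ℝ → ℝ) (t : ℝ) : 0 ≤ YI U t :=
  intervalIntegral.integral_nonneg two_pi_pos'.le (fun _ _ => sq_nonneg _)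

/-- The pointwise bound for `U_x`. -/
lemma px_le (h : Sol T U) {t : ℝ} (ht : t ∈ Ioo 0 T) {x : ℝ} (hx : x ∈ Icc 0 (2 * Real.pi)) :
    |Dx U (t, x)| ≤ Real.sqrt (2 * Real.pi * YI U t) := by
  obtain ⟨c, hc, hc0⟩ := exists_hasDerivAt_eq_zero (f := fun y => U (t, y))
    (f' := fun y => Dx U (t, y)) two_pi_pos' (h.sm.continuous_x ht).continuousOn
    (h.per.ends ht).symm (fun x _ => h.sm.hasDerivAt_x ht x)
  have h1 := osc (f := fun y => Dx U (t, y)) (f' := fun y => Dx (Dx U) (t, y))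
    (fun x => h.sm.dx.hasDerivAt_x ht x) (h.sm.dx.dx.continuous_x ht) hx
    (Ioo_subset_Icc_self hc)
  apply Real.abs_le_sqrt
  have hc0' : Dx U (t, c) = 0 := hc0
  simp only [hc0', sub_zero] at h1
  exact h1

/-- The two inequalities at a fixed time. -/
lemma key (h : Sol T U) {t : ℝ} (ht : t ∈ Ioo 0 T) {M R₁ : ℝ} (hM : ∀ x, |U (t, x)| ≤ M)
    (hM0 : 0 ≤ M) (hR : II U t ≤ R₁) :
    YI U t ≤ 2 * (yI U t + 2 * Real.pi * R₁ ^ 2) ∧
      zI U t ≤ 10 * M * (yI U t + 2 * (2 * Real.pi * R₁ ^ 2)) := by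
  have hpi : 0 < Real.pi := Real.pi_pos
  have hY := Y_nonneg U t
  have hI0 := II_nonneg U t
  set S := Real.sqrt (2 * Real.pi * YI U t) with hS
  have hS0 : 0 ≤ S := Real.sqrt_nonneg _
  have hS2 : S ^ 2 = 2 * Real.pi * YI U t := Real.sq_sqrt (by positivity)
  have hc0 := h.sm.continuous_x ht
  have hc1 := h.sm.dx.continuous_x ht
  have hc2 := h.sm.dx.dx.continuous_x ht
  have hSI : S * II U t ≤ YI U t / 4 + 2 * Real.pi * R₁ ^ 2 := by
    have h1 : S * II U t ≤ S * R₁ := mul_le_mul_of_nonneg_left hR hS0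
    have h2 : 0 ≤ (S - 4 * Real.pi * R₁) ^ 2 := sq_nonneg _
    have h3 : 8 * Real.pi * (S * R₁) ≤ 8 * Real.pi * (YI U t / 4 + 2 * Real.pi * R₁ ^ 2) := by
      nlinarith
    exact h1.trans (le_of_mul_le_mul_left h3 (by positivity))
  have hp : ∀ x ∈ Icc 0 (2 * Real.pi), |Dx U (t, x) ^ 3| ≤ S * Dx U (t, x) ^ 2 := by
    intro x hx
    have h1 := px_le h ht hx
    rw [← hS] at h1
    have h2 : |Dx U (t, x) ^ 3| = |Dx U (t, x)| * Dx U (t, x) ^ 2 := by
      rw [abs_pow, ← sq_abs (Dx U (t, x))]; ring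
    rw [h2]
    exact mul_le_mul_of_nonneg_right h1 (sq_nonneg _)
  have hlow : YI U t - 2 / 3 * (S * II U t) ≤ yI U t := by
    have e : YI U t - 2 / 3 * (S * II U t) = ∫ x in (0)..(2 * Real.pi),
        (Dx (Dx U) (t, x) ^ 2 - 2 / 3 * (S * Dx U (t, x) ^ 2)) := by
      have i1 : IntervalIntegrable (fun x => Dx (Dx U) (t, x) ^ 2) volume 0 (2 * Real.pi) :=
        (hc2.pow 2).intervalIntegrable _ _
      have i2 : IntervalIntegrable (fun x => 2 / 3 * (S * Dx U (t, x) ^ 2)) volume 0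
          (2 * Real.pi) :=
        (continuous_const.mul (continuous_const.mul (hc1.pow 2))).intervalIntegrable _ _
      rw [intervalIntegral.integral_sub i1 i2,
        intervalIntegral.integral_const_mul, intervalIntegral.integral_const_mul]
      rfl
    rw [e]
    unfold yI
    refine intervalIntegral.integral_mono_on two_pi_pos'.le ?_ ?_ ?_
    · exact ((hc2.pow 2).sub (continuous_const.mul
        (continuous_const.mul (hc1.pow 2)))).intervalIntegrable _ _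
    · exact ((hc2.pow 2).sub (continuous_const.mul (hc1.pow 3))).intervalIntegrable _ _
    · intro x hx
      have := (abs_le.1 (hp x hx)).2
      linarith
  have hup : zI U t ≤ 4 * (M * YI U t) + 4 * (M * (S * II U t)) := by
    have e : 4 * (M * YI U t) + 4 * (M * (S * II U t)) = ∫ x in (0)..(2 * Real.pi),
        (4 * (M * Dx (Dx U) (t, x) ^ 2) + 4 * (M * (S * Dx U (t, x) ^ 2))) := by
      have i1 : IntervalIntegrable (fun x => 4 * (M * Dx (Dx U) (t, x) ^ 2)) volume 0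
          (2 * Real.pi) :=
        (continuous_const.mul (continuous_const.mul (hc2.pow 2))).intervalIntegrable _ _
      have i2 : IntervalIntegrable (fun x => 4 * (M * (S * Dx U (t, x) ^ 2))) volume 0
          (2 * Real.pi) :=
        (continuous_const.mul (continuous_const.mul
          (continuous_const.mul (hc1.pow 2)))).intervalIntegrable _ _
      rw [intervalIntegral.integral_add i1 i2,
        intervalIntegral.integral_const_mul, intervalIntegral.integral_const_mul,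
        intervalIntegral.integral_const_mul, intervalIntegral.integral_const_mul,
        intervalIntegral.integral_const_mul]
      rfl
    rw [e]
    unfold zI
    refine intervalIntegral.integral_mono_on two_pi_pos'.le ?_ ?_ ?_
    · exact ((continuous_const.mul (hc0.mul (hc2.pow 2))).sub
        (continuous_const.mul (hc0.mul (hc1.pow 3)))).intervalIntegrable _ _
    · exact ((continuous_const.mul (continuous_const.mul (hc2.pow 2))).add
        (continuous_const.mul (continuous_const.mul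
          (continuous_const.mul (hc1.pow 2))))).intervalIntegrable _ _
    · intro x hx
      have h1 : U (t, x) * Dx (Dx U) (t, x) ^ 2 ≤ M * Dx (Dx U) (t, x) ^ 2 :=
        mul_le_mul_of_nonneg_right ((le_abs_self _).trans (hM x)) (sq_nonneg _)
      have h2 : |U (t, x) * Dx U (t, x) ^ 3| ≤ M * (S * Dx U (t, x) ^ 2) := by
        rw [abs_mul]
        exact mul_le_mul (hM x) (hp x hx) (abs_nonneg _) hM0
      have h3 := (abs_le.1 h2).1
      linarith
  have h1 : YI U t ≤ 2 * (yI U t + 2 * Real.pi * R₁ ^ 2) := by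
    have : 0 ≤ 2 * Real.pi * R₁ ^ 2 := by positivity
    linarith
  refine ⟨h1, ?_⟩
  set C := 2 * Real.pi * R₁ ^ 2 with hC
  have hC0 : 0 ≤ C := by rw [hC]; positivity
  have h2 : M * (S * II U t) ≤ M * (YI U t / 4 + C) := mul_le_mul_of_nonneg_left hSI hM0
  have h3 : M * YI U t ≤ M * (2 * (yI U t + C)) := mul_le_mul_of_nonneg_left h1 hM0
  have h4 : 0 ≤ M * C := mul_nonneg hM0 hC0
  nlinarith

end HTWM

open HTWM in
theorem specHTW : SpecHTW := by
  intro T U M t₁ h ht₁ hM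
  have hsub : ∀ t ∈ Ico t₁ T, t ∈ Ioo 0 T := fun t ht => ⟨ht₁.1.trans_le ht.1, ht.2⟩
  have hM0 : 0 ≤ M := (abs_nonneg _).trans (hM t₁ ⟨le_rfl, ht₁.2⟩ 0)
  have hI : ∀ t ∈ Ico t₁ T, II U t ≤ II U t₁ * Real.exp (4 * M * (t - t₁)) :=
    gronwall (fun t ht => h.hasDerivAt_I (hsub t ht)) (fun t ht => by
      have := h.cubic_I_le (hsub t ht) (hM t ht)
      linarith)
  set R₁ := II U t₁ * Real.exp (4 * M * (T - t₁)) with hR₁
  have hI' : ∀ t ∈ Ico t₁ T, II U t ≤ R₁ := by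
    intro t ht
    refine (hI t ht).trans (mul_le_mul_of_nonneg_left (Real.exp_le_exp.2 ?_) (II_nonneg U t₁))
    exact mul_le_mul_of_nonneg_left (by linarith [ht.2]) (by positivity)
  set C := 2 * Real.pi * R₁ ^ 2 with hC
  have hC0 : 0 ≤ C := by rw [hC]; positivity
  have hk : ∀ t ∈ Ico t₁ T, YI U t ≤ 2 * (yI U t + C) ∧ zI U t ≤ 10 * M * (yI U t + 2 * C) :=
    fun t ht => key h (hsub t ht) (hM t ht) hM0 (hI' t ht)
  have hw : ∀ t ∈ Ico t₁ T, yI U t + 2 * C ≤ (yI U t₁ + 2 * C) * Real.exp (10 * M * (t - t₁)) :=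
    gronwall (f := fun t => yI U t + 2 * C) (fun t ht => (hasDerivAt_y h (hsub t ht)).add_const _)
      (fun t ht => (hk t ht).2)
  have hw1 : 0 ≤ yI U t₁ + 2 * C := by
    have h1 := (hk t₁ ⟨le_rfl, ht₁.2⟩).1
    have h2 := Y_nonneg U t₁
    linarith
  refine ⟨max R₁ (2 * ((yI U t₁ + 2 * C) * Real.exp (10 * M * (T - t₁)))), ?_⟩
  intro t ht
  refine ⟨(hI' t ht).trans (le_max_left _ _), le_trans ?_ (le_max_right _ _)⟩
  have h1 := (hk t ht).1
  have h2 : yI U t + 2 * C ≤ (yI U t₁ + 2 * C) * Real.exp (10 * M * (T - t₁)) := by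
    refine (hw t ht).trans (mul_le_mul_of_nonneg_left (Real.exp_le_exp.2 ?_) hw1)
    exact mul_le_mul_of_nonneg_left (by linarith [ht.2]) (by positivity)
  have h3 : YI U t ≤ 2 * (yI U t + 2 * C) := by linarith
  change YI U t ≤ _
  linarith

end

end Pool.Agent.Lib.MPb879c5.WP
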