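import Pool.Agent.Lib.MP_b879c5_an.WP.SpecG

/-!
# Module LEX: local existence
-/

set_option autoImplicit false

namespace Pool.Agent.Lib.MPb879c5.WP

open Set Filter MeasureTheory Topology
open Pool.Agent.Lib.MP_b879c5_an
open scoped ContDiff

noncomputable section

namespace LEXM

theorem lip_x (f : ℝ → ℝ) (hf : SP f) (S : ℝ) (hS : ∀ x, |iteratedDeriv 1 f x| ≤ S) (x x' : ℝ) :
    |f x - f x'| ≤ S * |x - x'| := by
  have h := Convex.norm_image_sub_le_of_norm_deriv_le (𝕜 := ℝ) (f := f) (C := S) (s := univ) (x := x') (y := x)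
    (fun y _ => (hf.sm.differentiable (by simp)) y)
    (fun y _ => by rw [Real.norm_eq_abs, ← iteratedDeriv_one]; exact hS y)
    convex_univ (mem_univ _) (mem_univ _)
  simpa only [Real.norm_eq_abs] using h

theorem lip_t (N : ℕ) (τ L : ℝ) (c c' : ℝ → Fin (2 * N + 1) → ℝ) (hG : Gal N τ c c')
    (hL : ∀ t ∈ Icc (-τ) τ, ∀ x, |tp N (c' t) x| ≤ L) (x : ℝ) (t t' : ℝ) (ht : t ∈ Icc (-τ) τ)
    (ht' : t' ∈ Icc (-τ) τ) : |tp N (c t) x - tp N (c t') x| ≤ L * |t - t'| := by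
  have hd : ∀ s ∈ Icc (-τ) τ, HasDerivWithinAt (fun s => tp N (c s) x) (tp N (c' s) x) (Icc (-τ) τ) s := by
    intro s hs
    have h1 := hasDerivAt_pi.1 (hG.der s hs)
    have h2 : HasDerivAt (fun s => ∑ j : Fin (2 * N + 1), c s j * tb j x)
        (∑ j : Fin (2 * N + 1), c' s j * tb j x) s :=
      HasDerivAt.fun_sum fun j _ => (h1 j).mul_const (tb j x)
    exact h2.hasDerivWithinAt
  have h := Convex.norm_image_sub_le_of_norm_hasDerivWithin_le hd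
    (fun s hs => by rw [Real.norm_eq_abs]; exact hL s hs x) (convex_Icc (-τ) τ) ht' ht
  simpa only [Real.norm_eq_abs] using h

end LEXM

open LEXM in
theorem specLEX (hSOB : SpecSOB) (hTRG : SpecTRG) (hTRB : SpecTRB) (hGEX : SpecGEX) (hGBD : SpecGBD)
    (hTBD : SpecTBD) (hCPT : SpecCPT) (hLKD : SpecLKD) (hPDE : SpecPDE) (hGLU : SpecGLU) : SpecLEX := by
  obtain ⟨C₂, hC₂, hGEX⟩ := hGEX
  intro R
  have hR0 : 0 ≤ max R 0 := le_max_right _ _
  have hpos : 0 < C₂ * (1 + max R 0) := by positivity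
  have hτ : 0 < 1 / (C₂ * (1 + max R 0)) := by positivity
  have hτ1 : 1 / (C₂ * (1 + max R 0)) * (C₂ * (1 + max R 0)) ≤ 1 := by
    rw [one_div, inv_mul_cancel₀ hpos.ne']
  generalize 1 / (C₂ * (1 + max R 0)) = τ at hτ hτ1
  refine ⟨τ, hτ, fun u₀ hu₀ hR => ?_⟩
  obtain ⟨c0, hc0, hconv⟩ := hTRB u₀ hu₀
  have hG : ∀ N : ℕ, ∃ c c' : ℝ → Fin (2 * N + 1) → ℝ, c 0 = c0 N ∧ Gal N τ c c' ∧
      ∀ t ∈ Icc (-τ) τ, En 0 (tp N (c t)) + En 3 (tp N (c t)) ≤ 2 * max R 0 + 1 := fun N =>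
    hGEX N (c0 N) (max R 0) hR0
      (by linarith [hc0 N 0, hc0 N 3, le_max_left R 0]) τ hτ hτ1
  choose c c' h0 hGal hE using hG
  obtain ⟨D, hD⟩ := hGBD τ (2 * max R 0 + 1) (fun k => En k u₀) hτ
  have hD' : ∀ N, ∀ t ∈ Icc (-τ) τ, ∀ k, En k (tp N (c N t)) ≤ D k := fun N t ht k =>
    hD N (c N) (c' N) (hGal N) (hE N) (fun k => by rw [h0 N]; exact hc0 N k) t ht k
  obtain ⟨L, hL⟩ := hTBD D
  have hL' : ∀ N, ∀ t ∈ Icc (-τ) τ, ∀ x, |tp N (c' N t) x| ≤ L := fun N t ht x =>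
    hL N (c N t) (c' N t) ((hGal N).eqn t ht) (hD' N t ht) x
  have hS : ∀ k N, ∀ t ∈ Icc (-τ) τ, ∀ x,
      |iteratedDeriv k (tp N (c N t)) x| ≤ Real.sqrt (20 * (D 0 + D (k + 1))) := by
    intro k N t ht x
    refine Real.abs_le_sqrt ?_
    have h1 := (hSOB _ (hTRG.1 N (c N t)) k (k + 1) (Nat.lt_succ_self k)).2 x
    linarith [hD' N t ht 0, hD' N t ht (k + 1)]
  have hmem0 : (0 : ℝ) ∈ Icc (-τ) τ := ⟨by linarith, hτ.le⟩
  obtain ⟨φ, hφ, u, hu⟩ := hCPT τ (max (Real.sqrt (20 * (D 0 + D (0 + 1)))) (max L (Real.sqrt (20 * (D 0 + D (1 + 1))))))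
    (fun N t x => tp N (c N t) x) hτ
    (fun N t ht x => by
      have h1 := hS 0 N t ht x
      rw [iteratedDeriv_zero] at h1
      exact h1.trans (le_max_left _ _))
    (fun N t ht t' ht' x x' => by
      have h1 := lip_x (tp N (c N t)) (hTRG.1 N (c N t)) _ (hS 1 N t ht) x x'
      have h2 := lip_t N τ L (c N) (c' N) (hGal N) (hL' N) x' t t' ht ht'
      have h3 : |tp N (c N t) x - tp N (c N t') x'| ≤ |tp N (c N t) x - tp N (c N t) x'| +
          |tp N (c N t) x' - tp N (c N t') x'| := abs_sub_le _ _ _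
      have h4 : L * |t - t'| ≤ max (Real.sqrt (20 * (D 0 + D (0 + 1)))) (max L (Real.sqrt (20 * (D 0 + D (1 + 1))))) * |t - t'| :=
        mul_le_mul_of_nonneg_right ((le_max_left _ _).trans (le_max_right _ _)) (abs_nonneg _)
      have h5 : Real.sqrt (20 * (D 0 + D (1 + 1))) * |x - x'| ≤
          max (Real.sqrt (20 * (D 0 + D (0 + 1)))) (max L (Real.sqrt (20 * (D 0 + D (1 + 1))))) * |x - x'| :=
        mul_le_mul_of_nonneg_right ((le_max_right _ _).trans (le_max_right _ _)) (abs_nonneg _)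
      have h6 : max (Real.sqrt (20 * (D 0 + D (0 + 1)))) (max L (Real.sqrt (20 * (D 0 + D (1 + 1))))) * (|t - t'| + |x - x'|) =
          max (Real.sqrt (20 * (D 0 + D (0 + 1)))) (max L (Real.sqrt (20 * (D 0 + D (1 + 1))))) * |t - t'| +
          max (Real.sqrt (20 * (D 0 + D (0 + 1)))) (max L (Real.sqrt (20 * (D 0 + D (1 + 1))))) * |x - x'| := mul_add _ _ _
      show |tp N (c N t) x - tp N (c N t') x'| ≤ _
      rw [h6]
      linarith)
    (fun N t _ x => (hTRG.1 N (c N t)).per x)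
  obtain ⟨hSP, hck⟩ := hLKD (Icc (-τ) τ) (fun n t x => tp (φ n) (c (φ n) t) x) u
    (fun n t _ => hTRG.1 (φ n) (c (φ n) t))
    (fun k => ⟨_, fun n t ht x => hS k (φ n) t ht x⟩) hu
  obtain ⟨hcont, hint⟩ := hPDE τ φ c c' u hτ hφ hGal hSP hck
  refine ⟨fun p => u (p.1 - τ) p.2, hGLU τ u hτ hSP hcont hint, fun x => ?_⟩
  show u (τ - τ) x = u₀ x
  rw [sub_self]
  have hle : ∀ η > 0, |u 0 x - u₀ x| ≤ η := by
    intro η hη
    have h1 := hu (η / 2) (half_pos hη)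
    have h2 := hφ.tendsto_atTop.eventually (hconv (η / 2) (half_pos hη))
    obtain ⟨n, hn1, hn2⟩ := (h1.and h2).exists
    have h3 := hn1 0 hmem0 x
    have h4 := hn2 x
    simp only [h0] at h3
    have h5 : |u 0 x - u₀ x| ≤ |u 0 x - tp (φ n) (c0 (φ n)) x| + |tp (φ n) (c0 (φ n)) x - u₀ x| := abs_sub_le _ _ _
    rw [abs_sub_comm] at h3
    linarith
  have h6 : |u 0 x - u₀ x| ≤ 0 := le_of_forall_pos_le_add fun η hη => by simpa using hle η hη
  exact sub_eq_zero.1 (abs_nonpos_iff.1 h6)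

end

end Pool.Agent.Lib.MPb879c5.WP
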