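import Pool.Agent.Lib.MP_b879c5_an.WP.Spec

/-!
# MP_b879c5_an, part WP: module MXS (helper77), maximal solutions
-/

set_option autoImplicit false

namespace Pool.Agent.Lib.MPb879c5.WP

open Set Filter MeasureTheory Topology
open Pool.Agent.Lib.MP_b879c5_an
open scoped ContDiff

noncomputable section

namespace MXSM

lemma ev {T' : ℝ} {U V : ℝ × ℝ → ℝ} (heq : ∀ s ∈ Ioo 0 T', ∀ x, U (s, x) = V (s, x)) {t : ℝ}
    (ht : t ∈ Ioo 0 T') (x : ℝ) : U =ᶠ[𝓝 (t, x)] V := by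
  filter_upwards [(isOpen_Om T').mem_nhds (mem_Om.mpr ht)] with p hp
  exact heq p.1 (mem_Om.mp hp) p.2

lemma evDx {U V : ℝ × ℝ → ℝ} {p : ℝ × ℝ} (h : U =ᶠ[𝓝 p] V) : Dx U =ᶠ[𝓝 p] Dx V := by
  refine (Filter.EventuallyEq.fderiv (𝕜 := ℝ) h).mono fun q hq => ?_
  unfold Dx
  rw [hq]

lemma evDt {U V : ℝ × ℝ → ℝ} {p : ℝ × ℝ} (h : U =ᶠ[𝓝 p] V) : Dt U =ᶠ[𝓝 p] Dt V := by
  refine (Filter.EventuallyEq.fderiv (𝕜 := ℝ) h).mono fun q hq => ?_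
  unfold Dt
  rw [hq]

lemma sol_of_local {T : ℝ} {U : ℝ × ℝ → ℝ} (h : ∀ t ∈ Ioo 0 T, ∃ (T' : ℝ) (V : ℝ × ℝ → ℝ),
    Sol T' V ∧ t < T' ∧ ∀ s ∈ Ioo 0 T', ∀ x, U (s, x) = V (s, x)) : Sol T U := by
  constructor
  · intro p hp
    have hp' : p.1 ∈ Ioo 0 T := mem_Om.mp hp
    obtain ⟨T', V, hV, htT, heq⟩ := h p.1 hp'
    have h1 : ContDiffAt ℝ ∞ V (p.1, p.2) :=
      hV.sm.contDiffAt ((isOpen_Om T').mem_nhds (mem_Om.mpr ⟨hp'.1, htT⟩))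
    exact (h1.congr_of_eventuallyEq (ev heq ⟨hp'.1, htT⟩ p.2)).contDiffWithinAt
  · intro t ht x
    obtain ⟨T', V, hV, htT, heq⟩ := h t ht
    rw [heq t ⟨ht.1, htT⟩, heq t ⟨ht.1, htT⟩, hV.per t ⟨ht.1, htT⟩]
  · intro t ht x
    obtain ⟨T', V, hV, htT, heq⟩ := h t ht
    have e0 := ev heq ⟨ht.1, htT⟩ x
    have e1 := evDx e0
    have e3 := evDx (evDx e1)
    have e4 := evDt e0
    rw [e4.eq_of_nhds, e3.eq_of_nhds, e1.eq_of_nhds, e0.eq_of_nhds]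
    exact hV.pde t ⟨ht.1, htT⟩ x

lemma slice {T : ℝ} {U : ℝ × ℝ → ℝ} (h : Sol T U) {t : ℝ} (ht : t ∈ Ioo 0 T) :
    SP (fun x => U (t, x)) := by
  constructor
  · have h1 : ContDiffOn ℝ ∞ (fun x : ℝ => U (t, x)) univ := by
      have h2 : ContDiffOn ℝ ∞ (fun x : ℝ => ((t, x) : ℝ × ℝ)) univ :=
        (contDiff_const.prodMk contDiff_id).contDiffOn
      exact h.sm.comp h2 (fun x _ => mem_Om.mpr ht)
    exact contDiffOn_univ.1 h1
  · intro x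
    exact h.per t ht x

end MXSM

open MXSM

theorem specMXS (hU : SpecUNQ) (hA : SpecAPR) (hS : SpecSHF) : SpecMXS := by
  classical
  intro hLE u₀ hSP hBd
  obtain ⟨hS1, hS2, hS3⟩ := hS
  obtain ⟨δ, hδ, hLoc⟩ := hLE (En 0 u₀ + En 3 u₀)
  obtain ⟨U1, hU1, hU1δ⟩ := hLoc u₀ hSP le_rfl
  obtain ⟨B, hB⟩ := hBd δ hδ ⟨U1, hU1, hU1δ⟩
  let S : Set ℝ := {T | δ < T ∧ ∃ U : ℝ × ℝ → ℝ, Sol T U ∧ ∀ x, U (δ, x) = u₀ x}
  have hmem : 2 * δ ∈ S := ⟨by linarith, U1, hU1, hU1δ⟩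
  have hbdd : BddAbove S := by
    refine ⟨B, ?_⟩
    rintro T ⟨h1, U, h2, h3⟩
    exact hB T U h1 h2 h3
  obtain ⟨Ts, hTs⟩ : ∃ Ts : ℝ, Ts = sSup S := ⟨_, rfl⟩
  have h2δ : 2 * δ ≤ Ts := by
    rw [hTs]
    exact le_csSup hbdd hmem
  have hδT : δ < Ts := by linarith
  -- the solution
  let P : ℝ → (ℝ × ℝ → ℝ) → ℝ → Prop := fun t V b =>
    t < b ∧ δ < b ∧ Sol b V ∧ ∀ x, V (δ, x) = u₀ x
  let U : ℝ × ℝ → ℝ := fun p => if h : ∃ V b, P p.1 V b then h.choose p else 0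
  have huniq : ∀ (b : ℝ) (V : ℝ × ℝ → ℝ), δ < b → Sol b V → (∀ x, V (δ, x) = u₀ x) →
      ∀ s ∈ Ioo 0 b, ∀ x, U (s, x) = V (s, x) := by
    intro b V hb hV hVδ s hs x
    have hex : ∃ V b, P (s, x).1 V b := ⟨V, b, hs.2, hb, hV, hVδ⟩
    have hval : U (s, x) = hex.choose (s, x) := dif_pos hex
    rw [hval]
    obtain ⟨b', h1, h2, h3, h4⟩ := hex.choose_spec
    have h1' : s < b' := h1
    have r1 := hS1 b (min b b') V hV (min_le_left _ _)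
    have r2 := hS1 b' (min b b') hex.choose h3 (min_le_right _ _)
    exact hU (min b b') hex.choose V δ r2 r1 ⟨hδ, lt_min hb h2⟩
      (fun x => by rw [h4 x, hVδ x]) s ⟨hs.1, lt_min hs.2 h1'⟩ x
  have hSol : Sol Ts U := by
    apply sol_of_local
    intro t ht
    have ht2 := ht.2
    rw [hTs] at ht2
    obtain ⟨b, ⟨hb1, V, hV, hVδ⟩, hb2⟩ := exists_lt_of_lt_csSup ⟨_, hmem⟩ ht2
    exact ⟨b, V, hV, hb2, huniq b V hb1 hV hVδ⟩
  have hUδ : ∀ x, U (δ, x) = u₀ x := by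
    intro x
    rw [huniq (2 * δ) U1 (by linarith) hU1 hU1δ δ ⟨hδ, by linarith⟩ x, hU1δ x]
  refine ⟨δ, hδ, Ts, hδT, U, hSol, hUδ, ?_⟩
  by_contra hnb
  obtain ⟨R, t₂, ht₂, hR⟩ := hA Ts U (by linarith) hSol hnb
  obtain ⟨τ, hτ, hLocR⟩ := hLE R
  obtain ⟨t, ht1, ht2, ht3, ht4⟩ : ∃ t, t₂ ≤ t ∧ t < Ts ∧ Ts - τ < t ∧ δ < t := by
    refine ⟨max t₂ (max (Ts - τ / 2) ((δ + Ts) / 2)), le_max_left _ _, ?_, ?_, ?_⟩
    · exact max_lt ht₂.2 (max_lt (by linarith) (by linarith))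
    · exact lt_of_lt_of_le (by linarith) ((le_max_left _ _).trans (le_max_right _ _))
    · exact lt_of_lt_of_le (by linarith) ((le_max_right _ _).trans (le_max_right _ _))
  have ht0 : 0 < t := hδ.trans ht4
  obtain ⟨W, hW, hWt⟩ := hLocR (fun x => U (t, x)) (slice hSol ⟨ht0, ht2⟩) (hR t ⟨ht1, ht2⟩)
  -- the general step
  have key : ∀ (h T₂ : ℝ) (V : ℝ × ℝ → ℝ), Sol T₂ V → 0 ≤ h → h < t → Ts < h + T₂ →
      (∀ x, V (t - h, x) = U (t, x)) → False := by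
    intro h T₂ V hV h0 hht hT₂ hVt
    have r1 := hS1 T₂ (Ts - h) V hV (by linarith)
    have r2 := hS2 Ts h U hSol h0
    have r3 := hU (Ts - h) V (fun p => U (p.1 + h, p.2)) (t - h) r1 r2
      ⟨by linarith, by linarith⟩ (by
        intro x
        simp only [sub_add_cancel]
        exact hVt x)
    have r4 := hS3 Ts T₂ h U V hSol hV h0 (by linarith) hT₂.le (by
      intro s hs1 hs2 x
      have := r3 (s - h) ⟨by linarith, by linarith⟩ x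
      simp only [sub_add_cancel] at this
      exact this.symm)
    have r5 : h + T₂ ∈ S := by
      refine ⟨by linarith, _, r4, ?_⟩
      intro x
      simp only
      rw [if_pos hδT]
      exact hUδ x
    have r6 := le_csSup hbdd r5
    rw [← hTs] at r6
    linarith
  rcases le_or_gt τ t with hc | hc
  · refine key (t - τ) (2 * τ) W hW (by linarith) (by linarith) (by linarith) ?_
    intro x
    rw [sub_sub_cancel]
    exact hWt x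
  · refine key 0 (2 * τ - (τ - t)) (fun p => W (p.1 + (τ - t), p.2))
      (hS2 (2 * τ) (τ - t) W hW (by linarith)) le_rfl ht0 (by linarith) ?_
    intro x
    simp only [sub_zero, add_sub_cancel]
    exact hWt x

end

end Pool.Agent.Lib.MPb879c5.WP
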