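import Pool.Agent.Lib.MP_b879c5_an.WP.SpecG

/-!
Well-posedness for `u_t = u_xxx + u_x^2 + u^2` (MP_b879c5_an), module PDE: the limit of the Galerkin solutions
satisfies the integrated equation.
-/

set_option autoImplicit false

namespace Pool.Agent.Lib.MPb879c5.WP

open Set Filter MeasureTheory Topology
open Pool.Agent.Lib.MP_b879c5_an
open scoped ContDiff

noncomputable section

namespace PDEM

/-- Derivatives of trigonometric polynomials. -/
lemma itp (htb : ∀ j : ℕ, ContDiff ℝ ∞ (tb j)) (N : ℕ) (c : Fin (2 * N + 1) → ℝ) (k : ℕ) (x : ℝ) :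
    iteratedDeriv k (tp N c) x = ∑ j, c j * iteratedDeriv k (tb j) x := by
  have h : tp N c = fun z => ∑ j : Fin (2 * N + 1), (fun z => c j * tb j z) z := rfl
  rw [h, iteratedDeriv_fun_sum]
  · refine Finset.sum_congr rfl fun j _ => ?_
    exact iteratedDeriv_const_mul_field (c j) _
  · intro i _
    exact (contDiff_const.mul ((htb i).of_le (mod_cast le_top))).contDiffAt

/-- Joint continuity at the Galerkin level. -/
lemma cont_itp (htb : ∀ j : ℕ, ContDiff ℝ ∞ (tb j)) {N : ℕ} {τ : ℝ} {c : ℝ → Fin (2 * N + 1) → ℝ}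
    (hc : ContinuousOn c (Icc (-τ) τ)) (k : ℕ) :
    ContinuousOn (fun p : ℝ × ℝ => iteratedDeriv k (tp N (c p.1)) p.2) (Icc (-τ) τ ×ˢ univ) := by
  simp only [itp htb]
  refine continuousOn_finsetSum _ fun j _ => ?_
  refine ContinuousOn.mul ?_ ?_
  · have h1 : ContinuousOn (fun t => c t j) (Icc (-τ) τ) := continuousOn_pi.1 hc j
    exact h1.comp continuousOn_fst fun p hp => hp.1
  · have h2 : Continuous (iteratedDeriv k (tb j)) := (htb j).continuous_iteratedDeriv k (mod_cast le_top)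
    exact (h2.comp continuous_snd).continuousOn

/-- Clamping the time to `[-τ, τ]`. -/
def cl (τ r : ℝ) : ℝ := max (-τ) (min r τ)

lemma cl_mem {τ : ℝ} (hτ : 0 < τ) (r : ℝ) : cl τ r ∈ Icc (-τ) τ :=
  ⟨le_max_left _ _, max_le (by linarith) (min_le_right _ _)⟩

lemma cl_eq {τ r : ℝ} (hr : r ∈ Icc (-τ) τ) : cl τ r = r := by
  unfold cl
  rw [min_eq_left hr.2, max_eq_right hr.1]

lemma cl_cont (τ : ℝ) : Continuous (cl τ) := by
  unfold cl
  fun_prop

/-- All derivatives in `x` are jointly continuous on the strip. -/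
def JC (τ : ℝ) (v : ℝ → ℝ → ℝ) : Prop :=
  ∀ k : ℕ, ContinuousOn (fun p : ℝ × ℝ => iteratedDeriv k (v p.1) p.2) (Icc (-τ) τ ×ˢ univ)

lemma contFo {τ : ℝ} (hτ : 0 < τ) {v : ℝ → ℝ → ℝ} (hv : JC τ v) :
    Continuous (Function.uncurry fun r x => Fo (v (cl τ r)) x) := by
  have h : ∀ k, Continuous (fun p : ℝ × ℝ => iteratedDeriv k (v (cl τ p.1)) p.2) := by
    intro k
    have hc := cl_cont τ
    exact (hv k).comp_continuous (f := fun p : ℝ × ℝ => (cl τ p.1, p.2)) (by fun_prop)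
      (fun p => ⟨cl_mem hτ _, mem_univ _⟩)
  have h0 := h 0
  have h1 := h 1
  have h3 := h 3
  simp only [iteratedDeriv_zero, iteratedDeriv_one] at h0 h1
  exact (h3.add (h1.pow 2)).add (h0.pow 2)

lemma contx {τ : ℝ} {v : ℝ → ℝ → ℝ} (hv : JC τ v) {t : ℝ} (ht : t ∈ Icc (-τ) τ) : Continuous (v t) := by
  have h := hv 0
  simp only [iteratedDeriv_zero] at h
  exact h.comp_continuous (f := fun x : ℝ => (t, x)) (by fun_prop) (fun p => ⟨ht, mem_univ _⟩)

lemma bd {τ : ℝ} {u : ℝ → ℝ → ℝ} (hu : JC τ u) :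
    ∃ K, 0 ≤ K ∧ ∀ t ∈ Icc (-τ) τ, ∀ x ∈ Icc 0 (2 * Real.pi), |u t x| ≤ K ∧ |deriv (u t) x| ≤ K := by
  have hS : IsCompact (Icc (-τ) τ ×ˢ Icc 0 (2 * Real.pi)) := isCompact_Icc.prod isCompact_Icc
  obtain ⟨K0, h0⟩ := hS.exists_bound_of_continuousOn
    ((hu 0).mono (prod_mono_right (subset_univ (Icc 0 (2 * Real.pi)))))
  obtain ⟨K1, h1⟩ := hS.exists_bound_of_continuousOn
    ((hu 1).mono (prod_mono_right (subset_univ (Icc 0 (2 * Real.pi)))))
  refine ⟨max 0 (max K0 K1), le_max_left _ _, fun t ht x hx => ⟨?_, ?_⟩⟩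
  · have := h0 (t, x) ⟨ht, hx⟩
    simp only [iteratedDeriv_zero, Real.norm_eq_abs] at this
    exact this.trans ((le_max_left _ _).trans (le_max_right _ _))
  · have := h1 (t, x) ⟨ht, hx⟩
    simp only [iteratedDeriv_one, Real.norm_eq_abs] at this
    exact this.trans ((le_max_right _ _).trans (le_max_right _ _))

/-- Uniform convergence of the right-hand sides. -/
lemma foC {τ : ℝ} {u : ℝ → ℝ → ℝ} {v : ℕ → ℝ → ℝ → ℝ} (hu : JC τ u)
    (hl : ∀ k : ℕ, ∀ η > 0, ∀ᶠ n in atTop, ∀ t ∈ Icc (-τ) τ, ∀ x,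
      |iteratedDeriv k (v n t) x - iteratedDeriv k (u t) x| ≤ η) :
    ∀ η > 0, ∀ᶠ n in atTop, ∀ t ∈ Icc (-τ) τ, ∀ x ∈ Icc 0 (2 * Real.pi), |Fo (v n t) x - Fo (u t) x| ≤ η := by
  obtain ⟨K, hK0, hK⟩ := bd hu
  intro η hη
  have hδ : 0 < min 1 (η / (4 * K + 3)) := by positivity
  set δ := min 1 (η / (4 * K + 3)) with hδd
  have hδ1 : δ ≤ 1 := min_le_left _ _
  have hδ2 : δ * (4 * K + 3) ≤ η := by
    have : δ ≤ η / (4 * K + 3) := min_le_right _ _
    rwa [le_div_iff₀ (by positivity)] at this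
  filter_upwards [hl 0 δ hδ, hl 1 δ hδ, hl 3 δ hδ] with n h0 h1 h3 t ht x hx
  have a0 := h0 t ht x
  have a1 := h1 t ht x
  have a3 := h3 t ht x
  simp only [iteratedDeriv_zero, iteratedDeriv_one] at a0 a1
  obtain ⟨b0, b1⟩ := hK t ht x hx
  have hsq : ∀ a b : ℝ, |a - b| ≤ δ → |b| ≤ K → |a ^ 2 - b ^ 2| ≤ δ * (2 * K + 1) := by
    intro a b hab hb
    have e : a ^ 2 - b ^ 2 = (a - b) * ((a - b) + 2 * b) := by ring
    rw [e, abs_mul]
    refine mul_le_mul hab ?_ (abs_nonneg _) hδ.le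
    refine (abs_add_le _ _).trans ?_
    rw [abs_mul, abs_two]
    linarith
  have c0 := hsq _ _ a0 b0
  have c1 := hsq _ _ a1 b1
  have e : Fo (v n t) x - Fo (u t) x = (iteratedDeriv 3 (v n t) x - iteratedDeriv 3 (u t) x)
      + (deriv (v n t) x ^ 2 - deriv (u t) x ^ 2) + (v n t x ^ 2 - u t x ^ 2) := by
    unfold Fo
    ring
  rw [e]
  refine (abs_add_three _ _ _).trans ?_
  nlinarith

lemma contI {G : ℝ → ℝ → ℝ} (hG : Continuous (Function.uncurry G)) (s t : ℝ) :
    Continuous fun x => ∫ r in s..t, G r x :=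
  intervalIntegral.continuous_parametric_intervalIntegral_of_continuous' (f := fun x r => G r x)
    (hG.comp continuous_swap) s t

/-- Splitting of the tested equation (Fubini). -/
lemma split (a b : ℝ → ℝ) (G : ℝ → ℝ → ℝ) (P : ℝ → ℝ) (ha : Continuous a) (hb : Continuous b)
    (hG : Continuous (Function.uncurry G)) (hP : Continuous P) (s t w : ℝ) :
    (∫ x in (0)..w, (a x - b x - ∫ r in s..t, G r x) * P x)
      = (∫ x in (0)..w, a x * P x) - (∫ x in (0)..w, b x * P x) - ∫ r in s..t, ∫ x in (0)..w, G r x * P x := by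
  have hGP : Continuous (Function.uncurry fun r x => G r x * P x) := hG.mul (hP.comp continuous_snd)
  have hsw : (∫ r in s..t, ∫ x in (0)..w, G r x * P x) = ∫ x in (0)..w, ∫ r in s..t, G r x * P x := by
    apply intervalIntegral_intervalIntegral_swap
    exact (hGP.continuousOn.integrableOn_compact (isCompact_uIcc.prod isCompact_uIcc)).mono_set
      (prod_mono uIoc_subset_uIcc uIoc_subset_uIcc)
  rw [hsw]
  have hI : Continuous fun x => ∫ r in s..t, G r x :=
    intervalIntegral.continuous_parametric_intervalIntegral_of_continuous' (f := fun x r => G r x)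
      (hG.comp continuous_swap) s t
  simp only [intervalIntegral.integral_mul_const]
  have h1 : (∫ x in (0)..w, (a x * P x - b x * P x)) = (∫ x in (0)..w, a x * P x) - ∫ x in (0)..w, b x * P x :=
    intervalIntegral.integral_sub ((ha.mul hP).intervalIntegrable _ _) ((hb.mul hP).intervalIntegrable _ _)
  have h2 : (∫ x in (0)..w, ((a x * P x - b x * P x) - (∫ r in s..t, G r x) * P x))
      = (∫ x in (0)..w, (a x * P x - b x * P x)) - ∫ x in (0)..w, (∫ r in s..t, G r x) * P x :=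
    intervalIntegral.integral_sub (((ha.mul hP).sub (hb.mul hP)).intervalIntegrable _ _)
      ((hI.mul hP).intervalIntegrable _ _)
  rw [← h1, ← h2]
  refine intervalIntegral.integral_congr fun x _ => ?_
  ring

/-- Comparison of the tested equations for two families. -/
lemma cmp {a b a' b' P : ℝ → ℝ} {G G' : ℝ → ℝ → ℝ} (ha : Continuous a) (hb : Continuous b) (ha' : Continuous a')
    (hb' : Continuous b') (hG : Continuous (Function.uncurry G)) (hG' : Continuous (Function.uncurry G'))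
    (hP : Continuous P) {s t w η Q : ℝ} (hw : 0 < w) (hη : 0 < η) (hQ : ∀ x ∈ Icc 0 w, ‖P x‖ ≤ Q)
    (e1 : ∀ x, |a' x - a x| ≤ η) (e2 : ∀ x, |b' x - b x| ≤ η) (e3 : ∀ r, ∀ x ∈ Icc 0 w, |G' r x - G r x| ≤ η)
    (hz : (∫ x in (0)..w, (a' x - b' x - ∫ r in s..t, G' r x) * P x) = 0) :
    |∫ x in (0)..w, (a x - b x - ∫ r in s..t, G r x) * P x| ≤ η * ((2 + |t - s|) * Q * w) := by
  have hI : Continuous fun x => ∫ r in s..t, G r x :=
    intervalIntegral.continuous_parametric_intervalIntegral_of_continuous' (f := fun x r => G r x)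
      (hG.comp continuous_swap) s t
  have hI' : Continuous fun x => ∫ r in s..t, G' r x :=
    intervalIntegral.continuous_parametric_intervalIntegral_of_continuous' (f := fun x r => G' r x)
      (hG'.comp continuous_swap) s t
  have hsub : (∫ x in (0)..w, ((a x - b x - ∫ r in s..t, G r x) * P x - (a' x - b' x - ∫ r in s..t, G' r x) * P x))
      = (∫ x in (0)..w, (a x - b x - ∫ r in s..t, G r x) * P x)
        - ∫ x in (0)..w, (a' x - b' x - ∫ r in s..t, G' r x) * P x :=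
    intervalIntegral.integral_sub ((((ha.sub hb).sub hI).mul hP).intervalIntegrable _ _)
      ((((ha'.sub hb').sub hI').mul hP).intervalIntegrable _ _)
  rw [hz, sub_zero] at hsub
  rw [← hsub, ← Real.norm_eq_abs]
  refine (intervalIntegral.norm_integral_le_of_norm_le_const (C := η * ((2 + |t - s|) * Q)) ?_).trans ?_
  · intro x hx
    rw [uIoc_of_le hw.le] at hx
    have hx' : x ∈ Icc 0 w := ⟨hx.1.le, hx.2⟩
    have d1 := e1 x
    have d2 := e2 x
    have c1 : Continuous fun r => G r x := hG.comp (by fun_prop : Continuous fun r : ℝ => (r, x))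
    have c2 : Continuous fun r => G' r x := hG'.comp (by fun_prop : Continuous fun r : ℝ => (r, x))
    have d3 : |(∫ r in s..t, G' r x) - ∫ r in s..t, G r x| ≤ η * |t - s| := by
      rw [← intervalIntegral.integral_sub (c2.intervalIntegrable _ _) (c1.intervalIntegrable _ _),
        ← Real.norm_eq_abs]
      exact intervalIntegral.norm_integral_le_of_norm_le_const fun r _ => e3 r x hx'
    rw [← sub_mul, norm_mul]
    have d4 := hQ x hx'
    have d5 : ‖a x - b x - (∫ r in s..t, G r x) - (a' x - b' x - ∫ r in s..t, G' r x)‖ ≤ η * (2 + |t - s|) := by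
      rw [Real.norm_eq_abs]
      rw [abs_le] at d1 d2 d3 ⊢
      constructor <;> nlinarith
    calc _ ≤ (η * (2 + |t - s|)) * Q := mul_le_mul d5 d4 (norm_nonneg _) (by positivity)
      _ = _ := by ring
  · rw [sub_zero, abs_of_pos hw]
    exact le_of_eq (by ring)

/-- A number bounded by all small multiples of a constant vanishes. -/
lemma eq_zero_of_small {W C : ℝ} (hC : 0 ≤ C) (h : ∀ η > 0, |W| ≤ η * C) : W = 0 := by
  by_contra hne
  have hpos : 0 < |W| := abs_pos.2 hne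
  have h1 := h (|W| / (2 * (C + 1))) (by positivity)
  have h2 : |W| / (2 * (C + 1)) * C ≤ |W| / 2 := by
    rw [div_mul_eq_mul_div, div_le_div_iff₀ (by positivity) (by norm_num)]
    nlinarith
  linarith

lemma tp_cont (htb : ∀ j : ℕ, ContDiff ℝ ∞ (tb j)) (N : ℕ) (a : Fin (2 * N + 1) → ℝ) : Continuous (tp N a) := by
  unfold tp
  exact continuous_finsetSum _ fun j _ => continuous_const.mul (htb j).continuous

lemma jc_gal (htb : ∀ j : ℕ, ContDiff ℝ ∞ (tb j)) {N : ℕ} {τ : ℝ} {c c' : ℝ → Fin (2 * N + 1) → ℝ}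
    (hg : Gal N τ c c') : JC τ (fun r => tp N (c r)) := fun k =>
  cont_itp htb (fun t ht => (hg.der t ht).continuousAt.continuousWithinAt) k

/-- The tested Galerkin equation, integrated in time. -/
lemma ftc (htb : ∀ j : ℕ, ContDiff ℝ ∞ (tb j)) {N : ℕ} {τ : ℝ} (hτ : 0 < τ) {c c' : ℝ → Fin (2 * N + 1) → ℝ}
    (hg : Gal N τ c c') (ψ : Fin (2 * N + 1) → ℝ) {s t : ℝ} (hs : s ∈ Icc (-τ) τ) (ht : t ∈ Icc (-τ) τ) :
    (∫ x in (0)..(2 * Real.pi), tp N (c t) x * tp N ψ x) - (∫ x in (0)..(2 * Real.pi), tp N (c s) x * tp N ψ x)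
      = ∫ r in s..t, ∫ x in (0)..(2 * Real.pi), Fo (tp N (c (cl τ r))) x * tp N ψ x := by
  have hP := tp_cont htb N ψ
  have hlin : ∀ a : Fin (2 * N + 1) → ℝ, (∫ x in (0)..(2 * Real.pi), tp N a x * tp N ψ x)
      = ∑ j, a j * ∫ x in (0)..(2 * Real.pi), tb j x * tp N ψ x := by
    intro a
    have e : (fun x => tp N a x * tp N ψ x) = fun x => ∑ j, a j * (tb j x * tp N ψ x) := by
      funext x
      have : tp N a x = ∑ j, a j * tb j x := rfl
      rw [this, Finset.sum_mul]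
      exact Finset.sum_congr rfl fun j _ => by ring
    rw [e, intervalIntegral.integral_finsetSum]
    · simp only [intervalIntegral.integral_const_mul]
    · intro j _
      exact (continuous_const.mul ((htb j).continuous.mul hP)).intervalIntegrable _ _
  have hd : ∀ r ∈ uIcc s t, HasDerivAt (fun r => ∫ x in (0)..(2 * Real.pi), tp N (c r) x * tp N ψ x)
      (∫ x in (0)..(2 * Real.pi), Fo (tp N (c (cl τ r))) x * tp N ψ x) r := by
    intro r hr
    have hr' : r ∈ Icc (-τ) τ := uIcc_subset_Icc hs ht hr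
    rw [cl_eq hr', ← hg.eqn r hr' ψ]
    simp only [hlin]
    exact HasDerivAt.fun_sum fun j _ => ((hasDerivAt_pi.1 (hg.der r hr')) j).mul_const _
  have hG := contFo hτ (jc_gal htb hg)
  have hGP : Continuous (Function.uncurry fun r x => Fo (tp N (c (cl τ r))) x * tp N ψ x) :=
    hG.mul (hP.comp continuous_snd)
  have hB : Continuous fun r => ∫ x in (0)..(2 * Real.pi), Fo (tp N (c (cl τ r))) x * tp N ψ x :=
    intervalIntegral.continuous_parametric_intervalIntegral_of_continuous' hGP 0 (2 * Real.pi)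
  exact (intervalIntegral.integral_eq_sub_of_hasDerivAt hd (hB.intervalIntegrable _ _)).symm

/-- The right-hand side is periodic. -/
lemma foper {f : ℝ → ℝ} (hf : SP f) (x : ℝ) : Fo f (x + 2 * Real.pi) = Fo f x := by
  have hp := hf.per
  have hk : ∀ k, iteratedDeriv k f (x + 2 * Real.pi) = iteratedDeriv k f x := by
    intro k
    have h1 := iteratedDeriv_comp_add_const k f (2 * Real.pi)
    have h2 : (fun z => f (z + 2 * Real.pi)) = f := funext hp
    rw [h2] at h1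
    exact (congrFun h1 x).symm
  have k1 := hk 1
  rw [iteratedDeriv_one] at k1
  unfold Fo
  rw [hk 3, k1, hp x]

/-- The limit is orthogonal to all trigonometric polynomials. -/
lemma orth (htb : ∀ j : ℕ, ContDiff ℝ ∞ (tb j))
    (hext : ∀ (M N : ℕ) (φ : Fin (2 * M + 1) → ℝ), M ≤ N → ∃ ψ : Fin (2 * N + 1) → ℝ, tp M φ = tp N ψ)
    {τ : ℝ} (hτ : 0 < τ) {φ : ℕ → ℕ} (hφ : StrictMono φ) {c c' : (n : ℕ) → ℝ → Fin (2 * n + 1) → ℝ}
    (hg : ∀ n, Gal n τ (c n) (c' n)) {u : ℝ → ℝ → ℝ} (hcont : JC τ u)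
    (hl : ∀ k : ℕ, ∀ η > 0, ∀ᶠ n in atTop, ∀ t ∈ Icc (-τ) τ, ∀ x,
      |iteratedDeriv k (tp (φ n) (c (φ n) t)) x - iteratedDeriv k (u t) x| ≤ η)
    {s t : ℝ} (hs : s ∈ Icc (-τ) τ) (ht : t ∈ Icc (-τ) τ) (M : ℕ) (ψ : Fin (2 * M + 1) → ℝ) :
    (∫ x in (0)..(2 * Real.pi), (u t x - u s x - ∫ r in s..t, Fo (u (cl τ r)) x) * tp M ψ x) = 0 := by
  have hG := contFo hτ hcont
  have hut := contx hcont ht
  have hus := contx hcont hs
  have hP := tp_cont htb M ψ
  obtain ⟨Q, hQ⟩ := (isCompact_Icc (a := (0 : ℝ)) (b := 2 * Real.pi)).exists_bound_of_continuousOn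
    hP.continuousOn
  have hpi := Real.two_pi_pos
  have hQ0 : 0 ≤ Q := (norm_nonneg _).trans (hQ 0 ⟨le_rfl, hpi.le⟩)
  refine eq_zero_of_small (C := (2 + |t - s|) * Q * (2 * Real.pi)) (by positivity) fun η hη => ?_
  have hFo := foC (v := fun n t => tp (φ n) (c (φ n) t)) hcont hl η hη
  have hge : ∀ᶠ n in atTop, M ≤ φ n := hφ.tendsto_atTop.eventually_ge_atTop M
  obtain ⟨n, h0, hF, hM⟩ := ((hl 0 η hη).and (hFo.and hge)).exists
  obtain ⟨ψ', hψ'⟩ := hext M (φ n) ψ hM
  have hgn := hg (φ n)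
  have hjn := jc_gal htb hgn
  have hGn := contFo hτ hjn
  have hvt := contx hjn ht
  have hvs := contx hjn hs
  have hz : (∫ x in (0)..(2 * Real.pi), (tp (φ n) (c (φ n) t) x - tp (φ n) (c (φ n) s) x
      - ∫ r in s..t, Fo (tp (φ n) (c (φ n) (cl τ r))) x) * tp M ψ x) = 0 := by
    rw [split _ _ (fun r x => Fo (tp (φ n) (c (φ n) (cl τ r))) x) _ hvt hvs hGn hP s t (2 * Real.pi), hψ',
      ftc htb hτ hgn ψ' hs ht, sub_self]
  refine cmp (a := u t) (b := u s) (a' := tp (φ n) (c (φ n) t)) (b' := tp (φ n) (c (φ n) s))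
    (G := fun r x => Fo (u (cl τ r)) x) (G' := fun r x => Fo (tp (φ n) (c (φ n) (cl τ r))) x)
    hut hus hvt hvs hG hGn hP hpi hη hQ ?_ ?_ ?_ hz
  · intro x
    have e1 := h0 t ht x
    simp only [iteratedDeriv_zero] at e1
    exact e1
  · intro x
    have e2 := h0 s hs x
    simp only [iteratedDeriv_zero] at e2
    exact e2
  · intro r x hx
    exact hF _ (cl_mem hτ r) x hx

/-- Uniform limits are jointly continuous. -/
lemma jcLim (htb : ∀ j : ℕ, ContDiff ℝ ∞ (tb j)) {τ : ℝ} {φ : ℕ → ℕ} {c c' : (n : ℕ) → ℝ → Fin (2 * n + 1) → ℝ}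
    (hg : ∀ n, Gal n τ (c n) (c' n)) {u : ℝ → ℝ → ℝ}
    (hl : ∀ k : ℕ, ∀ η > 0, ∀ᶠ n in atTop, ∀ t ∈ Icc (-τ) τ, ∀ x,
      |iteratedDeriv k (tp (φ n) (c (φ n) t)) x - iteratedDeriv k (u t) x| ≤ η) : JC τ u := by
  intro k
  have hT : TendstoUniformlyOn (fun n (p : ℝ × ℝ) => iteratedDeriv k (tp (φ n) (c (φ n) p.1)) p.2)
      (fun p : ℝ × ℝ => iteratedDeriv k (u p.1) p.2) atTop (Icc (-τ) τ ×ˢ univ) := by
    rw [Metric.tendstoUniformlyOn_iff]
    intro ε hε
    filter_upwards [hl k (ε / 2) (by positivity)] with n hn p hp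
    rw [dist_comm, Real.dist_eq]
    linarith [hn p.1 hp.1 p.2]
  refine hT.continuousOn (Filter.Eventually.frequently (Filter.Eventually.of_forall fun n => ?_))
  exact jc_gal htb (hg (φ n)) k

/-- Conclusion from completeness. -/
lemma concl {τ : ℝ} (hτ : 0 < τ) {u : ℝ → ℝ → ℝ} (hu : ∀ t ∈ Icc (-τ) τ, SP (u t)) (hcont : JC τ u)
    {s t : ℝ} (hs : s ∈ Icc (-τ) τ) (ht : t ∈ Icc (-τ) τ)
    (hTRD : ∀ h : ℝ → ℝ, Continuous h → (∀ x, h (x + 2 * Real.pi) = h x) →
      (∀ (N : ℕ) (φ : Fin (2 * N + 1) → ℝ), (∫ x in (0)..(2 * Real.pi), h x * tp N φ x) = 0) → ∀ x, h x = 0)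
    (horth : ∀ (M : ℕ) (ψ : Fin (2 * M + 1) → ℝ),
      (∫ x in (0)..(2 * Real.pi), (u t x - u s x - ∫ r in s..t, Fo (u (cl τ r)) x) * tp M ψ x) = 0) (x : ℝ) :
    u t x - u s x = ∫ r in s..t, Fo (u r) x := by
  have hG := contFo hτ hcont
  have hut := contx hcont ht
  have hus := contx hcont hs
  have hI : Continuous fun x => ∫ r in s..t, Fo (u (cl τ r)) x :=
    contI (G := fun r x => Fo (u (cl τ r)) x) hG s t
  have hper : ∀ x, (u t (x + 2 * Real.pi) - u s (x + 2 * Real.pi) - ∫ r in s..t, Fo (u (cl τ r)) (x + 2 * Real.pi))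
      = u t x - u s x - ∫ r in s..t, Fo (u (cl τ r)) x := by
    intro x
    have hF : ∀ r, Fo (u (cl τ r)) (x + 2 * Real.pi) = Fo (u (cl τ r)) x := fun r => foper (hu _ (cl_mem hτ r)) x
    have hi : (∫ r in s..t, Fo (u (cl τ r)) (x + 2 * Real.pi)) = ∫ r in s..t, Fo (u (cl τ r)) x :=
      intervalIntegral.integral_congr fun r _ => hF r
    rw [hi, (hu t ht).per x, (hu s hs).per x]
  have hcc : Continuous (fun x => u t x - u s x - ∫ r in s..t, Fo (u (cl τ r)) x) := (hut.sub hus).sub hI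
  have hx := hTRD (fun x => u t x - u s x - ∫ r in s..t, Fo (u (cl τ r)) x) hcc hper horth x
  have hc : (∫ r in s..t, Fo (u (cl τ r)) x) = ∫ r in s..t, Fo (u r) x := by
    refine intervalIntegral.integral_congr fun r hr => ?_
    have e := cl_eq (uIcc_subset_Icc hs ht hr)
    change Fo (u (cl τ r)) x = Fo (u r) x
    rw [e]
  rw [← hc]
  exact sub_eq_zero.1 hx

end PDEM

open PDEM in
/-- **PDE.** The limit equation. -/
theorem specPDE (hTRG : SpecTRG) (hTRD : SpecTRD) : SpecPDE := by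
  have htb : ∀ j : ℕ, ContDiff ℝ ∞ (tb j) := fun j => (hTRG.2.2.2.2.1 j).1
  have hext := hTRG.2.2.2.2.2
  intro τ φ c c' u hτ hφ hg hu hl
  have hcont : JC τ u := jcLim htb hg hl
  refine ⟨hcont, ?_⟩
  intro s hs t ht x
  have ho := fun (M : ℕ) (ψ : Fin (2 * M + 1) → ℝ) => orth htb hext hτ hφ hg hcont hl hs ht M ψ
  exact concl hτ hu hcont hs ht hTRD ho x

end

end Pool.Agent.Lib.MPb879c5.WP
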