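import Pool.Agent.Lib.MP_b879c5_an.WP.Spec

/-!
# Module SHF: restriction, time shift, gluing
-/

set_option autoImplicit false

namespace Pool.Agent.Lib.MPb879c5.WP

open Set Filter MeasureTheory Topology
open Pool.Agent.Lib.MP_b879c5_an
open scoped ContDiff

noncomputable section

namespace SHFM

/-- a smooth solution near a point -/
structure SA (G : ℝ × ℝ → ℝ) (p : ℝ × ℝ) : Prop where
  sm : ContDiffAt ℝ ∞ G p
  pde : Dt G p = Dx (Dx (Dx G)) p + (Dx G p) ^ 2 + (G p) ^ 2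

theorem Dx_ev {G G' : ℝ × ℝ → ℝ} {p : ℝ × ℝ} (h : G =ᶠ[𝓝 p] G') : Dx G =ᶠ[𝓝 p] Dx G' := by
  filter_upwards [h.fderiv (𝕜 := ℝ)] with q hq
  unfold Dx
  rw [hq]

theorem SA.congr {G G' : ℝ × ℝ → ℝ} {p : ℝ × ℝ} (hG' : SA G' p) (h : G =ᶠ[𝓝 p] G') : SA G p := by
  refine ⟨hG'.sm.congr_of_eventuallyEq h, ?_⟩
  have h1 := Dx_ev h
  have h3 := Dx_ev (Dx_ev h1)
  have h0 : Dt G p = Dt G' p := by
    unfold Dt
    rw [h.fderiv_eq]
  rw [h0, h3.eq_of_nhds, h1.eq_of_nhds, h.eq_of_nhds]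
  exact hG'.pde

theorem shift_eq (G : ℝ × ℝ → ℝ) (c : ℝ) :
    (fun q : ℝ × ℝ => G (q.1 + c, q.2)) = fun q => G (q + ((c, 0) : ℝ × ℝ)) := by
  funext q
  have h1 : q + ((c, 0) : ℝ × ℝ) = (q.1 + c, q.2) := by
    ext <;> simp
  rw [h1]

theorem fd_shift (G : ℝ × ℝ → ℝ) (c : ℝ) (q : ℝ × ℝ) :
    fderiv ℝ (fun q : ℝ × ℝ => G (q.1 + c, q.2)) q = fderiv ℝ G (q.1 + c, q.2) := by
  have h1 : q + ((c, 0) : ℝ × ℝ) = (q.1 + c, q.2) := by
    ext <;> simp
  rw [shift_eq, fderiv_comp_add_right, h1]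

theorem Dx_shift (G : ℝ × ℝ → ℝ) (c : ℝ) :
    Dx (fun q : ℝ × ℝ => G (q.1 + c, q.2)) = fun q => Dx G (q.1 + c, q.2) := by
  funext q
  unfold Dx
  rw [fd_shift]

theorem Dt_shift (G : ℝ × ℝ → ℝ) (c : ℝ) :
    Dt (fun q : ℝ × ℝ => G (q.1 + c, q.2)) = fun q => Dt G (q.1 + c, q.2) := by
  funext q
  unfold Dt
  rw [fd_shift]

theorem SA.shift {G : ℝ × ℝ → ℝ} {c : ℝ} {p : ℝ × ℝ} (hG : SA G (p.1 + c, p.2)) :
    SA (fun q => G (q.1 + c, q.2)) p := by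
  constructor
  · have h1 : ContDiffAt ℝ ∞ (fun q : ℝ × ℝ => (q.1 + c, q.2)) p :=
      (contDiffAt_fst.add contDiffAt_const).prodMk contDiffAt_snd
    exact hG.sm.comp p h1
  · rw [Dt_shift, Dx_shift, Dx_shift, Dx_shift]
    exact hG.pde

theorem sol_iff {T : ℝ} {U : ℝ × ℝ → ℝ} : Sol T U ↔ (∀ p ∈ Om T, SA U p) ∧ Per T U := by
  constructor
  · intro h
    refine ⟨fun p hp => ⟨h.sm.contDiffAt ((isOpen_Om T).mem_nhds hp), ?_⟩, h.per⟩
    exact h.pde p.1 hp.1 p.2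
  · rintro ⟨h1, h2⟩
    refine ⟨fun p hp => (h1 p hp).sm.contDiffWithinAt, h2, fun t ht x => ?_⟩
    exact (h1 (t, x) (mem_Om.mpr ht)).pde

end SHFM

open SHFM in
theorem specSHF : SpecSHF := by
  refine ⟨?_, ?_, ?_⟩
  · intro T T' U hU hT
    rw [sol_iff] at hU ⊢
    refine ⟨fun p hp => hU.1 p ⟨⟨hp.1.1, hp.1.2.trans_le hT⟩, mem_univ _⟩, fun t ht x => ?_⟩
    exact hU.2 t ⟨ht.1, ht.2.trans_le hT⟩ x
  · intro T h U hU hh
    rw [sol_iff] at hU ⊢
    refine ⟨fun p hp => SA.shift (hU.1 _ ⟨⟨?_, ?_⟩, mem_univ _⟩), fun t ht x => ?_⟩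
    · have := hp.1.1
      show 0 < p.1 + h
      linarith
    · have := hp.1.2
      show p.1 + h < T
      linarith
    · exact hU.2 (t + h) ⟨by linarith [ht.1], by linarith [ht.2]⟩ x
  · intro T₁ T₂ h U V hU hV hh hhT hT heq
    rw [sol_iff] at hU hV ⊢
    refine ⟨fun p hp => ?_, fun t ht x => ?_⟩
    · by_cases hp1 : p.1 < T₁
      · refine (hU.1 p ⟨⟨hp.1.1, hp1⟩, mem_univ _⟩).congr ?_
        filter_upwards [(isOpen_Iio.preimage continuous_fst).mem_nhds (show p ∈ Prod.fst ⁻¹' Iio T₁ from hp1)]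
          with q hq
        exact if_pos hq
      · have hhp : h < p.1 := hhT.trans_le (not_lt.mp hp1)
        have h1 : SA (fun q : ℝ × ℝ => V (q.1 + -h, q.2)) p := by
          refine SA.shift (hV.1 _ ⟨⟨?_, ?_⟩, mem_univ _⟩)
          · show 0 < p.1 + -h
            linarith
          · have := hp.1.2
            show p.1 + -h < T₂
            linarith
        refine h1.congr ?_
        filter_upwards [(isOpen_Ioi.preimage continuous_fst).mem_nhds (show p ∈ Prod.fst ⁻¹' Ioi h from hhp)]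
          with q hq
        rw [← sub_eq_add_neg]
        by_cases hq1 : q.1 < T₁
        · rw [if_pos hq1]
          exact heq q.1 hq hq1 q.2
        · rw [if_neg hq1]
    · show (if t < T₁ then U (t, x + 2 * Real.pi) else V (t - h, x + 2 * Real.pi)) =
        if t < T₁ then U (t, x) else V (t - h, x)
      by_cases ht1 : t < T₁
      · rw [if_pos ht1, if_pos ht1]
        exact hU.2 t ⟨ht.1, ht1⟩ x
      · rw [if_neg ht1, if_neg ht1]
        exact hV.2 (t - h) ⟨by linarith [not_lt.mp ht1], by linarith [ht.2]⟩ x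

end

end Pool.Agent.Lib.MPb879c5.WP
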