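import Pool.Agent.Lib.MP_b879c5_an.WP.Spec

/-!
# SOB (MP_b879c5_an): interpolation and Sobolev inequalities on the circle
-/

set_option autoImplicit false

namespace Pool.Agent.Lib.MPb879c5.WP

open Set Filter MeasureTheory Topology
open scoped ContDiff

noncomputable section

namespace SOBM

lemma cont {f : ℝ → ℝ} (hf : SP f) (j : ℕ) : Continuous (iteratedDeriv j f) :=
  hf.sm.continuous_iteratedDeriv j (by exact_mod_cast le_top)

lemma hder {f : ℝ → ℝ} (hf : SP f) (j : ℕ) (x : ℝ) :
    HasDerivAt (iteratedDeriv j f) (iteratedDeriv (j + 1) f x) x := by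
  have h : Differentiable ℝ (iteratedDeriv j f) :=
    hf.sm.differentiable_iteratedDeriv j (by exact_mod_cast WithTop.coe_lt_top _)
  rw [iteratedDeriv_succ]
  exact (h x).hasDerivAt

lemma per {f : ℝ → ℝ} (hf : SP f) (j : ℕ) (x : ℝ) :
    iteratedDeriv j f (x + 2 * Real.pi) = iteratedDeriv j f x := by
  induction j generalizing x with
  | zero => simpa using hf.per x
  | succ j ih =>
    rw [iteratedDeriv_succ]
    have h : deriv (fun y => iteratedDeriv j f (y + 2 * Real.pi)) x =
        deriv (iteratedDeriv j f) (x + 2 * Real.pi) := deriv_comp_add_const _ _ _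
    rw [← h]
    congr 1
    funext y
    exact ih y

lemma cs {a b : ℝ → ℝ} (ha : Continuous a) (hb : Continuous b) :
    (∫ x in (0)..(2 * Real.pi), a x * b x) ^ 2 ≤
      (∫ x in (0)..(2 * Real.pi), a x ^ 2) * ∫ x in (0)..(2 * Real.pi), b x ^ 2 := by
  have h : ∀ t : ℝ, 0 ≤ (∫ x in (0)..(2 * Real.pi), b x ^ 2) * (t * t) +
      (2 * ∫ x in (0)..(2 * Real.pi), a x * b x) * t + ∫ x in (0)..(2 * Real.pi), a x ^ 2 := by
    intro t
    have h1 : 0 ≤ ∫ x in (0)..(2 * Real.pi), (a x + t * b x) ^ 2 :=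
      intervalIntegral.integral_nonneg (by positivity) fun x _ => sq_nonneg _
    have h2 : ∫ x in (0)..(2 * Real.pi), (a x + t * b x) ^ 2 =
        (∫ x in (0)..(2 * Real.pi), b x ^ 2) * (t * t) +
        (∫ x in (0)..(2 * Real.pi), a x * b x) * (2 * t) +
        ∫ x in (0)..(2 * Real.pi), a x ^ 2 := by
      have h3 : ∀ x, (a x + t * b x) ^ 2 = b x ^ 2 * (t * t) + a x * b x * (2 * t) + a x ^ 2 := by
        intro x; ring
      simp only [h3]
      have c1 : IntervalIntegrable (fun x => b x ^ 2 * (t * t)) volume 0 (2 * Real.pi) :=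
        ((hb.pow 2).mul continuous_const).intervalIntegrable _ _
      have c2 : IntervalIntegrable (fun x => a x * b x * (2 * t)) volume 0 (2 * Real.pi) :=
        ((ha.mul hb).mul continuous_const).intervalIntegrable _ _
      have c3 : IntervalIntegrable (fun x => a x ^ 2) volume 0 (2 * Real.pi) :=
        (ha.pow 2).intervalIntegrable _ _
      rw [intervalIntegral.integral_add (c1.add c2) c3, intervalIntegral.integral_add c1 c2,
        intervalIntegral.integral_mul_const, intervalIntegral.integral_mul_const]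
    rw [h2] at h1
    linarith
  have h4 := discrim_le_zero h
  unfold discrim at h4
  nlinarith

/-- log-convexity of the energies -/
lemma lc {f : ℝ → ℝ} (hf : SP f) (j : ℕ) : En (j + 1) f ^ 2 ≤ En j f * En (j + 2) f := by
  have h1 : ∫ x in (0)..(2 * Real.pi), iteratedDeriv j f x * iteratedDeriv (j + 2) f x =
      -En (j + 1) f := by
    have h2 := intervalIntegral.integral_mul_deriv_eq_deriv_mul (a := 0) (b := 2 * Real.pi)
      (u := iteratedDeriv j f) (v := iteratedDeriv (j + 1) f)
      (u' := iteratedDeriv (j + 1) f) (v' := iteratedDeriv (j + 2) f)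
      (fun x _ => hder hf j x) (fun x _ => hder hf (j + 1) x)
      ((cont hf _).intervalIntegrable _ _) ((cont hf _).intervalIntegrable _ _)
    rw [h2]
    have p1 : iteratedDeriv j f (2 * Real.pi) = iteratedDeriv j f 0 := by
      simpa using per hf j 0
    have p2 : iteratedDeriv (j + 1) f (2 * Real.pi) = iteratedDeriv (j + 1) f 0 := by
      simpa using per hf (j + 1) 0
    rw [p1, p2, sub_self, zero_sub]
    unfold En
    congr 1
    refine intervalIntegral.integral_congr fun x _ => ?_
    show iteratedDeriv (j + 1) f x * iteratedDeriv (j + 1) f x = iteratedDeriv (j + 1) f x ^ 2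
    ring
  have h3 := cs (cont hf j) (cont hf (j + 2))
  rw [h1, neg_sq] at h3
  exact h3

lemma En_nonneg (k : ℕ) (f : ℝ → ℝ) : 0 ≤ En k f :=
  intervalIntegral.integral_nonneg (by positivity) fun x _ => sq_nonneg _

lemma step {E : ℕ → ℝ} (h0 : ∀ j, 0 ≤ E j) (h : ∀ j, E (j + 1) ^ 2 ≤ E j * E (j + 2)) (j : ℕ) :
    E j ≤ max (E 0) (E (j + 1)) := by
  induction j with
  | zero => exact le_max_left _ _
  | succ j ih =>
    have h1 := h j
    rcases le_max_iff.1 ih with h2 | h2
    · have m0 : 0 ≤ max (E 0) (E (j + 1 + 1)) := le_trans (h0 0) (le_max_left _ _)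
      have m1 : E 0 ≤ max (E 0) (E (j + 1 + 1)) := le_max_left _ _
      have m2 : E (j + 2) ≤ max (E 0) (E (j + 1 + 1)) := le_max_right _ _
      have h3 : E j * E (j + 2) ≤ max (E 0) (E (j + 1 + 1)) * max (E 0) (E (j + 1 + 1)) :=
        mul_le_mul (h2.trans m1) m2 (h0 _) m0
      refine abs_le_of_sq_le_sq' ?_ m0 |>.2
      nlinarith
    · rcases (h0 (j + 1)).eq_or_lt with h3 | h3
      · rw [← h3]
        exact le_trans (h0 0) (le_max_left _ _)
      · have h4 : E (j + 1) ≤ E (j + 2) := by
          have h5 : E (j + 1) * E (j + 1) ≤ E (j + 1) * E (j + 2) := by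
            have := mul_le_mul_of_nonneg_right h2 (h0 (j + 2))
            nlinarith
          exact le_of_mul_le_mul_left h5 h3
        exact h4.trans (le_max_right _ _)

lemma conv {E : ℕ → ℝ} (h0 : ∀ j, 0 ≤ E j) (h : ∀ j, E (j + 1) ^ 2 ≤ E j * E (j + 2))
    {j k : ℕ} (hjk : j ≤ k) : E j ≤ max (E 0) (E k) := by
  induction k, hjk using Nat.le_induction with
  | base => exact le_max_right _ _
  | succ k _ ih => exact ih.trans (max_le (le_max_left _ _) (step h0 h k))

lemma interp {f : ℝ → ℝ} (hf : SP f) {j k : ℕ} (hjk : j ≤ k) : En j f ≤ En 0 f + En k f := by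
  have h := conv (E := fun i => En i f) (fun i => En_nonneg i f) (fun i => lc hf i) hjk
  have h1 := En_nonneg 0 f
  have h2 := En_nonneg k f
  exact h.trans (max_le (by linarith) (by linarith))

lemma shift {f : ℝ → ℝ} (hf : SP f) (k : ℕ) (x : ℝ) :
    ∫ y in (x)..(x + 2 * Real.pi), iteratedDeriv k f y ^ 2 = En k f := by
  have h : Function.Periodic (fun y => iteratedDeriv k f y ^ 2) (2 * Real.pi) := by
    intro y
    show iteratedDeriv k f (y + 2 * Real.pi) ^ 2 = iteratedDeriv k f y ^ 2
    rw [per hf]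
  have h1 := h.intervalIntegral_add_eq x 0
  rw [h1, zero_add]
  rfl

/-- the Sobolev inequality -/
lemma sup {f : ℝ → ℝ} (hf : SP f) (j : ℕ) (x : ℝ) :
    2 * Real.pi * iteratedDeriv j f x ^ 2 ≤
      (1 + 2 * Real.pi) * En j f + 2 * Real.pi * En (j + 1) f := by
  have hpi := Real.pi_pos
  set g := iteratedDeriv j f with hg
  set g' := iteratedDeriv (j + 1) f with hg'
  have cg : Continuous g := cont hf j
  have cg' : Continuous g' := cont hf (j + 1)
  have hd : ∀ y ∈ uIcc x (x + 2 * Real.pi),
      HasDerivAt (fun y => (y - (x + 2 * Real.pi)) * g y ^ 2)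
        (1 * g y ^ 2 + (y - (x + 2 * Real.pi)) * (2 * g y * g' y)) y := by
    intro y _
    have h1 : HasDerivAt (fun y => y - (x + 2 * Real.pi)) 1 y := (hasDerivAt_id y).sub_const _
    have h2 : HasDerivAt (fun y => g y ^ 2) (2 * g y * g' y) y := by
      have h0 : HasDerivAt g (g' y) y := hder hf j y
      have h0' := h0.mul h0
      have e : (2 * g y * g' y) = g' y * g y + g y * g' y := by ring
      have e' : (fun y => g y ^ 2) = g * g := by
        funext z
        show g z ^ 2 = g z * g z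
        ring
      rw [e, e']
      exact h0'
    exact h1.mul h2
  have cI : Continuous fun y => 1 * g y ^ 2 + (y - (x + 2 * Real.pi)) * (2 * g y * g' y) := by
    fun_prop
  have h3 := intervalIntegral.integral_eq_sub_of_hasDerivAt hd (cI.intervalIntegrable _ _)
  have h4 : ∫ y in (x)..(x + 2 * Real.pi),
      (1 * g y ^ 2 + (y - (x + 2 * Real.pi)) * (2 * g y * g' y)) ≤
      ∫ y in (x)..(x + 2 * Real.pi), (g y ^ 2 * (1 + 2 * Real.pi) + g' y ^ 2 * (2 * Real.pi)) := by
    refine intervalIntegral.integral_mono_on (by linarith) (cI.intervalIntegrable _ _) ?_ ?_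
    · have : Continuous fun y => g y ^ 2 * (1 + 2 * Real.pi) + g' y ^ 2 * (2 * Real.pi) := by
        fun_prop
      exact this.intervalIntegrable _ _
    · intro y hy
      have a1 : 0 ≤ x + 2 * Real.pi - y := by linarith [hy.2]
      have a2 : x + 2 * Real.pi - y ≤ 2 * Real.pi := by linarith [hy.1]
      have a3 : -(2 * g y * g' y) ≤ g y ^ 2 + g' y ^ 2 := by nlinarith [sq_nonneg (g y + g' y)]
      have a4 : 0 ≤ g y ^ 2 + g' y ^ 2 := by positivity
      have a5 : (x + 2 * Real.pi - y) * (-(2 * g y * g' y)) ≤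
          (x + 2 * Real.pi - y) * (g y ^ 2 + g' y ^ 2) := mul_le_mul_of_nonneg_left a3 a1
      have a6 : (x + 2 * Real.pi - y) * (g y ^ 2 + g' y ^ 2) ≤
          2 * Real.pi * (g y ^ 2 + g' y ^ 2) := mul_le_mul_of_nonneg_right a2 a4
      nlinarith
  have h5 : ∫ y in (x)..(x + 2 * Real.pi),
      (g y ^ 2 * (1 + 2 * Real.pi) + g' y ^ 2 * (2 * Real.pi)) =
      (1 + 2 * Real.pi) * En j f + 2 * Real.pi * En (j + 1) f := by
    have c1 : IntervalIntegrable (fun y => g y ^ 2 * (1 + 2 * Real.pi)) volume x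
        (x + 2 * Real.pi) := ((cg.pow 2).mul continuous_const).intervalIntegrable _ _
    have c2 : IntervalIntegrable (fun y => g' y ^ 2 * (2 * Real.pi)) volume x
        (x + 2 * Real.pi) := ((cg'.pow 2).mul continuous_const).intervalIntegrable _ _
    rw [intervalIntegral.integral_add c1 c2, intervalIntegral.integral_mul_const,
      intervalIntegral.integral_mul_const, hg, hg', shift hf, shift hf]
    ring
  rw [h5, h3] at h4
  have h6 : (x + 2 * Real.pi - (x + 2 * Real.pi)) * g (x + 2 * Real.pi) ^ 2 -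
      (x - (x + 2 * Real.pi)) * g x ^ 2 = 2 * Real.pi * g x ^ 2 := by ring
  rw [h6] at h4
  exact h4

end SOBM

open SOBM in
theorem specSOB : SpecSOB := by
  intro f hf j k hjk
  refine ⟨interp hf hjk.le, fun x => ?_⟩
  have h1 := sup hf j x
  have h2 := interp hf hjk.le
  have h3 := interp hf (show j + 1 ≤ k from hjk)
  have hpi : 3 < Real.pi := Real.pi_gt_three
  have hS : 0 ≤ En 0 f + En k f := add_nonneg (En_nonneg 0 f) (En_nonneg k f)
  have h4 : (1 + 2 * Real.pi) * En j f ≤ (1 + 2 * Real.pi) * (En 0 f + En k f) :=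
    mul_le_mul_of_nonneg_left h2 (by linarith)
  have h5 : 2 * Real.pi * En (j + 1) f ≤ 2 * Real.pi * (En 0 f + En k f) :=
    mul_le_mul_of_nonneg_left h3 (by linarith)
  have h6 : 2 * Real.pi * iteratedDeriv j f x ^ 2 ≤
      2 * Real.pi * (20 * (En 0 f + En k f)) := by
    nlinarith [mul_nonneg (sub_nonneg.2 hpi.le) hS, mul_nonneg Real.pi_pos.le hS]
  exact le_of_mul_le_mul_left h6 (by linarith)

end

end Pool.Agent.Lib.MPb879c5.WP
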