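import Pool.Agent.Lib.MP_b879c5_an.WP.SpecG

/-!
# Module TBD: the time derivative of Galerkin solutions is bounded
-/

set_option autoImplicit false

namespace Pool.Agent.Lib.MPb879c5.WP

open Set Filter MeasureTheory Topology
open Pool.Agent.Lib.MP_b879c5_an
open scoped ContDiff

noncomputable section

namespace TBDM

theorem sp_deriv {f : ℝ → ℝ} (hf : SP f) : SP (deriv f) := by
  refine ⟨(contDiff_infty_iff_deriv.1 hf.sm).2, fun x => ?_⟩
  have h : (fun y => f (y + 2 * Real.pi)) = f := funext hf.per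
  have h2 := deriv_comp_add_const f (2 * Real.pi) x
  rw [h] at h2
  exact h2.symm

theorem hasd {f : ℝ → ℝ} (hf : SP f) (x : ℝ) : HasDerivAt f (deriv f x) x :=
  ((contDiff_infty_iff_deriv.1 hf.sm).1 x).hasDerivAt

theorem cont {f : ℝ → ℝ} (hf : SP f) : Continuous f := hf.sm.continuous

theorem parts {g h : ℝ → ℝ} (hg : SP g) (hh : SP h) :
    (∫ x in (0)..(2 * Real.pi), g x * deriv h x)
      = - ∫ x in (0)..(2 * Real.pi), deriv g x * h x := by
  have h1 := intervalIntegral.integral_mul_deriv_eq_deriv_mul (a := 0) (b := 2 * Real.pi)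
    (u := g) (v := h) (u' := deriv g) (v' := deriv h)
    (fun x _ => hasd hg x) (fun x _ => hasd hh x)
    ((cont (sp_deriv hg)).intervalIntegrable _ _) ((cont (sp_deriv hh)).intervalIntegrable _ _)
  have h2 := hg.per 0
  have h3 := hh.per 0
  rw [zero_add] at h2 h3
  rw [h1, h2, h3]
  ring

theorem id3 (f : ℝ → ℝ) : iteratedDeriv 3 f = deriv (deriv (deriv f)) := by
  simp [iteratedDeriv_succ]

theorem sp_Fo {f : ℝ → ℝ} (hf : SP f) : SP (Fo f) := by
  have h1 := sp_deriv hf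
  have h3 := sp_deriv (sp_deriv h1)
  have hF : Fo f = fun x => deriv (deriv (deriv f)) x + deriv f x ^ 2 + f x ^ 2 := by
    funext x
    rw [Fo, id3]
  rw [hF]
  refine ⟨(h3.sm.add (h1.sm.pow 2)).add (hf.sm.pow 2), fun x => ?_⟩
  rw [h3.per, h1.per, hf.per]

theorem deriv_Fo {f : ℝ → ℝ} (hf : SP f) (x : ℝ) :
    deriv (Fo f) x = iteratedDeriv 4 f x + 2 * deriv f x * deriv (deriv f) x
      + 2 * f x * deriv f x := by
  have h1 := sp_deriv hf
  have h3 := sp_deriv (sp_deriv h1)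
  have hF : Fo f = fun x => deriv (deriv (deriv f)) x + deriv f x ^ 2 + f x ^ 2 := by
    funext x
    rw [Fo, id3]
  have h4 : iteratedDeriv 4 f = deriv (deriv (deriv (deriv f))) := by
    simp [iteratedDeriv_succ]
  have hd := ((hasd h3 x).add ((hasd h1 x).pow 2)).add ((hasd hf x).pow 2)
  have hd2 : HasDerivAt (Fo f) (deriv (deriv (deriv (deriv f))) x
      + 2 * deriv f x * deriv (deriv f) x + 2 * f x * deriv f x) x := by
    rw [hF]
    refine hd.congr_deriv ?_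
    norm_num
  rw [hd2.deriv, h4]

theorem alg1 {p q r Q : ℝ} (hp : p ^ 2 ≤ Q) (hq : q ^ 2 ≤ Q) (hr : r ^ 2 ≤ Q) :
    (p + q ^ 2 + r ^ 2) ^ 2 ≤ 3 * Q + 6 * Q ^ 2 := by
  have h1 : (q ^ 2) ^ 2 ≤ Q ^ 2 := pow_le_pow_left₀ (sq_nonneg q) hq 2
  have h2 : (r ^ 2) ^ 2 ≤ Q ^ 2 := pow_le_pow_left₀ (sq_nonneg r) hr 2
  nlinarith [sq_nonneg (p - q ^ 2), sq_nonneg (p - r ^ 2), sq_nonneg (q ^ 2 - r ^ 2)]

theorem alg2 {s q t r Q : ℝ} (hs : s ^ 2 ≤ Q) (hq : q ^ 2 ≤ Q) (ht : t ^ 2 ≤ Q) (hr : r ^ 2 ≤ Q) :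
    (s + 2 * q * t + 2 * r * q) ^ 2 ≤ 3 * Q + 24 * Q ^ 2 := by
  have h1 : q ^ 2 * t ^ 2 ≤ Q * Q := mul_le_mul hq ht (sq_nonneg t) ((sq_nonneg q).trans hq)
  have h2 : r ^ 2 * q ^ 2 ≤ Q * Q := mul_le_mul hr hq (sq_nonneg q) ((sq_nonneg r).trans hr)
  nlinarith [sq_nonneg (s - 2 * q * t), sq_nonneg (s - 2 * r * q), sq_nonneg (2 * q * t - 2 * r * q)]

theorem int_sub {f g : ℝ → ℝ} (hf : Continuous f) (hg : Continuous g) :
    (∫ x in (0)..(2 * Real.pi), (f x - g x))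
      = (∫ x in (0)..(2 * Real.pi), f x) - ∫ x in (0)..(2 * Real.pi), g x :=
  intervalIntegral.integral_sub (hf.intervalIntegrable _ _) (hg.intervalIntegrable _ _)

theorem int_add {f g : ℝ → ℝ} (hf : Continuous f) (hg : Continuous g) :
    (∫ x in (0)..(2 * Real.pi), (f x + g x))
      = (∫ x in (0)..(2 * Real.pi), f x) + ∫ x in (0)..(2 * Real.pi), g x :=
  intervalIntegral.integral_add (hf.intervalIntegrable _ _) (hg.intervalIntegrable _ _)

theorem tp_sub (N : ℕ) (c d : Fin (2 * N + 1) → ℝ) (x : ℝ) :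
    tp N (c - d) x = tp N c x - tp N d x := by
  simp only [tp, Pi.sub_apply, sub_mul, Finset.sum_sub_distrib]

end TBDM

open TBDM in
/-- **TBD** -/
theorem specTBD (hSOB : SpecSOB) (hTRG : SpecTRG) : SpecTBD := by
  intro D
  obtain ⟨hSP, hDer, -, -, -, -⟩ := hTRG
  obtain ⟨Q, hQ⟩ : ∃ Q : ℝ, Q = 20 * (D 0 + D 5) := ⟨_, rfl⟩
  refine ⟨1 + 20 * (2 * Real.pi * (6 * Q + 30 * Q ^ 2)), fun N a w hG hD x => ?_⟩
  have hf := hSP N a
  have hv := hSP N w
  have hF := sp_Fo hf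
  have hb : ∀ j < 5, ∀ x, iteratedDeriv j (tp N a) x ^ 2 ≤ Q := by
    intro j hj x
    have h1 := (hSOB (tp N a) hf j 5 hj).2 x
    have h2 := hD 0
    have h3 := hD 5
    linarith
  have hb0 : ∀ x, tp N a x ^ 2 ≤ Q := fun x => by simpa using hb 0 (by norm_num) x
  have hb1 : ∀ x, deriv (tp N a) x ^ 2 ≤ Q := fun x => by
    simpa [iteratedDeriv_succ] using hb 1 (by norm_num) x
  have hb2 : ∀ x, deriv (deriv (tp N a)) x ^ 2 ≤ Q := fun x => by
    simpa [iteratedDeriv_succ] using hb 2 (by norm_num) x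
  have hb3 := hb 3 (by norm_num)
  have hb4 := hb 4 (by norm_num)
  have hF0 : ∀ x, Fo (tp N a) x ^ 2 ≤ 3 * Q + 6 * Q ^ 2 := fun x =>
    alg1 (hb3 x) (hb1 x) (hb0 x)
  have hF1 : ∀ x, deriv (Fo (tp N a)) x ^ 2 ≤ 3 * Q + 24 * Q ^ 2 := fun x => by
    rw [deriv_Fo hf]
    exact alg2 (hb4 x) (hb1 x) (hb2 x) (hb0 x)
  -- the test function `v - v''`
  obtain ⟨φ, hφ⟩ := hDer N w 2
  have hφ' : tp N φ = deriv (deriv (tp N w)) := by
    rw [← hφ]
    simp [iteratedDeriv_succ]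
  have hv1 := sp_deriv hv
  have hv2 := sp_deriv hv1
  have hF' := sp_deriv hF
  have hg := hG (w - φ)
  have hL : (∫ x in (0)..(2 * Real.pi), tp N w x * tp N (w - φ) x)
      = (∫ x in (0)..(2 * Real.pi), tp N w x ^ 2)
        + ∫ x in (0)..(2 * Real.pi), deriv (tp N w) x ^ 2 := by
    have e1 : (fun x => tp N w x * tp N (w - φ) x)
        = fun x => tp N w x ^ 2 - tp N w x * deriv (deriv (tp N w)) x := by
      funext x
      rw [tp_sub, hφ']
      ring
    have e2 := int_sub (f := fun x => tp N w x ^ 2)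
      (g := fun x => tp N w x * deriv (deriv (tp N w)) x) ((cont hv).pow 2)
      ((cont hv).mul (cont hv2))
    have e3 : (∫ x in (0)..(2 * Real.pi), deriv (tp N w) x * deriv (tp N w) x)
        = ∫ x in (0)..(2 * Real.pi), deriv (tp N w) x ^ 2 :=
      intervalIntegral.integral_congr fun x _ => (sq (deriv (tp N w) x)).symm
    rw [e1, e2, parts hv hv1, sub_neg_eq_add, e3]
  have hR : (∫ x in (0)..(2 * Real.pi), Fo (tp N a) x * tp N (w - φ) x)
      = (∫ x in (0)..(2 * Real.pi), Fo (tp N a) x * tp N w x)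
        + ∫ x in (0)..(2 * Real.pi), deriv (Fo (tp N a)) x * deriv (tp N w) x := by
    have e1 : (fun x => Fo (tp N a) x * tp N (w - φ) x)
        = fun x => Fo (tp N a) x * tp N w x - Fo (tp N a) x * deriv (deriv (tp N w)) x := by
      funext x
      rw [tp_sub, hφ']
      ring
    have e2 := int_sub (f := fun x => Fo (tp N a) x * tp N w x)
      (g := fun x => Fo (tp N a) x * deriv (deriv (tp N w)) x) ((cont hF).mul (cont hv))
      ((cont hF).mul (cont hv2))
    rw [e1, e2, parts hF hv1, sub_neg_eq_add]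
  rw [hL, hR] at hg
  have hpi : 0 < Real.pi := Real.pi_pos
  have hle1 : (∫ x in (0)..(2 * Real.pi), Fo (tp N a) x * tp N w x)
      ≤ ∫ x in (0)..(2 * Real.pi), ((3 * Q + 6 * Q ^ 2) / 2 + tp N w x ^ 2 / 2) := by
    refine intervalIntegral.integral_mono_on (by positivity)
      (((cont hF).mul (cont hv)).intervalIntegrable _ _)
      ((continuous_const.add (((cont hv).pow 2).div_const 2)).intervalIntegrable _ _) fun y _ => ?_
    have h1 := hF0 y
    nlinarith [sq_nonneg (Fo (tp N a) y - tp N w y)]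
  have hle2 : (∫ x in (0)..(2 * Real.pi), deriv (Fo (tp N a)) x * deriv (tp N w) x)
      ≤ ∫ x in (0)..(2 * Real.pi), ((3 * Q + 24 * Q ^ 2) / 2 + deriv (tp N w) x ^ 2 / 2) := by
    refine intervalIntegral.integral_mono_on (by positivity)
      (((cont hF').mul (cont hv1)).intervalIntegrable _ _)
      ((continuous_const.add (((cont hv1).pow 2).div_const 2)).intervalIntegrable _ _) fun y _ => ?_
    have h1 := hF1 y
    nlinarith [sq_nonneg (deriv (Fo (tp N a)) y - deriv (tp N w) y)]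
  have hc : ∀ (K : ℝ) (g : ℝ → ℝ), Continuous g →
      (∫ x in (0)..(2 * Real.pi), (K / 2 + g x ^ 2 / 2))
        = Real.pi * K + (∫ x in (0)..(2 * Real.pi), g x ^ 2) / 2 := by
    intro K g hgc
    have e1 := int_add (f := fun _ => K / 2) (g := fun x => g x ^ 2 / 2) continuous_const
      ((hgc.pow 2).div_const 2)
    rw [e1, intervalIntegral.integral_const, intervalIntegral.integral_div, smul_eq_mul]
    ring
  rw [hc _ _ (cont hv)] at hle1
  rw [hc _ _ (cont hv1)] at hle2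
  have hS := (hSOB (tp N w) hv 0 1 (by norm_num)).2 x
  have hE0 : En 0 (tp N w) = ∫ x in (0)..(2 * Real.pi), tp N w x ^ 2 := by simp [En]
  have hE1 : En 1 (tp N w) = ∫ x in (0)..(2 * Real.pi), deriv (tp N w) x ^ 2 := by
    simp [En, iteratedDeriv_succ]
  rw [hE0, hE1, iteratedDeriv_zero] at hS
  have hfin : tp N w x ^ 2 ≤ 20 * (2 * Real.pi * (6 * Q + 30 * Q ^ 2)) := by
    nlinarith
  have habs : |tp N w x| ≤ 1 + tp N w x ^ 2 := by
    rw [← sq_abs (tp N w x)]
    nlinarith [sq_nonneg (|tp N w x| - 1), abs_nonneg (tp N w x)]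
  linarith

end

end Pool.Agent.Lib.MPb879c5.WP
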