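import Pool.Agent.Lib.MP_b879c5_an.WP.SpecG

/-!
# MP_b879c5_an, module TRB: approximation of the initial value (helper64)
-/

set_option autoImplicit false

namespace Pool.Agent.Lib.MPb879c5.WP

open Set Filter MeasureTheory Topology
open Pool.Agent.Lib.MP_b879c5_an
open scoped ContDiff

noncomputable section

namespace TRBM

lemma SPd {f : ℝ → ℝ} (hf : SP f) : SP (deriv f) := by
  constructor
  · exact (contDiff_infty_iff_deriv.1 hf.sm).2
  · intro x
    have h1 : (fun y => f (y + 2 * Real.pi)) = f := funext hf.per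
    have h2 : deriv (fun y => f (y + 2 * Real.pi)) x = deriv f (x + 2 * Real.pi) :=
      deriv_comp_add_const f (2 * Real.pi) x
    rw [h1] at h2
    exact h2.symm

lemma SPi {f : ℝ → ℝ} (hf : SP f) (k : ℕ) : SP (iteratedDeriv k f) := by
  induction k with
  | zero => rw [iteratedDeriv_zero]; exact hf
  | succ k ih => rw [iteratedDeriv_succ]; exact SPd ih

lemma SPhd {f : ℝ → ℝ} (hf : SP f) (x : ℝ) : HasDerivAt f (deriv f x) x :=
  ((contDiff_infty_iff_deriv.1 hf.sm).1 x).hasDerivAt

lemma ibp {g h : ℝ → ℝ} (hg : SP g) (hh : SP h) :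
    (∫ x in (0)..(2 * Real.pi), deriv g x * h x) =
      - ∫ x in (0)..(2 * Real.pi), g x * deriv h x := by
  have h1 := intervalIntegral.integral_mul_deriv_eq_deriv_mul (a := 0) (b := 2 * Real.pi)
    (u := g) (v := h) (u' := deriv g) (v' := deriv h) (fun x _ => SPhd hg x)
    (fun x _ => SPhd hh x) ((SPd hg).sm.continuous.intervalIntegrable _ _)
    ((SPd hh).sm.continuous.intervalIntegrable _ _)
  have e1 : g (2 * Real.pi) = g 0 := by
    have := hg.per 0
    rwa [zero_add] at this
  have e2 : h (2 * Real.pi) = h 0 := by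
    have := hh.per 0
    rwa [zero_add] at this
  rw [e1, e2] at h1
  rw [h1]
  ring

lemma ibpk {g h : ℝ → ℝ} (hg : SP g) (hh : SP h) (k : ℕ) : ∀ m : ℕ,
    (∫ x in (0)..(2 * Real.pi), iteratedDeriv k g x * iteratedDeriv m h x) =
      (-1) ^ k * ∫ x in (0)..(2 * Real.pi), g x * iteratedDeriv (m + k) h x := by
  induction k with
  | zero => intro m; simp [iteratedDeriv_zero]
  | succ k ih =>
    intro m
    have h1 := ibp (SPi hg k) (SPi hh m)
    rw [iteratedDeriv_succ, h1, ← iteratedDeriv_succ, ih (m + 1)]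
    have e : m + 1 + k = m + (k + 1) := by ring
    rw [e, pow_succ]
    ring

/-- the Fourier coefficients -/
def bb (u : ℝ → ℝ) (j : ℕ) : ℝ :=
  (∫ x in (0)..(2 * Real.pi), u x * tb j x) / (∫ x in (0)..(2 * Real.pi), tb j x * tb j x)

lemma nrm_ge (hTRG : SpecTRG) (j : ℕ) :
    Real.pi ≤ ∫ x in (0)..(2 * Real.pi), tb j x * tb j x := by
  rw [hTRG.2.2.1 j j, if_pos rfl]
  have := Real.pi_pos
  split_ifs <;> linarith

lemma SPtb (hTRG : SpecTRG) (j : ℕ) : SP (tb j) :=
  ⟨(hTRG.2.2.2.2.1 j).1, (hTRG.2.2.2.2.1 j).2⟩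

lemma perp (hTRG : SpecTRG) {u : ℝ → ℝ} (hu : Continuous u) (N : ℕ) (j : Fin (2 * N + 1)) :
    (∫ x in (0)..(2 * Real.pi), (u x - tp N (fun i => bb u i) x) * tb j x) = 0 := by
  have hc : ∀ i : ℕ, Continuous (tb i) := fun i => (SPtb hTRG i).sm.continuous
  have e : ∀ x, (u x - tp N (fun i => bb u i) x) * tb j x =
      u x * tb j x - ∑ i : Fin (2 * N + 1), bb u i * (tb i x * tb j x) := by
    intro x
    unfold tp
    rw [sub_mul, Finset.sum_mul]
    congr 1
    apply Finset.sum_congr rfl
    intro i _
    ring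
  have i1 : IntervalIntegrable (fun x => u x * tb j x) volume 0 (2 * Real.pi) :=
    (hu.mul (hc j)).intervalIntegrable _ _
  have i3 : ∀ i : Fin (2 * N + 1), Continuous (fun x => bb u i * (tb i x * tb j x)) :=
    fun i => continuous_const.mul ((hc i).mul (hc j))
  have i2 : IntervalIntegrable (fun x => ∑ i : Fin (2 * N + 1), bb u i * (tb i x * tb j x))
      volume 0 (2 * Real.pi) :=
    (continuous_finset_sum _ fun (i : Fin (2 * N + 1)) _ => i3 i).intervalIntegrable _ _
  rw [intervalIntegral.integral_congr (fun x _ => e x), intervalIntegral.integral_sub i1 i2,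
    intervalIntegral.integral_finset_sum (fun (i : Fin (2 * N + 1)) _ =>
      (i3 i).intervalIntegrable _ _)]
  have e2 : ∀ i : Fin (2 * N + 1), i ≠ j →
      (∫ x in (0)..(2 * Real.pi), bb u i * (tb i x * tb j x)) = 0 := by
    intro i hij
    rw [intervalIntegral.integral_const_mul, hTRG.2.2.1, if_neg, mul_zero]
    intro h
    exact hij (Fin.ext h)
  rw [Finset.sum_eq_single j (fun i _ hij => e2 i hij) (fun h => absurd (Finset.mem_univ j) h),
    intervalIntegral.integral_const_mul]
  have h0 : (∫ x in (0)..(2 * Real.pi), tb j x * tb j x) ≠ 0 := by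
    have := nrm_ge hTRG j
    have := Real.pi_pos
    linarith
  unfold bb
  rw [div_mul_cancel₀ _ h0, sub_self]

lemma perp2 (hTRG : SpecTRG) {u : ℝ → ℝ} (hu : Continuous u) (N : ℕ)
    (φ : Fin (2 * N + 1) → ℝ) :
    (∫ x in (0)..(2 * Real.pi), (u x - tp N (fun i => bb u i) x) * tp N φ x) = 0 := by
  have hc : ∀ i : ℕ, Continuous (tb i) := fun i => (SPtb hTRG i).sm.continuous
  have hcp : Continuous (tp N (fun i => bb u i)) := (hTRG.1 N _).sm.continuous
  have e : ∀ x, (u x - tp N (fun i => bb u i) x) * tp N φ x =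
      ∑ j : Fin (2 * N + 1), φ j * ((u x - tp N (fun i => bb u i) x) * tb j x) := by
    intro x
    conv_lhs => rw [show tp N φ x = ∑ j, φ j * tb j x from rfl]
    rw [Finset.mul_sum]
    apply Finset.sum_congr rfl
    intro i _
    ring
  have i3 : ∀ i : Fin (2 * N + 1), Continuous
      (fun x => φ i * ((u x - tp N (fun i => bb u i) x) * tb i x)) :=
    fun i => continuous_const.mul ((hu.sub hcp).mul (hc i))
  rw [intervalIntegral.integral_congr (fun x _ => e x),
    intervalIntegral.integral_finset_sum (fun (i : Fin (2 * N + 1)) _ =>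
      (i3 i).intervalIntegrable _ _)]
  apply Finset.sum_eq_zero
  intro j _
  rw [intervalIntegral.integral_const_mul, perp hTRG hu N j, mul_zero]

lemma SPsub {f g : ℝ → ℝ} (hf : SP f) (hg : SP g) : SP (fun x => f x - g x) :=
  ⟨hf.sm.sub hg.sm, fun x => by rw [hf.per, hg.per]⟩

lemma bessel (hTRG : SpecTRG) {u : ℝ → ℝ} (hu : SP u) (N k : ℕ) :
    En k (tp N (fun i => bb u i)) ≤ En k u := by
  have hP : SP (tp N (fun i => bb u i)) := hTRG.1 N _
  set P : ℝ → ℝ := tp N (fun i => bb u i) with hPdef
  have hd : SP (fun x => u x - P x) := SPsub hu hP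
  obtain ⟨φ, hφ⟩ := hTRG.2.1 N (fun i => bb u i) (k + k)
  have h1 : (∫ x in (0)..(2 * Real.pi), iteratedDeriv k (fun x => u x - P x) x *
      iteratedDeriv k P x) = 0 := by
    rw [ibpk hd hP k k, hPdef, hφ, perp2 hTRG hu.sm.continuous N φ, mul_zero]
  have h2 : ∀ x, iteratedDeriv k u x =
      iteratedDeriv k (fun x => u x - P x) x + iteratedDeriv k P x := by
    intro x
    have e : u = (fun x => u x - P x) + P := by
      funext y
      simp
    conv_lhs => rw [e]
    exact iteratedDeriv_add ((hd.sm.of_le (by exact_mod_cast le_top)).contDiffAt)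
      ((hP.sm.of_le (by exact_mod_cast le_top)).contDiffAt)
  have c1 := (SPi hd k).sm.continuous
  have c2 := (SPi hP k).sm.continuous
  unfold En
  have h3 : (∫ x in (0)..(2 * Real.pi), iteratedDeriv k u x ^ 2) =
      (∫ x in (0)..(2 * Real.pi), iteratedDeriv k (fun x => u x - P x) x ^ 2) +
      2 * (∫ x in (0)..(2 * Real.pi), iteratedDeriv k (fun x => u x - P x) x *
        iteratedDeriv k P x) + ∫ x in (0)..(2 * Real.pi), iteratedDeriv k P x ^ 2 := by
    rw [← intervalIntegral.integral_const_mul, ← intervalIntegral.integral_add,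
      ← intervalIntegral.integral_add]
    · apply intervalIntegral.integral_congr
      intro x _
      simp only [h2 x]
      ring
    · exact ((c1.pow 2).add (continuous_const.mul (c1.mul c2))).intervalIntegrable _ _
    · exact (c2.pow 2).intervalIntegrable _ _
    · exact (c1.pow 2).intervalIntegrable _ _
    · exact (continuous_const.mul (c1.mul c2)).intervalIntegrable _ _
  rw [h3, h1, mul_zero, add_zero]
  have h4 : 0 ≤ ∫ x in (0)..(2 * Real.pi), iteratedDeriv k (fun x => u x - P x) x ^ 2 :=
    intervalIntegral.integral_nonneg (by positivity) (fun x _ => sq_nonneg _)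
  linarith

/-! ## uniform convergence -/

/-- the frequency -/
def kap (j : ℕ) : ℕ := if Even j then j / 2 else (j + 1) / 2

lemma kap_ge (j : ℕ) : j ≤ 2 * kap j := by
  unfold kap
  split_ifs with h
  · obtain ⟨r, hr⟩ := h
    omega
  · omega

lemma tb_dd (j : ℕ) : deriv (deriv (tb j)) = fun x => -((kap j : ℝ) ^ 2 * tb j x) := by
  unfold kap
  by_cases hj : Even j
  · have e : tb j = fun x => Real.cos (((j / 2 : ℕ) : ℝ) * x) := by
      funext x
      simp only [tb, if_pos hj]
    rw [if_pos hj, e]
    generalize ((j / 2 : ℕ) : ℝ) = k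
    have d1 : deriv (fun x => Real.cos (k * x)) = fun x => -Real.sin (k * x) * k := by
      funext x
      have h := (((hasDerivAt_id x).const_mul k).cos).deriv
      simpa using h
    have d2 : deriv (fun x => -Real.sin (k * x) * k) = fun x => -(Real.cos (k * x) * k) * k := by
      funext x
      have h := ((((hasDerivAt_id x).const_mul k).sin).neg.mul_const k).deriv
      simpa using h
    rw [d1, d2]
    funext x
    ring
  · have e : tb j = fun x => Real.sin ((((j + 1) / 2 : ℕ) : ℝ) * x) := by
      funext x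
      simp only [tb, if_neg hj]
    rw [if_neg hj, e]
    generalize (((j + 1) / 2 : ℕ) : ℝ) = k
    have d1 : deriv (fun x => Real.sin (k * x)) = fun x => Real.cos (k * x) * k := by
      funext x
      have h := (((hasDerivAt_id x).const_mul k).sin).deriv
      simpa using h
    have d2 : deriv (fun x => Real.cos (k * x) * k) = fun x => (-Real.sin (k * x) * k) * k := by
      funext x
      have h := ((((hasDerivAt_id x).const_mul k).cos).mul_const k).deriv
      simpa using h
    rw [d1, d2]
    funext x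
    ring

lemma tb_le (j : ℕ) (x : ℝ) : |tb j x| ≤ 1 := by
  unfold tb
  split_ifs
  · exact Real.abs_cos_le_one _
  · exact Real.abs_sin_le_one _

lemma coef (hTRG : SpecTRG) {u : ℝ → ℝ} (hu : SP u) :
    ∃ M, 0 ≤ M ∧ ∀ j, (kap j : ℝ) ^ 2 * |∫ x in (0)..(2 * Real.pi), u x * tb j x| ≤ M := by
  have hu2 : Continuous (deriv (deriv u)) := (SPd (SPd hu)).sm.continuous
  obtain ⟨M₀, hM₀⟩ := (isCompact_Icc (a := (0 : ℝ)) (b := 2 * Real.pi)).exists_bound_of_continuousOn
    hu2.continuousOn
  have hpi := Real.pi_pos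
  have hM0 : 0 ≤ M₀ := le_trans (norm_nonneg _) (hM₀ 0 ⟨le_rfl, by positivity⟩)
  refine ⟨M₀ * (2 * Real.pi), by positivity, fun j => ?_⟩
  have h1 := ibp (SPd hu) (SPtb hTRG j)
  have h2 := ibp hu (SPd (SPtb hTRG j))
  have h3 : (∫ x in (0)..(2 * Real.pi), deriv (deriv u) x * tb j x) =
      -((kap j : ℝ) ^ 2 * ∫ x in (0)..(2 * Real.pi), u x * tb j x) := by
    rw [h1, h2, neg_neg, tb_dd, ← intervalIntegral.integral_const_mul,
      ← intervalIntegral.integral_neg]
    apply intervalIntegral.integral_congr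
    intro x _
    simp only
    ring
  have h4 : ‖∫ x in (0)..(2 * Real.pi), deriv (deriv u) x * tb j x‖ ≤
      M₀ * |2 * Real.pi - 0| := by
    apply intervalIntegral.norm_integral_le_of_norm_le_const
    intro x hx
    rw [uIoc_of_le (by positivity)] at hx
    have a1 := hM₀ x ⟨hx.1.le, hx.2⟩
    have a2 := tb_le j x
    rw [norm_mul]
    calc ‖deriv (deriv u) x‖ * ‖tb j x‖ ≤ M₀ * 1 :=
          mul_le_mul a1 a2 (norm_nonneg _) hM0
      _ = M₀ := mul_one _
  rw [h3, norm_neg, norm_mul, Real.norm_eq_abs, Real.norm_eq_abs, abs_of_nonneg (sq_nonneg _),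
    sub_zero, abs_of_nonneg (by positivity : (0 : ℝ) ≤ 2 * Real.pi)] at h4
  exact h4

lemma bb_le (hTRG : SpecTRG) {u : ℝ → ℝ} (hu : SP u) :
    ∃ M, 0 ≤ M ∧ ∀ j : ℕ, |bb u j| ≤ (if j = 0 then |bb u 0| else 0) + M * (1 / (j : ℝ) ^ 2) := by
  obtain ⟨M, hM, h⟩ := coef hTRG hu
  refine ⟨4 * M, by positivity, fun j => ?_⟩
  rcases Nat.eq_zero_or_pos j with hj | hj
  · subst hj
    simp
  · rw [if_neg (by omega), zero_add]
    have h1 := nrm_ge hTRG j
    have h2 := Real.pi_gt_three
    have h3 := h j
    have h4 : (j : ℝ) ≤ 2 * kap j := by exact_mod_cast kap_ge j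
    have hj0 : (0 : ℝ) < j := by exact_mod_cast hj
    have h5 : |bb u j| ≤ |∫ x in (0)..(2 * Real.pi), u x * tb j x| := by
      unfold bb
      rw [abs_div]
      apply div_le_self (abs_nonneg _)
      rw [abs_of_nonneg (by linarith)]
      linarith
    have h6 : (j : ℝ) ^ 2 * |bb u j| ≤ 4 * M := by
      calc (j : ℝ) ^ 2 * |bb u j| ≤ (2 * (kap j : ℝ)) ^ 2 *
            |∫ x in (0)..(2 * Real.pi), u x * tb j x| := by
            apply mul_le_mul _ h5 (abs_nonneg _) (by positivity)
            exact pow_le_pow_left₀ hj0.le h4 2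
        _ = 4 * ((kap j : ℝ) ^ 2 * |∫ x in (0)..(2 * Real.pi), u x * tb j x|) := by ring
        _ ≤ 4 * M := by linarith
    rw [mul_one_div, le_div_iff₀ (by positivity)]
    linarith

lemma cos_int {G : ℝ → ℝ} (h : ∀ j, (∫ x in (0)..(2 * Real.pi), G x * tb j x) = 0) (n : ℤ) :
    (∫ x in (0)..(2 * Real.pi), G x * Real.cos ((n : ℝ) * x)) = 0 := by
  refine Eq.trans ?_ (h (2 * n.natAbs))
  apply intervalIntegral.integral_congr
  intro x _
  simp only [tb]
  rw [if_pos (even_two_mul _), Nat.mul_div_cancel_left _ (by norm_num : 0 < 2)]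
  congr 1
  rcases Int.natAbs_eq n with hn | hn
  · have : (n : ℝ) = (n.natAbs : ℝ) := by
      conv_lhs => rw [hn]
      simp
    rw [this]
  · have : (n : ℝ) = -(n.natAbs : ℝ) := by
      conv_lhs => rw [hn]
      simp
    rw [this, neg_mul, Real.cos_neg]

lemma sin_int {G : ℝ → ℝ} (h : ∀ j, (∫ x in (0)..(2 * Real.pi), G x * tb j x) = 0) (n : ℤ) :
    (∫ x in (0)..(2 * Real.pi), G x * Real.sin ((n : ℝ) * x)) = 0 := by
  rcases Nat.eq_zero_or_pos n.natAbs with h0 | h0
  · have hn : n = 0 := Int.natAbs_eq_zero.1 h0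
    subst hn
    simp
  · have ho : ¬ Even (2 * n.natAbs - 1) := by
      rintro ⟨r, hr⟩
      omega
    have h1 := h (2 * n.natAbs - 1)
    simp only [tb] at h1
    rw [show (2 * n.natAbs - 1 + 1) / 2 = n.natAbs by omega] at h1
    simp only [if_neg ho] at h1
    rcases Int.natAbs_eq n with hn | hn
    · have : (n : ℝ) = (n.natAbs : ℝ) := by
        conv_lhs => rw [hn]
        simp
      rw [this]
      exact h1
    · have : (n : ℝ) = -(n.natAbs : ℝ) := by
        conv_lhs => rw [hn]
        simp
      rw [this]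
      have e : (∫ x in (0)..(2 * Real.pi), G x * Real.sin (-(n.natAbs : ℝ) * x)) =
          - ∫ x in (0)..(2 * Real.pi), G x * Real.sin ((n.natAbs : ℝ) * x) := by
        rw [← intervalIntegral.integral_neg]
        apply intervalIntegral.integral_congr
        intro x _
        simp only
        rw [neg_mul, Real.sin_neg]
        ring
      rw [e, h1, neg_zero]

lemma compl {G : ℝ → ℝ} (hG : Continuous G) (hper : ∀ x, G (x + 2 * Real.pi) = G x)
    (h : ∀ j, (∫ x in (0)..(2 * Real.pi), G x * tb j x) = 0) : ∀ x, G x = 0 := by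
  have : Fact (0 < 2 * Real.pi) := ⟨by positivity⟩
  have hp : Function.Periodic (fun x : ℝ => (G x : ℂ)) (2 * Real.pi) := fun x => by
    simp only [hper x]
  have hcont : Continuous (hp.lift : AddCircle (2 * Real.pi) → ℂ) := by
    rw [(QuotientAddGroup.isQuotientMap_mk (AddSubgroup.zmultiples (2 * Real.pi))).continuous_iff]
    exact Complex.continuous_ofReal.comp hG
  let F : C(AddCircle (2 * Real.pi), ℂ) := ⟨hp.lift, hcont⟩
  have hF : ∀ x : ℝ, F (x : AddCircle (2 * Real.pi)) = (G x : ℂ) := fun x => rfl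
  have hcoef : ∀ n : ℤ, fourierCoeff F n = 0 := by
    intro n
    rw [fourierCoeff_eq_intervalIntegral F n 0, zero_add]
    have key : ∀ x : ℝ, @fourier (2 * Real.pi) (-n) (x : AddCircle (2 * Real.pi)) •
        F (x : AddCircle (2 * Real.pi)) = ((G x * Real.cos ((n : ℝ) * x) : ℝ) : ℂ) -
          Complex.I * ((G x * Real.sin ((n : ℝ) * x) : ℝ) : ℂ) := by
      intro x
      rw [hF, fourier_coe_apply, smul_eq_mul]
      have hpi : (Real.pi : ℂ) ≠ 0 := by exact_mod_cast Real.pi_ne_zero
      have e : (2 * (Real.pi : ℂ) * Complex.I * ((-n : ℤ) : ℂ) * (x : ℂ) /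
          ((2 * Real.pi : ℝ) : ℂ)) = ((-((n : ℝ) * x) : ℝ) : ℂ) * Complex.I := by
        push_cast
        field_simp
      rw [e, Complex.exp_mul_I, ← Complex.ofReal_cos, ← Complex.ofReal_sin, Real.cos_neg,
        Real.sin_neg]
      push_cast
      ring
    rw [intervalIntegral.integral_congr (fun x _ => key x), intervalIntegral.integral_sub,
      intervalIntegral.integral_const_mul, intervalIntegral.integral_ofReal,
      intervalIntegral.integral_ofReal, cos_int h n, sin_int h n]
    · simp
    · apply Continuous.intervalIntegrable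
      exact Complex.continuous_ofReal.comp (hG.mul (Real.continuous_cos.comp
        (continuous_const.mul continuous_id)))
    · apply Continuous.intervalIntegrable
      exact continuous_const.mul (Complex.continuous_ofReal.comp (hG.mul
        (Real.continuous_sin.comp (continuous_const.mul continuous_id))))
  have hz : fourierCoeff F = fun _ => 0 := funext hcoef
  have hs : Summable (fourierCoeff F) := by
    rw [hz]
    exact summable_zero
  intro x
  have h1 := has_pointwise_sum_fourier_series_of_summable hs (x : AddCircle (2 * Real.pi))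
  rw [hF] at h1
  have h2 : HasSum (fun i : ℤ => fourierCoeff F i • fourier i (x : AddCircle (2 * Real.pi)))
      (0 : ℂ) := by
    simp only [hcoef, zero_smul]
    exact hasSum_zero
  have h3 := h1.unique h2
  exact_mod_cast h3

end TRBM

theorem specTRB (hTRG : SpecTRG) : SpecTRB := by
  intro u₀ hu
  refine ⟨fun N i => TRBM.bb u₀ i, fun N k => TRBM.bessel hTRG hu N k, ?_⟩
  obtain ⟨M, hM, hb⟩ := TRBM.bb_le hTRG hu
  set B : ℕ → ℝ := fun j => (if j = 0 then |TRBM.bb u₀ 0| else 0) + M * (1 / (j : ℝ) ^ 2) with hB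
  have hBs : Summable B := by
    apply Summable.add
    · exact summable_of_ne_finset_zero (s := {0}) (fun j hj => by
        rw [Finset.mem_singleton] at hj
        rw [if_neg hj])
    · exact (Real.summable_one_div_nat_pow.2 (by norm_num)).mul_left M
  have hfb : ∀ (j : ℕ) (x : ℝ), ‖TRBM.bb u₀ j * tb j x‖ ≤ B j := by
    intro j x
    rw [norm_mul]
    calc ‖TRBM.bb u₀ j‖ * ‖tb j x‖ ≤ ‖TRBM.bb u₀ j‖ * 1 :=
          mul_le_mul_of_nonneg_left (TRBM.tb_le j x) (norm_nonneg _)
      _ = |TRBM.bb u₀ j| := by rw [mul_one, Real.norm_eq_abs]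
      _ ≤ B j := hb j
  have htb : ∀ j : ℕ, Continuous (tb j) := fun j => (TRBM.SPtb hTRG j).sm.continuous
  have hunif := tendstoUniformly_tsum_nat hBs hfb
  set v : ℝ → ℝ := fun x => ∑' j : ℕ, TRBM.bb u₀ j * tb j x with hv
  have hvc : Continuous v := continuous_tsum (fun j => continuous_const.mul (htb j)) hBs hfb
  have hsum : ∀ x, Summable (fun j => TRBM.bb u₀ j * tb j x) := fun x =>
    Summable.of_norm_bounded hBs (fun j => hfb j x)
  have hvp : ∀ x, v (x + 2 * Real.pi) = v x := by
    intro x
    simp only [hv]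
    apply tsum_congr
    intro j
    rw [(TRBM.SPtb hTRG j).per]
  have hGc : Continuous (fun x => u₀ x - v x) := hu.sm.continuous.sub hvc
  have hG0 : ∀ x, u₀ x - v x = 0 := by
    apply TRBM.compl (G := fun x => u₀ x - v x) hGc
    · intro x
      simp only [hvp x, hu.per x]
    · intro i
      have h1 : HasSum (fun j : ℕ => ∫ x in (0)..(2 * Real.pi), TRBM.bb u₀ j * tb j x * tb i x)
          (∫ x in (0)..(2 * Real.pi), v x * tb i x) := by
        apply intervalIntegral.hasSum_integral_of_dominated_convergence (fun j _ => B j)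
        · intro j
          exact ((continuous_const.mul (htb j)).mul (htb i)).aestronglyMeasurable
        · intro j
          filter_upwards with t _
          rw [norm_mul]
          calc ‖TRBM.bb u₀ j * tb j t‖ * ‖tb i t‖ ≤ B j * 1 :=
                mul_le_mul (hfb j t) (TRBM.tb_le i t) (norm_nonneg _)
                  (le_trans (norm_nonneg _) (hfb j t))
            _ = B j := mul_one _
        · filter_upwards with t _
          exact hBs
        · exact continuous_const.intervalIntegrable _ _
        · filter_upwards with t _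
          exact (hsum t).hasSum.mul_right (tb i t)
      have h2 : HasSum (fun j : ℕ => ∫ x in (0)..(2 * Real.pi), TRBM.bb u₀ j * tb j x * tb i x)
          (∫ x in (0)..(2 * Real.pi), u₀ x * tb i x) := by
        have e : ∀ j : ℕ, (∫ x in (0)..(2 * Real.pi), TRBM.bb u₀ j * tb j x * tb i x) =
            if j = i then (∫ x in (0)..(2 * Real.pi), u₀ x * tb i x) else 0 := by
          intro j
          have e1 : (∫ x in (0)..(2 * Real.pi), TRBM.bb u₀ j * tb j x * tb i x) =
              TRBM.bb u₀ j * ∫ x in (0)..(2 * Real.pi), tb j x * tb i x := by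
            rw [← intervalIntegral.integral_const_mul]
            apply intervalIntegral.integral_congr
            intro x _
            simp only
            ring
          rw [e1]
          by_cases hji : j = i
          · subst hji
            rw [if_pos rfl]
            have h0 : (∫ x in (0)..(2 * Real.pi), tb j x * tb j x) ≠ 0 := by
              have := TRBM.nrm_ge hTRG j
              have := Real.pi_pos
              linarith
            unfold TRBM.bb
            rw [div_mul_cancel₀ _ h0]
          · rw [if_neg hji, hTRG.2.2.1, if_neg hji, mul_zero]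
        simp_rw [e]
        exact hasSum_ite_eq i _
      have h3 := h1.unique h2
      have e : (∫ x in (0)..(2 * Real.pi), (u₀ x - v x) * tb i x) =
          (∫ x in (0)..(2 * Real.pi), u₀ x * tb i x) - ∫ x in (0)..(2 * Real.pi), v x * tb i x := by
        have i1 : IntervalIntegrable (fun x => u₀ x * tb i x) volume 0 (2 * Real.pi) :=
          (hu.sm.continuous.mul (htb i)).intervalIntegrable _ _
        have i2 : IntervalIntegrable (fun x => v x * tb i x) volume 0 (2 * Real.pi) :=
          (hvc.mul (htb i)).intervalIntegrable _ _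
        rw [← intervalIntegral.integral_sub i1 i2]
        apply intervalIntegral.integral_congr
        intro x _
        simp only
        ring
      rw [e, h3, sub_self]
  intro η hη
  rw [Metric.tendstoUniformly_iff] at hunif
  have h1 := hunif η hη
  have h2 : Tendsto (fun N : ℕ => 2 * N + 1) atTop atTop :=
    tendsto_atTop_mono (fun N => by simp only [id]; omega) tendsto_id
  filter_upwards [h2.eventually h1] with N hN x
  have h3 := (hN x).le
  have e1 : tp N (fun i => TRBM.bb u₀ i) x =
      ∑ n ∈ Finset.range (2 * N + 1), TRBM.bb u₀ n * tb n x := by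
    unfold tp
    rw [Finset.sum_range]
  have e2 : v x = u₀ x := by
    have := hG0 x
    linarith
  rw [dist_comm, Real.dist_eq] at h3
  rw [e1, ← e2]
  exact h3

end

end Pool.Agent.Lib.MPb879c5.WP
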