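import Pool.Agent.Lib.MP_b879c5_an.WP.SpecG

/-!
# MP_b879c5_an, WP: module TRD (completeness of the trigonometric system)
-/

set_option autoImplicit false

namespace Pool.Agent.Lib.MPb879c5.WP

open Set Filter MeasureTheory Topology
open Pool.Agent.Lib.MP_b879c5_an
open scoped ContDiff

namespace TRDM

theorem coe_fourier (n : ℤ) (x : ℝ) :
    fourier n (x : AddCircle (2 * Real.pi)) = Complex.exp ((n : ℂ) * x * Complex.I) := by
  rw [fourier_coe_apply]
  congr 1
  have h : (Real.pi : ℂ) ≠ 0 := by exact_mod_cast Real.pi_ne_zero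
  push_cast
  field_simp

theorem tp_single (j : ℕ) (x : ℝ) :
    tp j (Pi.single (⟨j, by omega⟩ : Fin (2 * j + 1)) (1 : ℝ)) x = tb j x := by
  unfold tp
  rw [Finset.sum_eq_single (⟨j, by omega⟩ : Fin (2 * j + 1))]
  · rw [Pi.single_eq_same, one_mul]
  · intro i _ hi
    rw [Pi.single_eq_of_ne hi, zero_mul]
  · intro hi
    exact absurd (Finset.mem_univ _) hi

theorem tb_cos (k : ℕ) (x : ℝ) : tb (2 * k) x = Real.cos ((k : ℝ) * x) := by
  unfold tb
  rw [if_pos (by simp), show 2 * k / 2 = k by omega]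

theorem tb_sin (k : ℕ) (x : ℝ) : tb (2 * k + 1) x = Real.sin (((k + 1 : ℕ) : ℝ) * x) := by
  unfold tb
  rw [if_neg (by simp), show (2 * k + 1 + 1) / 2 = k + 1 by omega]

end TRDM

open TRDM in
theorem specTRD : SpecTRD := by
  intro h hc hper h0
  have hfact : Fact (0 < 2 * Real.pi) := ⟨Real.two_pi_pos⟩
  have htb : ∀ j : ℕ, (∫ x in (0)..(2 * Real.pi), h x * tb j x) = 0 := by
    intro j
    have h1 := h0 j (Pi.single (⟨j, by omega⟩ : Fin (2 * j + 1)) (1 : ℝ))
    refine Eq.trans (intervalIntegral.integral_congr fun x _ => ?_) h1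
    show h x * tb j x = h x * tp j (Pi.single (⟨j, by omega⟩ : Fin (2 * j + 1)) (1 : ℝ)) x
    rw [tp_single]
  have hcos : ∀ k : ℕ, (∫ x in (0)..(2 * Real.pi), h x * Real.cos ((k : ℝ) * x)) = 0 := by
    intro k
    refine Eq.trans (intervalIntegral.integral_congr fun x _ => ?_) (htb (2 * k))
    show h x * Real.cos ((k : ℝ) * x) = h x * tb (2 * k) x
    rw [tb_cos]
  have hsin : ∀ k : ℕ, (∫ x in (0)..(2 * Real.pi), h x * Real.sin ((k : ℝ) * x)) = 0 := by
    intro k
    rcases k with _ | k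
    · simp
    · refine Eq.trans (intervalIntegral.integral_congr fun x _ => ?_) (htb (2 * k + 1))
      show h x * Real.sin (((k + 1 : ℕ) : ℝ) * x) = h x * tb (2 * k + 1) x
      rw [tb_sin]
  have hcosZ : ∀ m : ℤ, (∫ x in (0)..(2 * Real.pi), h x * Real.cos ((m : ℝ) * x)) = 0 := by
    intro m
    obtain ⟨k, rfl | rfl⟩ := m.eq_nat_or_neg
    · exact_mod_cast hcos k
    · refine Eq.trans (intervalIntegral.integral_congr fun x _ => ?_) (hcos k)
      show h x * Real.cos (((-(k : ℤ) : ℤ) : ℝ) * x) = h x * Real.cos ((k : ℝ) * x)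
      push_cast
      rw [neg_mul, Real.cos_neg]
  have hsinZ : ∀ m : ℤ, (∫ x in (0)..(2 * Real.pi), h x * Real.sin ((m : ℝ) * x)) = 0 := by
    intro m
    obtain ⟨k, rfl | rfl⟩ := m.eq_nat_or_neg
    · exact_mod_cast hsin k
    · have h1 : (∫ x in (0)..(2 * Real.pi), h x * Real.sin (((-(k : ℤ) : ℤ) : ℝ) * x)) =
          ∫ x in (0)..(2 * Real.pi), -(h x * Real.sin ((k : ℝ) * x)) := by
        refine intervalIntegral.integral_congr fun x _ => ?_
        show h x * Real.sin (((-(k : ℤ) : ℤ) : ℝ) * x) = -(h x * Real.sin ((k : ℝ) * x))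
        push_cast
        rw [neg_mul, Real.sin_neg]
        ring
      rw [h1, intervalIntegral.integral_neg, hsin k, neg_zero]
  have hp : Function.Periodic (fun x : ℝ => (h x : ℂ)) (2 * Real.pi) := fun x => by
    show (h (x + 2 * Real.pi) : ℂ) = h x
    rw [hper]
  let G : C(AddCircle (2 * Real.pi), ℂ) := ⟨hp.lift, continuous_coinduced_dom.mpr
    (Complex.continuous_ofReal.comp hc)⟩
  have hG : ∀ y : ℝ, G (y : AddCircle (2 * Real.pi)) = h y := fun y => rfl
  have hcoef : ∀ n : ℤ, fourierCoeff G n = 0 := by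
    intro n
    rw [fourierCoeff_eq_intervalIntegral G n 0, zero_add]
    have e : ∀ x : ℝ, fourier (-n) (x : AddCircle (2 * Real.pi)) • G (x : AddCircle (2 * Real.pi)) =
        ((h x * Real.cos (((-n : ℤ) : ℝ) * x) : ℝ) : ℂ) +
          ((h x * Real.sin (((-n : ℤ) : ℝ) * x) : ℝ) : ℂ) * Complex.I := by
      intro x
      rw [coe_fourier, hG, smul_eq_mul]
      have e1 : (((-n : ℤ) : ℂ)) * x * Complex.I = ((((-n : ℤ) : ℝ) * x : ℝ) : ℂ) * Complex.I := by
        push_cast
        ring
      rw [e1, Complex.exp_mul_I, ← Complex.ofReal_cos, ← Complex.ofReal_sin]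
      rw [Complex.ofReal_mul (h x), Complex.ofReal_mul (h x)]
      ring
    simp_rw [e]
    have c1 : Continuous (fun x : ℝ => ((h x * Real.cos (((-n : ℤ) : ℝ) * x) : ℝ) : ℂ)) := by fun_prop
    have c2 : Continuous (fun x : ℝ => ((h x * Real.sin (((-n : ℤ) : ℝ) * x) : ℝ) : ℂ) * Complex.I) := by fun_prop
    rw [intervalIntegral.integral_add (c1.intervalIntegrable _ _) (c2.intervalIntegrable _ _),
      intervalIntegral.integral_mul_const, intervalIntegral.integral_ofReal, intervalIntegral.integral_ofReal,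
      hcosZ, hsinZ]
    simp
  have hsZ : Summable (fourierCoeff G) := by
    have : fourierCoeff G = fun _ => 0 := funext hcoef
    rw [this]
    exact summable_zero
  intro x
  have hS := has_pointwise_sum_fourier_series_of_summable hsZ (x : AddCircle (2 * Real.pi))
  simp only [hcoef, zero_smul] at hS
  have h1 := hS.unique hasSum_zero
  rw [hG] at h1
  exact_mod_cast h1

end Pool.Agent.Lib.MPb879c5.WP
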