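import Pool.Agent.Lib.MP_b879c5_an.WP.SpecG

/-!
# TRG: trigonometric polynomials
-/

set_option autoImplicit false

namespace Pool.Agent.Lib.MPb879c5.WP

open Set Filter MeasureTheory Topology
open Pool.Agent.Lib.MP_b879c5_an
open scoped ContDiff

namespace TRGM

theorem tb_even (m : ℕ) (x : ℝ) : tb (2 * m) x = Real.cos ((m : ℝ) * x) := by
  unfold tb
  rw [if_pos (even_two_mul m), Nat.mul_div_cancel_left m (by norm_num)]

theorem tb_odd (m : ℕ) (x : ℝ) : tb (2 * m + 1) x = Real.sin (((m : ℝ) + 1) * x) := by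
  unfold tb
  have h : ¬ Even (2 * m + 1) := by
    rw [Nat.not_even_iff_odd]
    exact ⟨m, rfl⟩
  rw [if_neg h]
  have h2 : (2 * m + 1 + 1) / 2 = m + 1 := by omega
  rw [h2]
  push_cast
  rfl

theorem tb_even' (m : ℕ) : tb (2 * m) = fun x => Real.cos ((m : ℝ) * x) := funext (tb_even m)

theorem tb_odd' (m : ℕ) : tb (2 * m + 1) = fun x => Real.sin (((m : ℝ) + 1) * x) := funext (tb_odd m)

theorem cases_tb (j : ℕ) : (∃ m, j = 2 * m) ∨ ∃ m, j = 2 * m + 1 := by
  rcases Nat.even_or_odd' j with ⟨m, h | h⟩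
  · exact Or.inl ⟨m, h⟩
  · exact Or.inr ⟨m, h⟩

theorem tb_smooth (j : ℕ) : ContDiff ℝ ∞ (tb j) := by
  rcases cases_tb j with ⟨m, rfl⟩ | ⟨m, rfl⟩
  · rw [tb_even']
    exact Real.contDiff_cos.comp (contDiff_const.mul contDiff_id)
  · rw [tb_odd']
    exact Real.contDiff_sin.comp (contDiff_const.mul contDiff_id)

theorem tb_per (j : ℕ) (x : ℝ) : tb j (x + 2 * Real.pi) = tb j x := by
  rcases cases_tb j with ⟨m, rfl⟩ | ⟨m, rfl⟩
  · rw [tb_even, tb_even, mul_add, Real.cos_add_nat_mul_two_pi]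
  · rw [tb_odd, tb_odd, mul_add]
    have h : ((m : ℝ) + 1) = ((m + 1 : ℕ) : ℝ) := by push_cast; rfl
    rw [h, Real.sin_add_nat_mul_two_pi]

theorem tb_deriv (N j : ℕ) (hj : j < 2 * N + 1) : ∃ (a : ℝ) (i : ℕ), i < 2 * N + 1 ∧
    ∀ x, HasDerivAt (tb j) (a * tb i x) x := by
  rcases cases_tb j with ⟨m, rfl⟩ | ⟨m, rfl⟩
  · rcases m with _ | m
    · refine ⟨0, 0, by omega, fun x => ?_⟩
      rw [tb_even', zero_mul]
      have h : (fun x : ℝ => Real.cos (((0 : ℕ) : ℝ) * x)) = fun _ => 1 := by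
        funext y
        rw [Nat.cast_zero, zero_mul, Real.cos_zero]
      rw [h]
      exact hasDerivAt_const x 1
    · refine ⟨-((m : ℝ) + 1), 2 * m + 1, by omega, fun x => ?_⟩
      rw [tb_even', tb_odd]
      have h1 : HasDerivAt (fun x : ℝ => (((m + 1 : ℕ) : ℝ)) * x) (((m + 1 : ℕ) : ℝ)) x := by
        have := (hasDerivAt_id x).const_mul (((m + 1 : ℕ) : ℝ))
        rwa [mul_one] at this
      have h2 := h1.cos
      refine h2.congr_deriv ?_
      push_cast
      ring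
  · refine ⟨(m : ℝ) + 1, 2 * (m + 1), by omega, fun x => ?_⟩
    rw [tb_odd', tb_even]
    have h1 : HasDerivAt (fun x : ℝ => ((m : ℝ) + 1) * x) ((m : ℝ) + 1) x := by
      have := (hasDerivAt_id x).const_mul ((m : ℝ) + 1)
      rwa [mul_one] at this
    have h2 := h1.sin
    refine h2.congr_deriv ?_
    push_cast
    ring

/-- trigonometric polynomials of degree at most `N` -/
def T (N : ℕ) (f : ℝ → ℝ) : Prop := ∃ φ : Fin (2 * N + 1) → ℝ, f = tp N φ

theorem T_single (N j : ℕ) (hj : j < 2 * N + 1) : T N (tb j) := by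
  classical
  refine ⟨fun i => if i = ⟨j, hj⟩ then 1 else 0, ?_⟩
  funext x
  unfold tp
  rw [Finset.sum_eq_single (⟨j, hj⟩ : Fin (2 * N + 1))]
  · beta_reduce
    rw [if_pos rfl, one_mul]
  · intro i _ hi
    beta_reduce
    rw [if_neg hi, zero_mul]
  · intro h
    exact absurd (Finset.mem_univ _) h

theorem T_smul (N : ℕ) (a : ℝ) (f : ℝ → ℝ) (h : T N f) : T N (fun x => a * f x) := by
  obtain ⟨φ, rfl⟩ := h
  refine ⟨fun j => a * φ j, ?_⟩
  funext x
  unfold tp
  rw [Finset.mul_sum]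
  exact Finset.sum_congr rfl fun j _ => (mul_assoc _ _ _).symm

theorem T_sum {ι : Type} [Fintype ι] (N : ℕ) (f : ι → ℝ → ℝ) (h : ∀ i, T N (f i)) :
    T N (fun x => ∑ i, f i x) := by
  choose φ hφ using h
  refine ⟨fun j => ∑ i, φ i j, ?_⟩
  funext x
  have h1 : ∀ i, f i x = ∑ j, φ i j * tb j x := by
    intro i
    rw [hφ i]
    rfl
  unfold tp
  simp_rw [h1, Finset.sum_mul]
  exact Finset.sum_comm

theorem T_deriv (N : ℕ) (c : Fin (2 * N + 1) → ℝ) : T N (deriv (tp N c)) := by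
  have h : ∀ j : Fin (2 * N + 1), ∃ (a : ℝ) (i : ℕ), i < 2 * N + 1 ∧ ∀ x, HasDerivAt (tb j) (a * tb i x) x :=
    fun j => tb_deriv N j j.2
  choose a i hi hd using h
  have h1 : deriv (tp N c) = fun x => ∑ j, c j * (a j * tb (i j) x) := by
    funext x
    apply HasDerivAt.deriv
    unfold tp
    exact HasDerivAt.fun_sum fun j _ => (hd j x).const_mul (c j)
  rw [h1]
  exact T_sum N _ fun j => T_smul N _ _ (T_smul N _ _ (T_single N _ (hi j)))

theorem T_iter (N : ℕ) (c : Fin (2 * N + 1) → ℝ) (k : ℕ) : T N (iteratedDeriv k (tp N c)) := by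
  induction k with
  | zero =>
    rw [iteratedDeriv_zero]
    exact ⟨c, rfl⟩
  | succ k ih =>
    rw [iteratedDeriv_succ]
    obtain ⟨φ, hφ⟩ := ih
    rw [hφ]
    exact T_deriv N φ

theorem T_mono (M N : ℕ) (φ : Fin (2 * M + 1) → ℝ) (h : M ≤ N) : T N (tp M φ) := by
  have h1 : tp M φ = fun x => ∑ j : Fin (2 * M + 1), φ j * tb j x := rfl
  rw [h1]
  exact T_sum N _ fun j => T_smul N _ _ (T_single N _ (by have := j.2; omega))

theorem tp_SP (N : ℕ) (c : Fin (2 * N + 1) → ℝ) : SP (tp N c) := by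
  constructor
  · have h1 : tp N c = fun x => ∑ j : Fin (2 * N + 1), c j * tb j x := rfl
    rw [h1]
    exact ContDiff.sum fun j _ => contDiff_const.mul (tb_smooth j)
  · intro x
    unfold tp
    exact Finset.sum_congr rfl fun j _ => by rw [tb_per]

theorem int_cos (n : ℤ) : (∫ x in (0)..(2 * Real.pi), Real.cos ((n : ℝ) * x)) = if n = 0 then 2 * Real.pi else 0 := by
  by_cases h : n = 0
  · rw [if_pos h, h]
    simp
  · rw [if_neg h]
    have hn : (n : ℝ) ≠ 0 := Int.cast_ne_zero.mpr h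
    rw [intervalIntegral.integral_comp_mul_left (fun y => Real.cos y) hn, integral_cos, mul_zero, Real.sin_zero,
      sub_zero]
    have h2 : Real.sin ((n : ℝ) * (2 * Real.pi)) = 0 := by
      have := Real.sin_int_mul_pi (n * 2)
      push_cast at this
      rw [← this]
      congr 1
      ring
    rw [h2, smul_zero]

theorem int_sin (n : ℤ) : (∫ x in (0)..(2 * Real.pi), Real.sin ((n : ℝ) * x)) = 0 := by
  by_cases h : n = 0
  · rw [h]
    simp
  · have hn : (n : ℝ) ≠ 0 := Int.cast_ne_zero.mpr h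
    rw [intervalIntegral.integral_comp_mul_left (fun y => Real.sin y) hn, integral_sin, mul_zero, Real.cos_zero,
      Real.cos_int_mul_two_pi, sub_self, smul_zero]

theorem cosI (n : ℤ) : IntervalIntegrable (fun x => Real.cos ((n : ℝ) * x)) volume 0 (2 * Real.pi) :=
  (Real.continuous_cos.comp (continuous_const.mul continuous_id)).intervalIntegrable _ _

theorem sinI (n : ℤ) : IntervalIntegrable (fun x => Real.sin ((n : ℝ) * x)) volume 0 (2 * Real.pi) :=
  (Real.continuous_sin.comp (continuous_const.mul continuous_id)).intervalIntegrable _ _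

theorem int_cc (a b : ℕ) : (∫ x in (0)..(2 * Real.pi), Real.cos ((a : ℝ) * x) * Real.cos ((b : ℝ) * x)) =
    if a = b then (if a = 0 then 2 * Real.pi else Real.pi) else 0 := by
  have h1 : ∀ x : ℝ, Real.cos ((a : ℝ) * x) * Real.cos ((b : ℝ) * x) =
      2⁻¹ * (Real.cos ((((a : ℤ) - (b : ℤ) : ℤ) : ℝ) * x) + Real.cos ((((a : ℤ) + (b : ℤ) : ℤ) : ℝ) * x)) := by
    intro x
    have e1 : ((((a : ℤ) - (b : ℤ) : ℤ) : ℝ) * x) = (a : ℝ) * x - (b : ℝ) * x := by push_cast; ring
    have e2 : ((((a : ℤ) + (b : ℤ) : ℤ) : ℝ) * x) = (a : ℝ) * x + (b : ℝ) * x := by push_cast; ring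
    rw [e1, e2, Real.cos_sub, Real.cos_add]
    ring
  simp_rw [h1]
  rw [intervalIntegral.integral_const_mul, intervalIntegral.integral_add (cosI _) (cosI _), int_cos, int_cos]
  by_cases hab : a = b
  · subst hab
    by_cases ha : a = 0
    · subst ha
      simp
      ring
    · have h2 : ¬ ((a : ℤ) + (a : ℤ) = 0) := by omega
      rw [if_pos (sub_self _), if_neg h2, if_pos rfl, if_neg ha]
      ring
  · have h2 : ¬ ((a : ℤ) - (b : ℤ) = 0) := by omega
    have h3 : ¬ ((a : ℤ) + (b : ℤ) = 0) := by omega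
    rw [if_neg h2, if_neg h3, if_neg hab]
    ring

theorem int_ss (a b : ℕ) : (∫ x in (0)..(2 * Real.pi), Real.sin (((a : ℝ) + 1) * x) * Real.sin (((b : ℝ) + 1) * x)) =
    if a = b then Real.pi else 0 := by
  have h1 : ∀ x : ℝ, Real.sin (((a : ℝ) + 1) * x) * Real.sin (((b : ℝ) + 1) * x) =
      2⁻¹ * (Real.cos ((((a : ℤ) - (b : ℤ) : ℤ) : ℝ) * x) - Real.cos ((((a : ℤ) + (b : ℤ) + 2 : ℤ) : ℝ) * x)) := by
    intro x
    have e1 : ((((a : ℤ) - (b : ℤ) : ℤ) : ℝ) * x) = ((a : ℝ) + 1) * x - ((b : ℝ) + 1) * x := by push_cast; ring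
    have e2 : ((((a : ℤ) + (b : ℤ) + 2 : ℤ) : ℝ) * x) = ((a : ℝ) + 1) * x + ((b : ℝ) + 1) * x := by push_cast; ring
    rw [e1, e2, Real.cos_sub, Real.cos_add]
    ring
  simp_rw [h1]
  rw [intervalIntegral.integral_const_mul, intervalIntegral.integral_sub (cosI _) (cosI _), int_cos, int_cos]
  have h3 : ¬ ((a : ℤ) + (b : ℤ) + 2 = 0) := by omega
  rw [if_neg h3]
  by_cases hab : a = b
  · subst hab
    rw [if_pos (sub_self _), if_pos rfl]
    ring
  · have h2 : ¬ ((a : ℤ) - (b : ℤ) = 0) := by omega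
    rw [if_neg h2, if_neg hab]
    ring

theorem int_sc (a b : ℕ) : (∫ x in (0)..(2 * Real.pi), Real.sin (((a : ℝ) + 1) * x) * Real.cos ((b : ℝ) * x)) = 0 := by
  have h1 : ∀ x : ℝ, Real.sin (((a : ℝ) + 1) * x) * Real.cos ((b : ℝ) * x) =
      2⁻¹ * (Real.sin ((((a : ℤ) + 1 - (b : ℤ) : ℤ) : ℝ) * x) + Real.sin ((((a : ℤ) + 1 + (b : ℤ) : ℤ) : ℝ) * x)) := by
    intro x
    have e1 : ((((a : ℤ) + 1 - (b : ℤ) : ℤ) : ℝ) * x) = ((a : ℝ) + 1) * x - (b : ℝ) * x := by push_cast; ring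
    have e2 : ((((a : ℤ) + 1 + (b : ℤ) : ℤ) : ℝ) * x) = ((a : ℝ) + 1) * x + (b : ℝ) * x := by push_cast; ring
    rw [e1, e2, Real.sin_sub, Real.sin_add]
    ring
  simp_rw [h1]
  rw [intervalIntegral.integral_const_mul, intervalIntegral.integral_add (sinI _) (sinI _), int_sin, int_sin]
  ring

theorem orth (i j : ℕ) : (∫ x in (0)..(2 * Real.pi), tb i x * tb j x) =
    if i = j then (if i = 0 then 2 * Real.pi else Real.pi) else 0 := by
  rcases cases_tb i with ⟨a, rfl⟩ | ⟨a, rfl⟩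
  · rcases cases_tb j with ⟨b, rfl⟩ | ⟨b, rfl⟩
    · simp_rw [tb_even]
      rw [int_cc]
      by_cases hab : a = b
      · subst hab
        rw [if_pos rfl, if_pos rfl]
        by_cases ha : a = 0
        · rw [if_pos ha, if_pos (by omega)]
        · rw [if_neg ha, if_neg (by omega)]
      · rw [if_neg hab, if_neg (by omega)]
    · simp_rw [tb_even, tb_odd, mul_comm (Real.cos _)]
      rw [int_sc, if_neg (by omega)]
  · rcases cases_tb j with ⟨b, rfl⟩ | ⟨b, rfl⟩
    · simp_rw [tb_even, tb_odd]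
      rw [int_sc, if_neg (by omega)]
    · simp_rw [tb_odd]
      rw [int_ss]
      by_cases hab : a = b
      · rw [if_pos hab, if_pos (by omega), if_neg (by omega)]
      · rw [if_neg hab, if_neg (by omega)]

theorem en_zero (N : ℕ) (c : Fin (2 * N + 1) → ℝ) :
    En 0 (tp N c) = ∑ i : Fin (2 * N + 1), c i ^ 2 * (if (i : ℕ) = 0 then 2 * Real.pi else Real.pi) := by
  unfold En
  rw [iteratedDeriv_zero]
  have h1 : ∀ x, tp N c x ^ 2 = ∑ i : Fin (2 * N + 1), ∑ j : Fin (2 * N + 1), (c i * c j) * (tb i x * tb j x) := by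
    intro x
    unfold tp
    rw [sq, Finset.sum_mul_sum]
    refine Finset.sum_congr rfl fun i _ => Finset.sum_congr rfl fun j _ => ?_
    ring
  simp_rw [h1]
  have hI : ∀ i j : Fin (2 * N + 1), IntervalIntegrable (fun x => (c i * c j) * (tb i x * tb j x)) volume 0 (2 * Real.pi) :=
    fun i j => (continuous_const.mul ((tb_smooth i).continuous.mul (tb_smooth j).continuous)).intervalIntegrable _ _
  rw [intervalIntegral.integral_finsetSum]
  · refine Finset.sum_congr rfl fun i _ => ?_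
    rw [intervalIntegral.integral_finsetSum (fun j _ => hI i j)]
    rw [Finset.sum_eq_single i]
    · rw [intervalIntegral.integral_const_mul, orth, if_pos rfl, ← sq]
    · intro j _ hj
      rw [intervalIntegral.integral_const_mul, orth, if_neg (fun h => hj (Fin.ext h.symm)), mul_zero]
    · intro h
      exact absurd (Finset.mem_univ _) h
  · intro i _
    have hc : Continuous (fun x : ℝ => ∑ j : Fin (2 * N + 1), (c i * c j) * (tb i x * tb j x)) :=
      continuous_finsetSum _ fun j _ =>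
        continuous_const.mul ((tb_smooth i).continuous.mul (tb_smooth j).continuous)
    exact hc.intervalIntegrable _ _

theorem en_ge (N : ℕ) (c : Fin (2 * N + 1) → ℝ) : Real.pi * ‖c‖ ^ 2 ≤ En 0 (tp N c) := by
  rw [en_zero]
  have h1 : ‖c‖ ≤ Real.sqrt (∑ i, c i ^ 2) := by
    rw [pi_norm_le_iff_of_nonneg (Real.sqrt_nonneg _)]
    intro i
    rw [Real.norm_eq_abs]
    apply Real.abs_le_sqrt
    exact Finset.single_le_sum (f := fun i => c i ^ 2) (fun j _ => sq_nonneg _) (Finset.mem_univ i)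
  have h2 : ‖c‖ ^ 2 ≤ ∑ i, c i ^ 2 := by
    have h3 := pow_le_pow_left₀ (norm_nonneg c) h1 2
    rwa [Real.sq_sqrt (Finset.sum_nonneg fun i _ => sq_nonneg _)] at h3
  calc Real.pi * ‖c‖ ^ 2 ≤ Real.pi * ∑ i, c i ^ 2 := mul_le_mul_of_nonneg_left h2 Real.pi_pos.le
    _ = ∑ i, c i ^ 2 * Real.pi := by
        rw [Finset.mul_sum]
        exact Finset.sum_congr rfl fun i _ => mul_comm _ _
    _ ≤ ∑ i : Fin (2 * N + 1), c i ^ 2 * (if (i : ℕ) = 0 then 2 * Real.pi else Real.pi) := by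
        refine Finset.sum_le_sum fun i _ => mul_le_mul_of_nonneg_left ?_ (sq_nonneg _)
        split_ifs
        · linarith [Real.pi_pos]
        · exact le_refl _

end TRGM

theorem specTRG : SpecTRG := by
  refine ⟨TRGM.tp_SP, ?_, TRGM.orth, TRGM.en_ge, fun j => ⟨TRGM.tb_smooth j, TRGM.tb_per j⟩, ?_⟩
  · intro N c k
    exact TRGM.T_iter N c k
  · intro M N φ h
    exact TRGM.T_mono M N φ h

end Pool.Agent.Lib.MPb879c5.WP
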