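import Pool.Agent.Lib.MP_b879c5_an.WP.Spec

/-!
# MP_b879c5_an, module UNQ: uniqueness of smooth periodic solutions of `u_t = u_xxx + u_x^2 + u^2`
-/

set_option autoImplicit false

namespace Pool.Agent.Lib.MPb879c5.WP

open Set Filter MeasureTheory Topology
open Pool.Agent.Lib.MP_b879c5_an
open scoped ContDiff

namespace UNQM

/-- `∫ (U - V)²` -/
noncomputable def yy (U V : ℝ × ℝ → ℝ) (t : ℝ) : ℝ :=
  ∫ x in (0)..(2 * Real.pi), (U (t, x) - V (t, x)) ^ 2

/-- the coefficient -/
noncomputable def cc (U V : ℝ × ℝ → ℝ) (p : ℝ × ℝ) : ℝ :=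
  2 * (U p + V p) - (Dx (Dx U) p + Dx (Dx V) p)

variable {T : ℝ} {U V : ℝ × ℝ → ℝ}

theorem hasDerivAt_yy (hU : Sol T U) (hV : Sol T V) {t : ℝ} (ht : t ∈ Ioo 0 T) :
    HasDerivAt (yy U V)
      (∫ x in (0)..(2 * Real.pi), (U (t, x) - V (t, x)) ^ 2 * cc U V (t, x)) t := by
  have hsm : Sm T (fun p => (U p - V p) ^ 2) := (ContDiffOn.sub hU.sm hV.sm).pow 2
  have h1 := hsm.hasDerivAt_integral ht
  have a0 := hU.sm.continuous_x ht
  have a1 := hU.sm.dx.continuous_x ht
  have a2 := hU.sm.dx.dx.continuous_x ht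
  have a3 := hU.sm.dx.dx.dx.continuous_x ht
  have b0 := hV.sm.continuous_x ht
  have b1 := hV.sm.dx.continuous_x ht
  have b2 := hV.sm.dx.dx.continuous_x ht
  have b3 := hV.sm.dx.dx.dx.continuous_x ht
  have p1 := Per.dx hU.sm hU.per
  have p2 := Per.dx hU.sm.dx p1
  have q1 := Per.dx hV.sm hV.per
  have q2 := Per.dx hV.sm.dx q1
  have h2 : ∫ x in (0)..(2 * Real.pi), Dt (fun p => (U p - V p) ^ 2) (t, x)
      = ∫ x in (0)..(2 * Real.pi), (U (t, x) - V (t, x)) ^ 2 * cc U V (t, x) := by
    have h3 : ∀ x, Dt (fun p => (U p - V p) ^ 2) (t, x) =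
        (2 * ((U (t, x) - V (t, x)) * (Dx (Dx (Dx U)) (t, x) - Dx (Dx (Dx V)) (t, x))) +
          (2 * ((U (t, x) - V (t, x)) * (Dx U (t, x) - Dx V (t, x))) *
            (Dx U (t, x) + Dx V (t, x)) +
            (U (t, x) - V (t, x)) ^ 2 * (Dx (Dx U) (t, x) + Dx (Dx V) (t, x)))) +
          (U (t, x) - V (t, x)) ^ 2 * cc U V (t, x) := by
      intro x
      have ha := hsm.hasDerivAt_t ht x
      have hb := ((hU.sm.hasDerivAt_t ht x).sub (hV.sm.hasDerivAt_t ht x)).pow 2
      rw [ha.unique hb, hU.pde t ht x, hV.pde t ht x]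
      simp only [Nat.cast_ofNat, Nat.add_one_sub_one, pow_one, Pi.sub_apply, cc]
      ring
    simp_rw [h3]
    rw [intervalIntegral.integral_add]
    rotate_left
    · exact Continuous.intervalIntegrable ((continuous_const.mul ((a0.sub b0).mul (a3.sub b3))).add
        (((continuous_const.mul ((a0.sub b0).mul (a1.sub b1))).mul (a1.add b1)).add
          (((a0.sub b0).pow 2).mul (a2.add b2)))) _ _
    · exact Continuous.intervalIntegrable (((a0.sub b0).pow 2).mul
        ((continuous_const.mul (a0.add b0)).sub (a2.add b2))) _ _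
    rw [integral_total (f := fun x =>
      2 * ((U (t, x) - V (t, x)) * (Dx (Dx U) (t, x) - Dx (Dx V) (t, x)) -
        (Dx U (t, x) - Dx V (t, x)) ^ 2 / 2) +
      (U (t, x) - V (t, x)) ^ 2 * (Dx U (t, x) + Dx V (t, x)))]
    · rw [zero_add]
    · intro x
      have d0 := (hU.sm.hasDerivAt_x ht x).sub (hV.sm.hasDerivAt_x ht x)
      have d1 := (hU.sm.dx.hasDerivAt_x ht x).sub (hV.sm.dx.hasDerivAt_x ht x)
      have d2 := (hU.sm.dx.dx.hasDerivAt_x ht x).sub (hV.sm.dx.dx.hasDerivAt_x ht x)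
      have s1 := (hU.sm.dx.hasDerivAt_x ht x).add (hV.sm.dx.hasDerivAt_x ht x)
      have := (((d0.mul d2).sub ((d1.pow 2).div_const 2)).const_mul 2).add ((d0.pow 2).mul s1)
      refine HasDerivAt.congr_deriv (f := fun x => _) this ?_
      simp only [Pi.sub_apply, Pi.add_apply, Pi.pow_apply]
      push_cast
      ring
    · exact (continuous_const.mul ((a0.sub b0).mul (a3.sub b3))).add
        (((continuous_const.mul ((a0.sub b0).mul (a1.sub b1))).mul (a1.add b1)).add
          (((a0.sub b0).pow 2).mul (a2.add b2)))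
    · simp only [hU.per.ends ht, p1.ends ht, p2.ends ht, hV.per.ends ht, q1.ends ht, q2.ends ht]
  rw [h2] at h1
  exact h1

theorem yy_nonneg (U V : ℝ × ℝ → ℝ) (t : ℝ) : 0 ≤ yy U V t :=
  intervalIntegral.integral_nonneg (by positivity) (fun x _ => sq_nonneg _)

theorem deriv_bound (hU : Sol T U) (hV : Sol T V) {a b : ℝ} (hab : Icc a b ⊆ Ioo 0 T) :
    ∃ C : ℝ, ∀ t ∈ Icc a b,
      |∫ x in (0)..(2 * Real.pi), (U (t, x) - V (t, x)) ^ 2 * cc U V (t, x)| ≤ C * yy U V t := by
  have hK : IsCompact (Icc a b ×ˢ Icc 0 (2 * Real.pi)) := isCompact_Icc.prod isCompact_Icc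
  have hsub : Icc a b ×ˢ Icc 0 (2 * Real.pi) ⊆ Om T := by
    rintro ⟨s, x⟩ ⟨hs, _⟩
    exact mem_Om.mpr (hab hs)
  have hcont : ContinuousOn (cc U V) (Icc a b ×ˢ Icc 0 (2 * Real.pi)) := by
    have h1 : ContinuousOn (cc U V) (Om T) := by
      unfold cc
      exact (continuousOn_const.mul (hU.sm.continuousOn.add hV.sm.continuousOn)).sub
        (hU.sm.dx.dx.continuousOn.add hV.sm.dx.dx.continuousOn)
    exact h1.mono hsub
  obtain ⟨C, hC⟩ := hK.exists_bound_of_continuousOn hcont
  refine ⟨C, fun t ht => ?_⟩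
  have htT := hab ht
  have a0 := hU.sm.continuous_x htT
  have b0 := hV.sm.continuous_x htT
  have a2 := hU.sm.dx.dx.continuous_x htT
  have b2 := hV.sm.dx.dx.continuous_x htT
  have hpi : (0 : ℝ) ≤ 2 * Real.pi := by positivity
  have h1 := intervalIntegral.norm_integral_le_of_norm_le (μ := volume)
    (f := fun x => (U (t, x) - V (t, x)) ^ 2 * cc U V (t, x))
    (g := fun x => C * (U (t, x) - V (t, x)) ^ 2) hpi ?_ ?_
  · rw [Real.norm_eq_abs, intervalIntegral.integral_const_mul] at h1
    exact h1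
  · refine Eventually.of_forall fun x hx => ?_
    have h2 := hC (t, x) ⟨ht, hx.1.le, hx.2⟩
    rw [norm_mul, Real.norm_eq_abs, abs_of_nonneg (sq_nonneg _), mul_comm]
    exact mul_le_mul_of_nonneg_right h2 (sq_nonneg _)
  · exact Continuous.intervalIntegrable (continuous_const.mul ((a0.sub b0).pow 2)) _ _

theorem yy_zero (hU : Sol T U) (hV : Sol T V) {t₀ t : ℝ} (h0 : t₀ ∈ Ioo 0 T) (ht : t ∈ Ioo 0 T)
    (hz : yy U V t₀ = 0) : yy U V t = 0 := by
  have hab : Icc (min t₀ t) (max t₀ t) ⊆ Ioo 0 T := by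
    intro s hs
    exact ⟨lt_of_lt_of_le (lt_min h0.1 ht.1) hs.1, lt_of_le_of_lt hs.2 (max_lt h0.2 ht.2)⟩
  obtain ⟨C, hC⟩ := deriv_bound hU hV hab
  have hd : ∀ s ∈ Icc (min t₀ t) (max t₀ t), HasDerivAt (yy U V)
      (∫ x in (0)..(2 * Real.pi), (U (s, x) - V (s, x)) ^ 2 * cc U V (s, x)) s :=
    fun s hs => hasDerivAt_yy hU hV (hab hs)
  have he : ∀ (K s : ℝ), HasDerivAt (fun s => Real.exp (K * s)) (Real.exp (K * s) * K) s := by
    intro K s
    have h1 := ((hasDerivAt_id s).const_mul K).exp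
    simpa using h1
  have ht0m : t₀ ∈ Icc (min t₀ t) (max t₀ t) := ⟨min_le_left _ _, le_max_left _ _⟩
  have htm : t ∈ Icc (min t₀ t) (max t₀ t) := ⟨min_le_right _ _, le_max_right _ _⟩
  apply le_antisymm _ (yy_nonneg U V t)
  rcases le_total t₀ t with hle | hle
  · have hanti : AntitoneOn (fun s => Real.exp (-C * s) * yy U V s)
        (Icc (min t₀ t) (max t₀ t)) := by
      apply antitoneOn_of_deriv_nonpos (convex_Icc _ _)
      · intro s hs
        exact ((he (-C) s).mul (hd s hs)).continuousAt.continuousWithinAt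
      · intro s hs
        exact ((he (-C) s).mul (hd s (interior_subset hs))).differentiableAt.differentiableWithinAt
      · intro s hs
        have hs' := interior_subset hs
        have h1 := ((he (-C) s).mul (hd s hs')).deriv
        have h2 : deriv (fun s => Real.exp (-C * s) * yy U V s) s = _ := h1
        rw [h2]
        have h3 := (abs_le.1 (hC s hs')).2
        have h4 : 0 < Real.exp (-C * s) := Real.exp_pos _
        have h5 : Real.exp (-C * s) * -C * yy U V s + Real.exp (-C * s) *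
            (∫ x in (0)..(2 * Real.pi), (U (s, x) - V (s, x)) ^ 2 * cc U V (s, x)) =
            Real.exp (-C * s) * ((∫ x in (0)..(2 * Real.pi),
              (U (s, x) - V (s, x)) ^ 2 * cc U V (s, x)) - C * yy U V s) := by ring
        rw [h5]
        exact mul_nonpos_of_nonneg_of_nonpos h4.le (by linarith)
    have h6 := hanti ht0m htm hle
    simp only [hz, mul_zero] at h6
    have h7 : 0 < Real.exp (-C * t) := Real.exp_pos _
    by_contra hc
    have := mul_pos h7 (not_le.1 hc)
    linarith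
  · have hmono : MonotoneOn (fun s => Real.exp (C * s) * yy U V s)
        (Icc (min t₀ t) (max t₀ t)) := by
      apply monotoneOn_of_deriv_nonneg (convex_Icc _ _)
      · intro s hs
        exact ((he C s).mul (hd s hs)).continuousAt.continuousWithinAt
      · intro s hs
        exact ((he C s).mul (hd s (interior_subset hs))).differentiableAt.differentiableWithinAt
      · intro s hs
        have hs' := interior_subset hs
        have h1 := ((he C s).mul (hd s hs')).deriv
        have h2 : deriv (fun s => Real.exp (C * s) * yy U V s) s = _ := h1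
        rw [h2]
        have h3 := (abs_le.1 (hC s hs')).1
        have h4 : 0 < Real.exp (C * s) := Real.exp_pos _
        have h5 : Real.exp (C * s) * C * yy U V s + Real.exp (C * s) *
            (∫ x in (0)..(2 * Real.pi), (U (s, x) - V (s, x)) ^ 2 * cc U V (s, x)) =
            Real.exp (C * s) * ((∫ x in (0)..(2 * Real.pi),
              (U (s, x) - V (s, x)) ^ 2 * cc U V (s, x)) + C * yy U V s) := by ring
        rw [h5]
        exact mul_nonneg h4.le (by linarith)
    have h6 := hmono htm ht0m hle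
    simp only [hz, mul_zero] at h6
    have h7 : 0 < Real.exp (C * t) := Real.exp_pos _
    by_contra hc
    have := mul_pos h7 (not_le.1 hc)
    linarith

end UNQM

open UNQM in
theorem specUNQ : SpecUNQ := by
  intro T U V t₀ hU hV h0 heq t ht x
  have hz : yy U V t₀ = 0 := by
    unfold yy
    have h1 : ∀ x, (U (t₀, x) - V (t₀, x)) ^ 2 = 0 := by
      intro x
      rw [heq x, sub_self]
      norm_num
    simp_rw [h1]
    simp
  have hy := yy_zero hU hV h0 ht hz
  have hpi : (0 : ℝ) < 2 * Real.pi := by positivity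
  have a0 := hU.sm.continuous_x ht
  have b0 := hV.sm.continuous_x ht
  have key : ∀ y ∈ Icc 0 (2 * Real.pi), U (t, y) - V (t, y) = 0 := by
    intro y hyI
    by_contra hc
    have hpos : 0 < (U (t, y) - V (t, y)) ^ 2 := by positivity
    have hcont : ContinuousOn (fun x => (U (t, x) - V (t, x)) ^ 2) (Icc 0 (2 * Real.pi)) :=
      ((a0.sub b0).pow 2).continuousOn
    have h2 := intervalIntegral.integral_pos hpi hcont (fun x _ => sq_nonneg _) ⟨y, hyI, hpos⟩
    unfold yy at hy
    linarith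
  have hper : Function.Periodic (fun x => U (t, x) - V (t, x)) (2 * Real.pi) := by
    intro x
    show U (t, x + 2 * Real.pi) - V (t, x + 2 * Real.pi) = U (t, x) - V (t, x)
    rw [hU.per t ht x, hV.per t ht x]
  obtain ⟨y, hyI, hxy⟩ := hper.exists_mem_Ico₀ hpi x
  have h3 : U (t, x) - V (t, x) = U (t, y) - V (t, y) := hxy
  have h4 := key y (Ico_subset_Icc_self hyI)
  linarith

end Pool.Agent.Lib.MPb879c5.WP
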