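import Pool.Agent.Lib.MP_b879c5_an.WP.SpecG
import Pool.Agent.Lib.MP_b879c5_an.WP.Asm
import Pool.Agent.Lib.MP_b879c5_an.WP.SOB
import Pool.Agent.Lib.MP_b879c5_an.WP.UNQ
import Pool.Agent.Lib.MP_b879c5_an.WP.HTW
import Pool.Agent.Lib.MP_b879c5_an.WP.HTH
import Pool.Agent.Lib.MP_b879c5_an.WP.APR
import Pool.Agent.Lib.MP_b879c5_an.WP.SHF
import Pool.Agent.Lib.MP_b879c5_an.WP.MXS
import Pool.Agent.Lib.MP_b879c5_an.WP.FTI
import Pool.Agent.Lib.MP_b879c5_an.WP.PRD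
import Pool.Agent.Lib.MP_b879c5_an.WP.TRG
import Pool.Agent.Lib.MP_b879c5_an.WP.TRB
import Pool.Agent.Lib.MP_b879c5_an.WP.TRD
import Pool.Agent.Lib.MP_b879c5_an.WP.GEN
import Pool.Agent.Lib.MP_b879c5_an.WP.ETS
import Pool.Agent.Lib.MP_b879c5_an.WP.EKS
import Pool.Agent.Lib.MP_b879c5_an.WP.GEX
import Pool.Agent.Lib.MP_b879c5_an.WP.GBD
import Pool.Agent.Lib.MP_b879c5_an.WP.TBD
import Pool.Agent.Lib.MP_b879c5_an.WP.CPT
import Pool.Agent.Lib.MP_b879c5_an.WP.LKD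
import Pool.Agent.Lib.MP_b879c5_an.WP.PDE
import Pool.Agent.Lib.MP_b879c5_an.WP.GLU
import Pool.Agent.Lib.MP_b879c5_an.WP.LEX

/-!
All modules of the well-posedness part put together (MP_b879c5_an, helper42).
-/

set_option autoImplicit false

namespace Pool.Agent.Lib.MPb879c5.WP

open Set Filter MeasureTheory Topology
open Pool.Agent.Lib.MP_b879c5_an
open scoped ContDiff

theorem allHTH : SpecHTH := specHTH specHTW
theorem allAPR : SpecAPR := specAPR allHTH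
theorem allMXS : SpecMXS := specMXS specUNQ allAPR specSHF
theorem allFTI : SpecFTI := specFTI specUNQ specSHF
theorem allPRD : SpecPRD := specPRD specUNQ
theorem allTRB : SpecTRB := specTRB specTRG
theorem allGEN : SpecGEN := specGEN specTRG
theorem allETS : SpecETS := specETS specSOB
theorem allEKS : SpecEKS := specEKS specSOB
theorem allGEX : SpecGEX := specGEX specTRG allGEN allETS
theorem allGBD : SpecGBD := specGBD specSOB specTRG allGEN allEKS
theorem allTBD : SpecTBD := specTBD specSOB specTRG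
theorem allPDE : SpecPDE := specPDE specTRG specTRD
theorem allLEX : SpecLEX := specLEX specSOB specTRG allTRB allGEX allGBD allTBD specCPT specLKD allPDE specGLU

/-- Maximal solutions for smooth initial values `u₀ ≠ 0` with nonnegative mean: existence, blow-up in finite time, uniqueness. -/
theorem exists_maximal_all (u₀ : ℝ → ℝ) (hu : SP u₀) (hm : 0 ≤ ∫ x in (0)..(2 * Real.pi), u₀ x) (hne : ∃ x, u₀ x ≠ 0) :
    ∃ T > 0, ∃ δ > 0, ∃ u : ℝ → ℝ → ℝ, SolOn (-δ) T u ∧ (∀ x, u 0 x = u₀ x) ∧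
      (∀ M : ℝ, ∃ᶠ t in 𝓝[<] T, ∃ x, M < |u t x|) ∧
      ∀ (T' δ' : ℝ) (v : ℝ → ℝ → ℝ), 0 < T' → 0 < δ' → SolOn (-δ') T' v → (∀ x, v 0 x = u₀ x) →
        T' ≤ T ∧ ∀ t ∈ Ico 0 T', ∀ x, v t x = u t x :=
  exists_maximal specUNQ allFTI allMXS allLEX u₀ hu hm hne

end Pool.Agent.Lib.MPb879c5.WP
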