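import Pool.Agent.Lib.MP_b879c5_an.WP.SpecG

/-!
# Module LKD of `WP/SpecG.lean` (MP_b879c5_an): convergence of all derivatives

Landau's inequality and uniform convergence.
-/

set_option autoImplicit false

namespace Pool.Agent.Lib.MPb879c5.WP

open Set Filter MeasureTheory Topology
open Pool.Agent.Lib.MP_b879c5_an
open scoped ContDiff

namespace LKDM

/-- Landau's inequality. -/
theorem landau (g g1 g2 : ℝ → ℝ) (h1 : ∀ x, HasDerivAt g (g1 x) x) (h2 : ∀ x, HasDerivAt g1 (g2 x) x)
    (A B h : ℝ) (hh : 0 < h) (hA : ∀ x, |g x| ≤ A) (hB : ∀ x, |g2 x| ≤ B) (x : ℝ) :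
    |g1 x| ≤ 2 * A / h + h * B := by
  have hx : x < x + h := by linarith
  obtain ⟨c, hc, hceq⟩ := exists_hasDerivAt_eq_slope g g1 hx
    (fun y _ => (h1 y).continuousAt.continuousWithinAt) (fun y _ => h1 y)
  have e1 : |g1 c| ≤ 2 * A / h := by
    rw [hceq, abs_div]
    have e2 : |x + h - x| = h := by
      rw [show x + h - x = h by ring, abs_of_pos hh]
    rw [e2]
    apply div_le_div_of_nonneg_right _ hh.le
    have e3 := abs_sub (g (x + h)) (g x)
    have e4 := hA (x + h)
    have e5 := hA x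
    linarith
  obtain ⟨d, hd, hdeq⟩ := exists_hasDerivAt_eq_slope g1 g2 hc.1
    (fun y _ => (h2 y).continuousAt.continuousWithinAt) (fun y _ => h2 y)
  have hcx : 0 < c - x := by linarith [hc.1]
  have e6 : g1 c - g1 x = g2 d * (c - x) := by
    rw [hdeq]
    field_simp
  have e7 : |g1 c - g1 x| ≤ h * B := by
    rw [e6, abs_mul, abs_of_pos hcx]
    have e8 := hB d
    have e9 : c - x ≤ h := by linarith [hc.2]
    have e10 : 0 ≤ |g2 d| := abs_nonneg _
    nlinarith
  have e11 : |g1 x| ≤ |g1 c| + |g1 c - g1 x| := by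
    have := abs_sub (g1 c) (g1 c - g1 x)
    have e12 : g1 c - (g1 c - g1 x) = g1 x := by ring
    rw [e12] at this
    exact this
  linarith

theorem hasDerivAt_it (f : ℝ → ℝ) (hf : ContDiff ℝ ∞ f) (k : ℕ) (x : ℝ) :
    HasDerivAt (iteratedDeriv k f) (iteratedDeriv (k + 1) f x) x := by
  have hd : Differentiable ℝ (iteratedDeriv k f) :=
    hf.differentiable_iteratedDeriv k (by exact_mod_cast ENat.natCast_lt_top k)
  have := (hd x).hasDerivAt
  rw [iteratedDeriv_succ]
  exact this

/-- Uniformly Cauchy. -/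
theorem cauchy (S : Set ℝ) (f : ℕ → ℝ → ℝ → ℝ) (u : ℝ → ℝ → ℝ) (hS : ∀ n, ∀ t ∈ S, SP (f n t))
    (hC : ∀ k : ℕ, ∃ C, ∀ n, ∀ t ∈ S, ∀ x, |iteratedDeriv k (f n t) x| ≤ C)
    (hu : ∀ η > 0, ∀ᶠ n in atTop, ∀ t ∈ S, ∀ x, |f n t x - u t x| ≤ η) (k : ℕ) :
    ∀ η > 0, ∃ N : ℕ, ∀ n ≥ N, ∀ m ≥ N, ∀ t ∈ S, ∀ x,
      |iteratedDeriv k (f n t) x - iteratedDeriv k (f m t) x| ≤ η := by
  induction k with
  | zero =>
    intro η hη
    obtain ⟨N, hN⟩ := eventually_atTop.1 (hu (η / 2) (by positivity))
    refine ⟨N, fun n hn m hm t ht x => ?_⟩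
    simp only [iteratedDeriv_zero]
    have h1 := hN n hn t ht x
    have h2 := hN m hm t ht x
    have h3 : |f n t x - f m t x| ≤ |f n t x - u t x| + |f m t x - u t x| := by
      have := abs_sub (f n t x - u t x) (f m t x - u t x)
      rw [show f n t x - u t x - (f m t x - u t x) = f n t x - f m t x by ring] at this
      exact this
    linarith
  | succ k ih =>
    intro η hη
    obtain ⟨C, hC2⟩ := hC (k + 1 + 1)
    set h : ℝ := η / (4 * (|C| + 1)) with hh
    have hCp : 0 < |C| + 1 := by positivity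
    have hh0 : 0 < h := by positivity
    obtain ⟨N, hN⟩ := ih (η * h / 4) (by positivity)
    refine ⟨N, fun n hn m hm t ht x => ?_⟩
    have hfn := (hS n t ht).sm
    have hfm := (hS m t ht).sm
    have key := landau (fun y => iteratedDeriv k (f n t) y - iteratedDeriv k (f m t) y)
      (fun y => iteratedDeriv (k + 1) (f n t) y - iteratedDeriv (k + 1) (f m t) y)
      (fun y => iteratedDeriv (k + 1 + 1) (f n t) y - iteratedDeriv (k + 1 + 1) (f m t) y)
      (fun y => (hasDerivAt_it _ hfn k y).sub (hasDerivAt_it _ hfm k y))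
      (fun y => (hasDerivAt_it _ hfn (k + 1) y).sub (hasDerivAt_it _ hfm (k + 1) y))
      (η * h / 4) (2 * |C|) h hh0 (fun y => hN n hn m hm t ht y)
      (fun y => by
        have h1 := hC2 n t ht y
        have h2 := hC2 m t ht y
        have h3 := abs_sub (iteratedDeriv (k + 1 + 1) (f n t) y) (iteratedDeriv (k + 1 + 1) (f m t) y)
        have h4 := le_abs_self C
        linarith) x
    refine le_trans key ?_
    have h5 : 2 * (η * h / 4) / h = η / 2 := by
      field_simp
      ring
    have h6 : h * (2 * |C|) ≤ η / 2 := by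
      have h7 : h * (4 * (|C| + 1)) = η := by
        rw [hh]
        field_simp
      nlinarith
    rw [h5]
    linarith

end LKDM

open LKDM in
theorem specLKD : SpecLKD := by
  intro S f u hS hC hu
  have hcau := cauchy S f u hS hC hu
  -- the limits
  have hlim : ∀ (k : ℕ) (t : ℝ), t ∈ S → ∀ x, ∃ v : ℝ, Tendsto (fun n => iteratedDeriv k (f n t) x) atTop (𝓝 v) := by
    intro k t ht x
    apply cauchySeq_tendsto_of_complete
    rw [Metric.cauchySeq_iff]
    intro ε hε
    obtain ⟨N, hN⟩ := hcau k (ε / 2) (by positivity)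
    refine ⟨N, fun n hn m hm => ?_⟩
    rw [Real.dist_eq]
    have := hN n hn m hm t ht x
    linarith
  classical
  let v : ℕ → ℝ → ℝ → ℝ := fun k t x => if ht : t ∈ S then (hlim k t ht x).choose else 0
  have hv : ∀ (k : ℕ) (t : ℝ), t ∈ S → ∀ x, Tendsto (fun n => iteratedDeriv k (f n t) x) atTop (𝓝 (v k t x)) := by
    intro k t ht x
    have e : v k t x = (hlim k t ht x).choose := by
      simp only [v, dif_pos ht]
    rw [e]
    exact (hlim k t ht x).choose_spec
  -- uniform convergence to the limits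
  have hunif : ∀ (k : ℕ), ∀ η > 0, ∃ N : ℕ, ∀ n ≥ N, ∀ t ∈ S, ∀ x, |iteratedDeriv k (f n t) x - v k t x| ≤ η := by
    intro k η hη
    obtain ⟨N, hN⟩ := hcau k η hη
    refine ⟨N, fun n hn t ht x => ?_⟩
    have h1 : Tendsto (fun m => |iteratedDeriv k (f n t) x - iteratedDeriv k (f m t) x|) atTop
        (𝓝 |iteratedDeriv k (f n t) x - v k t x|) :=
      ((hv k t ht x).const_sub _).abs
    refine le_of_tendsto h1 ?_
    filter_upwards [eventually_ge_atTop N] with m hm
    exact hN n hn m hm t ht x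
  have hder : ∀ (k : ℕ) (t : ℝ), t ∈ S → ∀ x, HasDerivAt (v k t) (v (k + 1) t x) x := by
    intro k t ht x
    refine hasDerivAt_of_tendstoUniformly (l := atTop) (f := fun n => iteratedDeriv k (f n t))
      (f' := fun n => iteratedDeriv (k + 1) (f n t)) (g := v k t) (g' := v (k + 1) t) ?_ ?_ ?_ x
    · rw [Metric.tendstoUniformly_iff]
      intro ε hε
      obtain ⟨N, hN⟩ := hunif (k + 1) (ε / 2) (by positivity)
      filter_upwards [eventually_ge_atTop N] with n hn y
      rw [dist_comm, Real.dist_eq]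
      have := hN n hn t ht y
      linarith
    · exact Eventually.of_forall (fun n y => hasDerivAt_it _ (hS n t ht).sm k y)
    · exact fun y => hv k t ht y
  have hv0 : ∀ t ∈ S, v 0 t = u t := by
    intro t ht
    funext x
    have h1 : Tendsto (fun n => f n t x) atTop (𝓝 (u t x)) := by
      rw [Metric.tendsto_atTop]
      intro ε hε
      obtain ⟨N, hN⟩ := eventually_atTop.1 (hu (ε / 2) (by positivity))
      refine ⟨N, fun n hn => ?_⟩
      rw [Real.dist_eq]
      have := hN n hn t ht x
      linarith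
    have h2 := hv 0 t ht x
    simp only [iteratedDeriv_zero] at h2
    exact tendsto_nhds_unique h2 h1
  have hit : ∀ (k : ℕ), ∀ t ∈ S, iteratedDeriv k (u t) = v k t := by
    intro k
    induction k with
    | zero =>
      intro t ht
      rw [iteratedDeriv_zero, hv0 t ht]
    | succ k ih =>
      intro t ht
      funext x
      rw [iteratedDeriv_succ, ih t ht]
      exact (hder k t ht x).deriv
  refine ⟨fun t ht => ⟨?_, ?_⟩, ?_⟩
  · have := contDiff_of_differentiable_iteratedDeriv (𝕜 := ℝ) (n := (⊤ : ℕ∞)) (f := u t) (fun m _ => ?_)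
    · exact this
    · rw [hit m t ht]
      exact fun x => (hder m t ht x).differentiableAt
  · intro x
    have h1 := hv 0 t ht x
    have h2 := hv 0 t ht (x + 2 * Real.pi)
    simp only [iteratedDeriv_zero] at h1 h2
    have h3 : (fun n => f n t (x + 2 * Real.pi)) = fun n => f n t x := by
      funext n
      exact (hS n t ht).per x
    rw [h3] at h2
    have h4 := tendsto_nhds_unique h2 h1
    rw [hv0 t ht] at h4
    exact h4
  · intro k η hη
    obtain ⟨N, hN⟩ := hunif k η hη
    filter_upwards [eventually_ge_atTop N] with n hn t ht x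
    rw [hit k t ht]
    exact hN n hn t ht x

end Pool.Agent.Lib.MPb879c5.WP
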