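import Pool.Agent.Lib.MP_b879c5_an.WP.Spec

/-!
# MP_b879c5_an: module PRD (smaller periods are preserved)
-/

set_option autoImplicit false

namespace Pool.Agent.Lib.MPb879c5.WP

open Set Filter MeasureTheory Topology
open Pool.Agent.Lib.MP_b879c5_an
open scoped ContDiff

namespace PRDM

/-- The space derivative commutes with the shift. -/
lemma dx_shift (G : ℝ × ℝ → ℝ) (c : ℝ × ℝ) :
    Dx (fun p => G (p + c)) = fun p => Dx G (p + c) := by
  funext p
  unfold Dx
  rw [fderiv_comp_add_right]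

/-- The time derivative commutes with the shift. -/
lemma dt_shift (G : ℝ × ℝ → ℝ) (c : ℝ × ℝ) :
    Dt (fun p => G (p + c)) = fun p => Dt G (p + c) := by
  funext p
  unfold Dt
  rw [fderiv_comp_add_right]

/-- The shift in space of a solution is a solution. -/
lemma sol_shift {T : ℝ} {U : ℝ × ℝ → ℝ} (hU : Sol T U) (h : ℝ) :
    Sol T (fun p => U (p + (0, h))) := by
  have hadd : ∀ t x : ℝ, ((t, x) : ℝ × ℝ) + (0, h) = (t, x + h) := by
    intro t x
    simp
  refine ⟨?_, ?_, ?_⟩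
  · have h1 : ContDiffOn ℝ ∞ U (Om T) := hU.sm
    refine h1.comp ((contDiff_id.add contDiff_const).contDiffOn) ?_
    rintro ⟨t, x⟩ hp
    have h2 : t ∈ Ioo 0 T := by
      simpa [Om] using hp
    show ((t, x) : ℝ × ℝ) + (0, h) ∈ Om T
    rw [hadd]
    simpa [Om] using h2
  · intro t ht x
    show U ((t, x + 2 * Real.pi) + (0, h)) = U ((t, x) + (0, h))
    rw [hadd, hadd]
    have h3 : x + 2 * Real.pi + h = x + h + 2 * Real.pi := by ring
    rw [h3]
    exact hU.per t ht (x + h)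
  · intro t ht x
    rw [dt_shift, dx_shift, dx_shift, dx_shift]
    show Dt U ((t, x) + (0, h)) = Dx (Dx (Dx U)) ((t, x) + (0, h)) + (Dx U ((t, x) + (0, h))) ^ 2 +
      (U ((t, x) + (0, h))) ^ 2
    rw [hadd]
    exact hU.pde t ht (x + h)

end PRDM

theorem specPRD (hUNQ : SpecUNQ) : SpecPRD := by
  intro T U t₀ h hU ht₀ hp t ht x
  have h1 := hUNQ T (fun p => U (p + (0, h))) U t₀ (PRDM.sol_shift hU h) hU ht₀ (by
    intro x
    show U ((t₀, x) + (0, h)) = U (t₀, x)
    have h2 : ((t₀, x) : ℝ × ℝ) + (0, h) = (t₀, x + h) := by simp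
    rw [h2]
    exact hp x) t ht x
  have h3 : U ((t, x) + (0, h)) = U (t, x) := h1
  have h4 : ((t, x) : ℝ × ℝ) + (0, h) = (t, x + h) := by simp
  rw [h4] at h3
  exact h3

end Pool.Agent.Lib.MPb879c5.WP
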