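import Pool.Agent.Lib.MP_b879c5_an.BlowUp

/-!
# Well-posedness and blow-up for `u_t = u_xxx + u_x^2 + u^2` (MP_b879c5_an): specification, first half (captain helper42)

AIM. For every smooth `2π`-periodic `u₀` with `∫ u₀ ≥ 0`, `u₀ ≠ 0`, the maximal classical solution with `u(0) = u₀` blows up in finite time.
Together with the landed trichotomy (`ProfileTrichotomy`): every nonconstant `u₀` of period `2π/n`, `n ≥ 2`, with `∫ u₀ ≥ 0` has a blow-up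
with unbounded rescaled `H^(3/2)` norm: the localized pattern is not universal. All of this is textbook analysis.

First half (this file): uniqueness, a priori bounds, maximal solutions, finite time. Second half (`WP/SpecG.lean`): local existence.

Conventions: module `XXX` is the file `Pool/Agent/Lib/MP_b879c5_an/WP/XXX.lean`, imports only `Pool.Agent.Lib.MP_b879c5_an.WP.Spec` and proves
`theorem specXXX (hYYY : SpecYYY) .. : SpecXXX` (the modules named after USES, in this order) in the namespace `Pool.Agent.Lib.MPb879c5.WP`,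
own lemmas in a namespace `XXXM`. The landed library of `BlowUp.lean` (`Sol`, `Sm`, `Per`, `Dx`, `Dt`, `II`, `JI`, `mI`, `Sm.hasDerivAt_integral`,
`integral_total`, `Sol.dt_dx`, `Sol.hasDerivAt_m`, `Sol.hasDerivAt_I`, ..) may be used.
-/

set_option autoImplicit false

namespace Pool.Agent.Lib.MPb879c5.WP

open Set Filter MeasureTheory Topology
open Pool.Agent.Lib.MP_b879c5_an
open scoped ContDiff

noncomputable section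

/-- Smooth `2π`-periodic functions. -/
structure SP (f : ℝ → ℝ) : Prop where
  sm : ContDiff ℝ ∞ f
  per : ∀ x, f (x + 2 * Real.pi) = f x

/-- `∫_0^(2π) (f^(k))²`. -/
def En (k : ℕ) (f : ℝ → ℝ) : ℝ := ∫ x in (0)..(2 * Real.pi), iteratedDeriv k f x ^ 2

/-- **SOB** (110 lines, no deps). Interpolation and Sobolev inequalities.
PROOF. `E_j = -∫ f^(j-1) f^(j+1)` (parts), so `E_j² ≤ E_(j-1) E_(j+1)` (`1 ≤ j`), so `E_j ≤ max(E_0, E_k)` for `0 ≤ j ≤ k` (if the maximum of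
`E_0..E_k` is at an interior `j` then the neighbours are equal to it; or induction). For `g = f^(j)`: `|g(x)| ≤ |g(y)| + ∫_0^(2π) |g'|`, average over `y`:
`g(x)² ≤ 2 ((1/2π) ∫ g² + 2π ∫ g'²) ≤ 13 (E_0 + E_k)`. -/
def SpecSOB : Prop :=
  ∀ f : ℝ → ℝ, SP f → ∀ j k : ℕ, j < k → En j f ≤ En 0 f + En k f ∧
    ∀ x, iteratedDeriv j f x ^ 2 ≤ 20 * (En 0 f + En k f)

/-- **UNQ** (110 lines, no deps). Uniqueness.
PROOF. `d = U - V`, `y(t) = ∫ d²`: `d_t = d_xxx + (U_x + V_x) d_x + (U + V) d`, `y' = -∫ (U_xx + V_xx) d² + 2 ∫ (U + V) d²` (parts, periodicity). On a compact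
subinterval of `(0,T)` containing `t₀` the coefficients are bounded by some `C` (continuity, periodicity), `|y'| ≤ C y`, so `y = 0`: `exp(-Ct) y` is nonincreasing and
`exp(Ct) y` nondecreasing. -/
def SpecUNQ : Prop :=
  ∀ (T : ℝ) (U V : ℝ × ℝ → ℝ) (t₀ : ℝ), Sol T U → Sol T V → t₀ ∈ Ioo 0 T → (∀ x, U (t₀, x) = V (t₀, x)) →
    ∀ t ∈ Ioo 0 T, ∀ x, U (t, x) = V (t, x)

/-- **HTW** (190 lines, no deps). A priori bound for `∫ U_xx²`.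
PROOF. `I' = 4∫ U U_x² ≤ 4M I`: `I ≤ R₁` on `[t₁,T)`. Let `p = U_x`, `p_t = p_xxx + 2pp_x + 2Up` (`Sol.dt_dx`), `Y = ∫ p_x²`, `y = Y - (2/3)∫ p³`. By parts
`(∫ p_x²)' = 2∫ p_x³ + 4∫ U p_x²`, `(∫ p³)' = 3∫ p_x³ + 6∫ U p³`, so `y' = 4∫ U p_x² - 4∫ U p³`. Since `∫ p = 0`, `p² ≤ 2√(I Y)` (`p` vanishes somewhere), so
`∫ |p|³ ≤ R₁ (2√(R₁ Y))^(1/2) ≤ Y/4 + C`, `Y ≤ 2y + C`, `y' ≤ C(1 + Y) ≤ C'(1 + |y|)`.., precisely `(y + C'')' ≤ C' (y + C'')` with `y + C'' ≥ 0`: bounded on `[t₁,T)`. -/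
def SpecHTW : Prop :=
  ∀ (T : ℝ) (U : ℝ × ℝ → ℝ) (M t₁ : ℝ), Sol T U → t₁ ∈ Ioo 0 T → (∀ t ∈ Ico t₁ T, ∀ x, |U (t, x)| ≤ M) →
    ∃ R, ∀ t ∈ Ico t₁ T, II U t ≤ R ∧ (∫ x in (0)..(2 * Real.pi), Dx (Dx U) (t, x) ^ 2) ≤ R

/-- **HTH** (190 lines), USES HTW. A priori bound for `∫ U_xxx²`.
PROOF. `p = U_x`, `Z = ∫ p_xx²`, `z = Z - (10/3)∫ p p_x²`. By parts `(∫ p_xx²)' = 10∫ p_x p_xx² + 4∫ U p_xx² - 6∫ p_x³`,
`(∫ p p_x²)' = 3∫ p_x p_xx² + 2∫ p p_x³ + 6∫ U p p_x²`, so `z' = 4∫ U p_xx² - 6∫ p_x³ - (20/3)∫ p p_x³ - 20∫ U p p_x²`. By HTW `∫ p²`, `∫ p_x² ≤ R`, `|p| ≤ P`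
(`p² ≤ 2√(∫p²∫p_x²)`), `p_x² ≤ 2√(R Z)`: `|∫ p_x³| ≤ R √(2√(R Z)) ≤ C(1+Z)`, `|∫ p p_x²| ≤ P R`. So `|Z - z| ≤ C` and `z' ≤ C(1 + Z)`: Grönwall on the bounded interval. -/
def SpecHTH : Prop :=
  ∀ (T : ℝ) (U : ℝ × ℝ → ℝ) (M t₁ : ℝ), Sol T U → t₁ ∈ Ioo 0 T → (∀ t ∈ Ico t₁ T, ∀ x, |U (t, x)| ≤ M) →
    ∃ R, ∀ t ∈ Ico t₁ T, (∫ x in (0)..(2 * Real.pi), Dx (Dx (Dx U)) (t, x) ^ 2) ≤ R

/-- **APR** (60 lines), USES HTH. Without blow-up the `H³` norm is bounded near `T`.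
PROOF. Negate `Blow`: `|U| ≤ M` on `(t₀,T)`; take `t₁ ∈ (max t₀ 0, T)`. `iteratedDeriv 3 (fun x => U (t, x)) = Dx (Dx (Dx U)) (t, ·)`. -/
def SpecAPR : Prop :=
  ∀ (T : ℝ) (U : ℝ × ℝ → ℝ), 0 < T → Sol T U → ¬ Blow T U →
    ∃ R t₂, t₂ ∈ Ioo 0 T ∧ ∀ t ∈ Ico t₂ T, En 0 (fun x => U (t, x)) + En 3 (fun x => U (t, x)) ≤ R

/-- **SHF** (90 lines, no deps). Restriction, time shift, gluing.
PROOF. (1) clear (open subset). (2) `V(t,x) = U(t + h, x)` on `(0, T - h)`. (3) `U` on `(0,T₁)`, `V` shifted by `h` on `(h, h + T₂)`, equal on the overlap `(h, T₁)`: the function which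
is `U` for `t < T₁` and `V(t - h, x)` for `t ≥ T₁` is locally one of the two. -/
def SpecSHF : Prop :=
  (∀ (T T' : ℝ) (U : ℝ × ℝ → ℝ), Sol T U → T' ≤ T → Sol T' U) ∧
  (∀ (T h : ℝ) (U : ℝ × ℝ → ℝ), Sol T U → 0 ≤ h → Sol (T - h) (fun p => U (p.1 + h, p.2))) ∧
  (∀ (T₁ T₂ h : ℝ) (U V : ℝ × ℝ → ℝ), Sol T₁ U → Sol T₂ V → 0 ≤ h → h < T₁ → T₁ ≤ h + T₂ →
    (∀ t, h < t → t < T₁ → ∀ x, U (t, x) = V (t - h, x)) →
    Sol (h + T₂) (fun p => if p.1 < T₁ then U p else V (p.1 - h, p.2)))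

/-- Local existence (second half, `SpecLEX`): the time `τ` depends only on the bound `R` for the `H³` norm. -/
def LocEx : Prop :=
  ∀ R : ℝ, ∃ τ > 0, ∀ u₀ : ℝ → ℝ, SP u₀ → En 0 u₀ + En 3 u₀ ≤ R → ∃ U : ℝ × ℝ → ℝ, Sol (2 * τ) U ∧ ∀ x, U (τ, x) = u₀ x

/-- **MXS** (190 lines), USES UNQ APR SHF. Maximal solutions.
PROOF. `δ = τ` from `LocEx` for `u₀`. `S = {T > δ : ∃ U, Sol T U ∧ U(δ,·) = u₀}` contains `2δ` and is bounded by `B`; `T* = sup S`. For `t < T*` choose `b ∈ S`, `b > t`, and a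
solution `U_b`; by UNQ (and SHF (1)) the value `U_b(t,x)` does not depend on the choice; `U(t,x) = U_b(t,x)` defines `U` with `Sol T* U` (locally `U = U_b`), and `T* > δ`.
If not `Blow T* U`: APR gives `R`, `t₂`; `LocEx R` gives `τ`. Take `t` with `t₂ ≤ t < T*`, `t > T* - τ`, `t > δ`, and `W`, `Sol (2τ) W`, `W(τ,·) = U(t,·)` (`SP (U(t,·))` from `Sm`, `Per`).
If `t ≥ τ` let `h = t - τ`, `V = W`, `T₂ = 2τ`; if `t < τ` let `h = 0`, `V(r,x) = W(r + τ - t, x)`, `T₂ = τ + t` (SHF (2)). In both cases `V(t - h,·) = U(t,·)` and `h + T₂ = t + τ > T*`;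
UNQ for `V` and `U(· + h)` on `(0, T* - h)` at the time `t - h` gives the equality on the overlap, SHF (3) with `T₁ = T*` gives a solution on `(0, t + τ)`, equal to `U` for times `< T*`, in
particular at `δ`: `t + τ ∈ S`, contradiction. -/
def SpecMXS : Prop :=
  LocEx → ∀ u₀ : ℝ → ℝ, SP u₀ →
    (∀ δ > 0, (∃ U, Sol (2 * δ) U ∧ ∀ x, U (δ, x) = u₀ x) →
      ∃ B, ∀ (T : ℝ) (U : ℝ × ℝ → ℝ), δ < T → Sol T U → (∀ x, U (δ, x) = u₀ x) → T ≤ B) →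
    ∃ δ > 0, ∃ T > δ, ∃ U, Sol T U ∧ (∀ x, U (δ, x) = u₀ x) ∧ Blow T U

/-- **FTI** (80 lines), USES UNQ SHF. Finite time.
PROOF. `m = mI U` satisfies `m' = II + JI ≥ 0` (`Sol.hasDerivAt_m`) and `mI U t ≤ 2π/(T-t)` (`Sol.m_upper`), so `T ≤ t + 2π/m(t)` when `m(t) > 0`. Let `U₁` be the given solution on
`(0,2δ)`, `t₁ = 3δ/2`: `m₁ = mI U₁ t₁ > 0` because `m(δ) ≥ 0` and `JI U₁ δ > 0` (`u₀` continuous, not zero). Every other `U` on `(0,T)`, `T > t₁`, agrees with `U₁` at `t₁` (UNQ on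
`(0, min(T, 2δ))`). So `B = max(t₁, t₁ + 2π/m₁)` will do. -/
def SpecFTI : Prop :=
  ∀ u₀ : ℝ → ℝ, SP u₀ → 0 ≤ (∫ x in (0)..(2 * Real.pi), u₀ x) → (∃ x, u₀ x ≠ 0) →
    ∀ δ > 0, (∃ U, Sol (2 * δ) U ∧ ∀ x, U (δ, x) = u₀ x) →
      ∃ B, ∀ (T : ℝ) (U : ℝ × ℝ → ℝ), δ < T → Sol T U → (∀ x, U (δ, x) = u₀ x) → T ≤ B

/-- **PRD** (60 lines), USES UNQ. Smaller periods are preserved. PROOF. `V(t,x) = U(t, x + h)` is a solution; UNQ. -/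
def SpecPRD : Prop :=
  ∀ (T : ℝ) (U : ℝ × ℝ → ℝ) (t₀ h : ℝ), Sol T U → t₀ ∈ Ioo 0 T → (∀ x, U (t₀, x + h) = U (t₀, x)) →
    ∀ t ∈ Ioo 0 T, ∀ x, U (t, x + h) = U (t, x)

end

end Pool.Agent.Lib.MPb879c5.WP
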