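import Pool.Agent.Lib.MP_b879c5_an.WP.Spec

/-!
# Well-posedness for `u_t = u_xxx + u_x^2 + u^2` (MP_b879c5_an): specification, second half (local existence; captain helper42)

Galerkin approximation by trigonometric polynomials, energy estimates in all `H^k` on an interval `[-τ, τ]` which depends only on the `H³` norm,
compactness, joint smoothness of the limit. Conventions as in `WP/Spec.lean`; the modules of this half import `Pool.Agent.Lib.MP_b879c5_an.WP.SpecG`.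
-/

set_option autoImplicit false

namespace Pool.Agent.Lib.MPb879c5.WP

open Set Filter MeasureTheory Topology
open Pool.Agent.Lib.MP_b879c5_an
open scoped ContDiff

noncomputable section

/-- The functions `1, sin x, cos x, sin 2x, cos 2x, ..`. -/
def tb (j : ℕ) (x : ℝ) : ℝ :=
  if Even j then Real.cos (((j / 2 : ℕ) : ℝ) * x) else Real.sin ((((j + 1) / 2 : ℕ) : ℝ) * x)

/-- The trigonometric polynomial of degree `≤ N` with coefficients `c`. -/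
def tp (N : ℕ) (c : Fin (2 * N + 1) → ℝ) (x : ℝ) : ℝ := ∑ j, c j * tb j x

/-- The right-hand side of the equation. -/
def Fo (f : ℝ → ℝ) (x : ℝ) : ℝ := iteratedDeriv 3 f x + deriv f x ^ 2 + f x ^ 2

/-- `∫ tp w φ = ∫ Fo (tp a) φ` for all trigonometric polynomials `φ` of degree `≤ N`. -/
def GalEq (N : ℕ) (a w : Fin (2 * N + 1) → ℝ) : Prop :=
  ∀ φ : Fin (2 * N + 1) → ℝ,
    (∫ x in (0)..(2 * Real.pi), tp N w x * tp N φ x) = ∫ x in (0)..(2 * Real.pi), Fo (tp N a) x * tp N φ x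

/-- Solutions of the Galerkin system on `[-τ, τ]`. -/
structure Gal (N : ℕ) (τ : ℝ) (c c' : ℝ → Fin (2 * N + 1) → ℝ) : Prop where
  der : ∀ t ∈ Icc (-τ) τ, HasDerivAt c (c' t) t
  eqn : ∀ t ∈ Icc (-τ) τ, GalEq N (c t) (c' t)

/-- **TRG** (160 lines, no deps). Trigonometric polynomials.
PROOF. (1), (2), (5) from the formulas for the derivatives of `sin kx`, `cos kx`. (3) orthogonality relations (product formulas, or integrate by parts twice for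
different frequencies; `sin kx cos kx = sin 2kx / 2`). (4) from (3): `∫ (tp c)² = 2π c_0² + π Σ_(j>0) c_j²`; in `Fin → ℝ` with the sup norm. (6) extend `φ` by zero. -/
def SpecTRG : Prop :=
  (∀ (N : ℕ) (c : Fin (2 * N + 1) → ℝ), SP (tp N c)) ∧
  (∀ (N : ℕ) (c : Fin (2 * N + 1) → ℝ) (k : ℕ), ∃ φ : Fin (2 * N + 1) → ℝ, iteratedDeriv k (tp N c) = tp N φ) ∧
  (∀ i j : ℕ, (∫ x in (0)..(2 * Real.pi), tb i x * tb j x) = if i = j then (if i = 0 then 2 * Real.pi else Real.pi) else 0) ∧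
  (∀ (N : ℕ) (c : Fin (2 * N + 1) → ℝ), Real.pi * ‖c‖ ^ 2 ≤ En 0 (tp N c)) ∧
  (∀ (j : ℕ), ContDiff ℝ ∞ (tb j) ∧ ∀ x, tb j (x + 2 * Real.pi) = tb j x) ∧
  (∀ (M N : ℕ) (φ : Fin (2 * M + 1) → ℝ), M ≤ N → ∃ ψ : Fin (2 * N + 1) → ℝ, tp M φ = tp N ψ)

/-- **TRB** (170 lines), USES TRG. Approximation of the initial value.
PROOF. `c_j = (∫ u₀ tb j)/(∫ tb j²)`: `tp N c` is the orthogonal projection `P_N u₀`, and `∂^k P_N u₀ = P_N ∂^k u₀` (integrate by parts against `tb j`), so Bessel gives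
`En k (tp N c) ≤ En k u₀`. Uniform convergence: `|c_j| ≤ C/j²` (two integrations by parts), so the series converges uniformly to a continuous function with the same Fourier
coefficients as `u₀` (Mathlib: `has_pointwise_sum_fourier_series_of_summable`, or TRD's argument). -/
def SpecTRB : Prop :=
  ∀ u₀ : ℝ → ℝ, SP u₀ → ∃ c : (N : ℕ) → (Fin (2 * N + 1) → ℝ),
    (∀ N k, En k (tp N (c N)) ≤ En k u₀) ∧ ∀ η > 0, ∀ᶠ N in atTop, ∀ x, |tp N (c N) x - u₀ x| ≤ η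

/-- **TRD** (100 lines, no deps). Completeness.
PROOF. The hypothesis gives `∫ h cos(kx) = ∫ h sin(kx) = 0` for all `k`, so all Fourier coefficients of the continuous function `h` on the circle vanish and `h = 0` (Mathlib:
`fourierCoeff`, `hasSum_fourier_series_L2` or density of `fourierSubalgebra`). -/
def SpecTRD : Prop :=
  ∀ h : ℝ → ℝ, Continuous h → (∀ x, h (x + 2 * Real.pi) = h x) →
    (∀ (N : ℕ) (φ : Fin (2 * N + 1) → ℝ), (∫ x in (0)..(2 * Real.pi), h x * tp N φ x) = 0) → ∀ x, h x = 0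

/-- **GEN** (120 lines), USES TRG. Energy identity.
PROOF. (1) `En k (tp N c) = Σ_(i,j) c_i c_j ∫ tb_i^(k) tb_j^(k)` is a quadratic form. (2) `k` integrations by parts (all functions are smooth and periodic) and `GalEq` with
`tp N φ = iteratedDeriv (2k) (tp N a)` (TRG (2)): both sides are `(-1)^k ∫ (tp a)^(2k) tp w`, resp. `(-1)^k ∫ (tp a)^(2k) Fo (tp a)`. -/
def SpecGEN : Prop :=
  (∀ (N k : ℕ) (c : ℝ → Fin (2 * N + 1) → ℝ) (v : Fin (2 * N + 1) → ℝ) (t : ℝ), HasDerivAt c v t →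
    HasDerivAt (fun s => En k (tp N (c s)))
      (2 * ∫ x in (0)..(2 * Real.pi), iteratedDeriv k (tp N (c t)) x * iteratedDeriv k (tp N v) x) t) ∧
  (∀ (N k : ℕ) (a w : Fin (2 * N + 1) → ℝ), GalEq N a w →
    (∫ x in (0)..(2 * Real.pi), iteratedDeriv k (tp N a) x * iteratedDeriv k (tp N w) x)
      = ∫ x in (0)..(2 * Real.pi), iteratedDeriv k (tp N a) x * iteratedDeriv k (Fo (tp N a)) x)

/-- **ETS** (140 lines), USES SOB. The energy inequality in `H³`.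
PROOF. `S = En 0 f + En 3 f`; `|f|, |f'|, |f''| ≤ √(20 S)`, `En 1, En 2 ≤ S` (SOB). `∫ f f''' = 0`, `|∫ f f'²|, |∫ f³| ≤ √(20S) S`. `∫ f''' f^(6) = 0`,
`(f'²)''' = 2 f' f'''' + 6 f'' f'''`, `∫ f''' (f'²)''' = 5 ∫ f'' f'''²`, `(f²)''' = 2 f f''' + 6 f' f''`. So the sum is `≤ C S √S ≤ C (1+S)²`. -/
def SpecETS : Prop :=
  ∃ C₁ > 0, ∀ f : ℝ → ℝ, SP f →
    |∫ x in (0)..(2 * Real.pi), f x * Fo f x| +
      |∫ x in (0)..(2 * Real.pi), iteratedDeriv 3 f x * iteratedDeriv 3 (Fo f) x| ≤ C₁ * (1 + (En 0 f + En 3 f)) ^ 2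

/-- **EKS** (190 lines), USES SOB. The energy inequality in `H^k`, `k ≥ 4`, linear in `En k`.
PROOF. `∫ f^(k) f^(k+3) = 0`. Leibniz: `(f'²)^(k) = Σ_i C(k,i) f^(i+1) f^(k-i+1)`. `i = 0, k`: `2∫ f^(k) f' f^(k+1) = -∫ f'' (f^(k))²`; `i = 1, k-1`: `2k ∫ f'' (f^(k))²`; here
`f''² ≤ 20 (En 0 + En 3) ≤ 40 A`. `2 ≤ i ≤ k-2`: orders `a ≤ b`, `a + b = k + 2`, `3 ≤ a`, `b ≤ k - 1`, `a + 1 ≤ k`: `(f^(a))² ≤ 20 (En 0 + En (a+1)) ≤ 20 (2A + En k)`, `En b ≤ A`, so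
`|∫ f^(k) f^(a) f^(b)| ≤ √(En k) √(20 (2A + En k)) √A ≤ C (1 + En k)`. `(f²)^(k)`: one factor of order `≤ k/2`, bounded by `√(40 A)`, the other in `L²` by `√(A + En k)`. -/
def SpecEKS : Prop :=
  ∀ (k : ℕ) (A : ℝ), 4 ≤ k → ∃ C, ∀ f : ℝ → ℝ, SP f → (∀ j < k, En j f ≤ A) →
    |∫ x in (0)..(2 * Real.pi), iteratedDeriv k f x * iteratedDeriv k (Fo f) x| ≤ C * (1 + En k f)

/-- **GEX** (190 lines), USES TRG GEN ETS. Galerkin solutions.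
PROOF. `w(a)_j = (∫ Fo (tp a) tb_j)/(∫ tb_j²)` satisfies `GalEq N a (w a)` and is a polynomial in `a` (quadratic). `E(a) = En 0 (tp a) + En 3 (tp a)`,
`X(a) = θ(a) w(a)`, `θ(a) = Real.smoothTransition (2R + 3 - E(a))`: `θ = 1` for `E ≤ 2R+2`, `θ = 0` for `E ≥ 2R+3`; since `E(a) ≥ π‖a‖²` the field is `C¹` and bounded:
`MPfab.Glob.global_sol` (file `MP_fabde4_an/N/Tint.lean`, which GEX imports in addition) gives `c`. `y = E(c)`: `|y'| = θ |2∫.. + 2∫..| ≤ 2 C₁ (1+y)²` (GEN, ETS), so `1/(1+y(t)) ≥ 1/(1+R) - 2C₁|t| ≥ 1/(2(1+R))` for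
`|t| ≤ τ ≤ 1/(C₂ (1+R))`, `C₂ = 4 C₁`: `y ≤ 2R + 1`, there `θ = 1`; `c'(t) = w(c(t))`. -/
def SpecGEX : Prop :=
  ∃ C₂ > 0, ∀ (N : ℕ) (c₀ : Fin (2 * N + 1) → ℝ) (R : ℝ), 0 ≤ R → En 0 (tp N c₀) + En 3 (tp N c₀) ≤ R →
    ∀ τ, 0 < τ → τ * (C₂ * (1 + R)) ≤ 1 → ∃ c c' : ℝ → Fin (2 * N + 1) → ℝ, c 0 = c₀ ∧ Gal N τ c c' ∧
      ∀ t ∈ Icc (-τ) τ, En 0 (tp N (c t)) + En 3 (tp N (c t)) ≤ 2 * R + 1

/-- **GBD** (110 lines), USES SOB TRG GEN EKS. Uniform bounds in all `H^k`.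
PROOF. `k ≤ 3`: SOB (`En k ≤ A`). `k ≥ 4` by induction: `|(En k)'| ≤ 2C(1 + En k)` with `C` from EKS for the bound already found for `j < k`, so
`1 + En k (c t) ≤ (1 + B k) exp(2Cτ)` for `|t| ≤ τ`. -/
def SpecGBD : Prop :=
  ∀ (τ A : ℝ) (B : ℕ → ℝ), 0 < τ → ∃ D : ℕ → ℝ, ∀ (N : ℕ) (c c' : ℝ → Fin (2 * N + 1) → ℝ), Gal N τ c c' →
    (∀ t ∈ Icc (-τ) τ, En 0 (tp N (c t)) + En 3 (tp N (c t)) ≤ A) → (∀ k, En k (tp N (c 0)) ≤ B k) →
    ∀ t ∈ Icc (-τ) τ, ∀ k, En k (tp N (c t)) ≤ D k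

/-- **TBD** (110 lines), USES SOB TRG. The time derivative is bounded.
PROOF. `v = tp N w`. `GalEq` with `tp N φ = v - v''`: `∫ v² + ∫ v'² = ∫ Fo v + ∫ Fo' v' ≤ ‖Fo‖_(H¹) ‖v‖_(H¹)` (parts), so `∫ v² + ∫ v'² ≤ ∫ Fo² + ∫ Fo'²`, bounded by the `D k`, `k ≤ 5`
(SOB for the sup norms). Then `v² ≤ 20 (En 0 v + En 1 v)`. -/
def SpecTBD : Prop :=
  ∀ D : ℕ → ℝ, ∃ L, ∀ (N : ℕ) (a w : Fin (2 * N + 1) → ℝ), GalEq N a w → (∀ k, En k (tp N a) ≤ D k) → ∀ x, |tp N w x| ≤ L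

/-- **CPT** (140 lines, no deps). Arzelà-Ascoli.
PROOF. `BoundedContinuousFunction.arzela_ascoli` (or a diagonal sequence at rational points) on the compact set `[-τ,τ] × [0,2π]`, then periodicity. -/
def SpecCPT : Prop :=
  ∀ (τ L : ℝ) (f : ℕ → ℝ → ℝ → ℝ), 0 < τ → (∀ n, ∀ t ∈ Icc (-τ) τ, ∀ x, |f n t x| ≤ L) →
    (∀ n, ∀ t ∈ Icc (-τ) τ, ∀ t' ∈ Icc (-τ) τ, ∀ x x', |f n t x - f n t' x'| ≤ L * (|t - t'| + |x - x'|)) →
    (∀ n, ∀ t ∈ Icc (-τ) τ, ∀ x, f n t (x + 2 * Real.pi) = f n t x) →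
    ∃ φ : ℕ → ℕ, StrictMono φ ∧ ∃ u : ℝ → ℝ → ℝ, ∀ η > 0, ∀ᶠ n in atTop, ∀ t ∈ Icc (-τ) τ, ∀ x, |f (φ n) t x - u t x| ≤ η

/-- **LKD** (160 lines, no deps). Convergence of all derivatives.
PROOF. Landau: if `|g| ≤ A`, `|g''| ≤ B` on `ℝ` then `|g'| ≤ 2A/h + hB` for every `h > 0` (Taylor). Apply it to `g = f_n^(k) - f_m^(k)`: by induction on `k` the sequences `f_n^(k)` are Cauchy,
uniformly on `S × ℝ`; the limits are the derivatives of `u t` (`hasDerivAt_of_tendstoUniformly`). -/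
def SpecLKD : Prop :=
  ∀ (S : Set ℝ) (f : ℕ → ℝ → ℝ → ℝ) (u : ℝ → ℝ → ℝ), (∀ n, ∀ t ∈ S, SP (f n t)) →
    (∀ k : ℕ, ∃ C, ∀ n, ∀ t ∈ S, ∀ x, |iteratedDeriv k (f n t) x| ≤ C) →
    (∀ η > 0, ∀ᶠ n in atTop, ∀ t ∈ S, ∀ x, |f n t x - u t x| ≤ η) →
    (∀ t ∈ S, SP (u t)) ∧ ∀ k : ℕ, ∀ η > 0, ∀ᶠ n in atTop, ∀ t ∈ S, ∀ x, |iteratedDeriv k (f n t) x - iteratedDeriv k (u t) x| ≤ η

/-- **PDE** (170 lines), USES TRG TRD. The limit equation.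
PROOF. `(t,x) ↦ (tp N (c t))^(k)(x)` is continuous on `[-τ,τ] × ℝ`, so the uniform limit is. For a trigonometric polynomial `φ` of degree `M` and `φ n ≥ M` (TRG (6)):
`∫ (tp (c t) - tp (c s)) φ = ∫_s^t ∫ Fo (tp (c r)) φ dx dr`; `n → ∞`: `∫ h φ = 0` with `h(x) = u t x - u s x - ∫_s^t Fo (u r) x dr`, continuous and periodic (Fubini); TRD. -/
def SpecPDE : Prop :=
  ∀ (τ : ℝ) (φ : ℕ → ℕ) (c c' : (n : ℕ) → ℝ → Fin (2 * n + 1) → ℝ) (u : ℝ → ℝ → ℝ), 0 < τ → StrictMono φ →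
    (∀ n, Gal n τ (c n) (c' n)) → (∀ t ∈ Icc (-τ) τ, SP (u t)) →
    (∀ k : ℕ, ∀ η > 0, ∀ᶠ n in atTop, ∀ t ∈ Icc (-τ) τ, ∀ x,
      |iteratedDeriv k (tp (φ n) (c (φ n) t)) x - iteratedDeriv k (u t) x| ≤ η) →
    (∀ k : ℕ, ContinuousOn (fun p : ℝ × ℝ => iteratedDeriv k (u p.1) p.2) (Icc (-τ) τ ×ˢ univ)) ∧
      ∀ s ∈ Icc (-τ) τ, ∀ t ∈ Icc (-τ) τ, ∀ x, u t x - u s x = ∫ r in s..t, Fo (u r) x

/-- **GLU** (190 lines, no deps). Joint smoothness.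
PROOF. `g_k(t,x) = (u t)^(k)(x)`, continuous on the strip, `∂_x g_k = g_(k+1)`; differentiating the integral identity `k` times in `x` (under the integral):
`g_k(t,x) - g_k(s,x) = ∫_s^t G_k(r,x) dr`, `G_k = g_(k+3) + Σ C(k,i) (g_(i+1) g_(k-i+1) + g_i g_(k-i))`, so `∂_t g_k = G_k`. A function with continuous partial derivatives on an open set is
`C¹`; induction: if all `g_k` are `C^n` on the open strip then `fderiv g_k`, built from `G_k` and `g_(k+1)`, is `C^n`, so `g_k` is `C^(n+1)`. So `u` is `C^∞` and `Dt U = Fo`,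
`Dx^k U = g_k`. -/
def SpecGLU : Prop :=
  ∀ (τ : ℝ) (u : ℝ → ℝ → ℝ), 0 < τ → (∀ t ∈ Icc (-τ) τ, SP (u t)) →
    (∀ k : ℕ, ContinuousOn (fun p : ℝ × ℝ => iteratedDeriv k (u p.1) p.2) (Icc (-τ) τ ×ˢ univ)) →
    (∀ s ∈ Icc (-τ) τ, ∀ t ∈ Icc (-τ) τ, ∀ x, u t x - u s x = ∫ r in s..t, Fo (u r) x) →
    Sol (2 * τ) (fun p => u (p.1 - τ) p.2)

/-- **LEX** (130 lines), USES SOB TRG TRB GEX GBD TBD CPT LKD PDE GLU. Local existence.
PROOF. `R' = max R 0`, `τ = 1/(C₂ (1 + R'))`. `c_0^N` from TRB, `c^N` from GEX (`En k (c_0^N) ≤ En k u₀`), bounds `D` from GBD (`A = 2R'+1`, `B k = En k u₀`), `L` from TBD; SOB turns the `D k` into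
sup bounds for all derivatives; CPT for `f N t = tp N (c^N t)` (Lipschitz in `t` by TBD, in `x` by the bound for the derivative), LKD (`S = [-τ,τ]`, for the subsequence), PDE, GLU; `u 0 = u₀` by the
uniform convergence in TRB. -/
def SpecLEX : Prop := LocEx

end

end Pool.Agent.Lib.MPb879c5.WP
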